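import Pool.Agent.Helper56.Final

set_option autoImplicit false
set_option linter.unusedSectionVars false

namespace Pool.Agent.Helper56.Cube

open Finset MeasureTheory ProbabilityTheory

lemma sparse_of_card_eq {n N : ℕ} (g : Fin N → Fin n → ℝ) (s : ℕ) (hsN : s ≤ N) (C : ℝ)
    (h : ∀ J : Finset (Fin N), J.card = s → ∀ z : Fin n → ℝ,
      ∑ j ∈ J, ip z (g j) ^ 2 ≤ C * nsq z) :
    ∀ J : Finset (Fin N), J.card ≤ s → ∀ z : Fin n → ℝ, ∑ j ∈ J, ip z (g j) ^ 2 ≤ C * nsq z := by
  intro J hJ z
  obtain ⟨J', hsub, hcard⟩ := Finset.exists_superset_card_eq hJ (by simpa using hsN)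
  exact (Finset.sum_le_sum_of_subset_of_nonneg hsub (fun _ _ _ => sq_nonneg _)).trans
    (h J' hcard z)

/-- the inradius event, with all numerical estimates done -/
lemma event_inradius' (n N : ℕ) (hn : 0 < n) (hnN : n ≤ N) (y : ℝ)
    (hy : y = 1 + Real.log ((N : ℝ) / n)) (hy12 : 12 ≤ y) :
    ∃ E : Set (Fin N → Fin n → ℝ), (mu N n).real E ≤ 2 * Real.exp (-(n : ℝ)) ∧
      ∀ g, g ∉ E → ∀ z : Fin n → ℝ, ∃ j, (y / 16) * nsq z ≤ ip z (g j) ^ 2 := by
  have hn0 : (0 : ℝ) < n := by exact_mod_cast hn
  have hnN' : (n : ℝ) ≤ N := by exact_mod_cast hnN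
  have hN0 : (0 : ℝ) < N := by linarith
  have hNy : (N : ℝ) = n * Real.exp (y - 1) := by
    rw [hy, add_sub_cancel_left, Real.exp_log (by positivity)]
    field_simp
  obtain ⟨E1, hE1, hg1⟩ := event_upper n N N (16 * N)
  obtain ⟨E2, hE2, hg2⟩ := event_inradius n N y hy12
  refine ⟨E1 ∪ E2, ?_, ?_⟩
  · have h1 : (mu N n).real E1 ≤ Real.exp (-(n : ℝ)) := by
      refine hE1.trans ?_
      rw [Nat.choose_self, Nat.cast_one, one_mul]
      have h2 := five_pow_le n
      have h3 := sqrt_two_pow_le N
      calc (5 : ℝ) ^ n * (Real.exp (-(16 * N / 4)) * (Real.sqrt 2) ^ N)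
          ≤ Real.exp (2 * n) * (Real.exp (-(16 * N / 4)) * Real.exp ((N : ℝ) / 2)) := by
            apply mul_le_mul h2 _ (by have := Real.exp_pos (-(16 * (N : ℝ) / 4)); positivity)
              (Real.exp_pos _).le
            exact mul_le_mul_of_nonneg_left h3 (Real.exp_pos _).le
        _ = Real.exp (2 * n + (-(16 * N / 4) + (N : ℝ) / 2)) := by
            rw [Real.exp_add, Real.exp_add]
        _ ≤ Real.exp (-(n : ℝ)) := by
            apply Real.exp_le_exp.mpr
            linarith
    have h2 : (mu N n).real E2 ≤ Real.exp (-(n : ℝ)) :=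
      hE2.trans (num_inradius n N y hy12 hNy)
    have h3 := measureReal_union_le (μ := mu N n) E1 E2
    linarith
  · intro g hg
    simp only [Set.mem_union, not_or] at hg
    apply hg2 (by omega) g hg.2
    intro z
    have h1 := hg1 g hg.1 Finset.univ (by simp) z
    refine h1.trans (le_of_eq ?_)
    ring

/-- constants -/
noncomputable def QQ : ℝ := 1920 * Real.exp 11 + 327680

lemma main_regimes (n N : ℕ) (hn : 960 ≤ n) (hnN : n ≤ N) :
    ∃ E : Set (Fin N → Fin n → ℝ), (mu N n).real E ≤ 4 * Real.exp (-(n : ℝ) / 80) ∧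
      ∀ g, g ∉ E → Good 76801 QQ g := by
  classical
  have hn0' : 0 < n := by omega
  have hn0 : (0 : ℝ) < n := by exact_mod_cast hn0'
  have hn960 : (960 : ℝ) ≤ n := by exact_mod_cast hn
  have hnN' : (n : ℝ) ≤ N := by exact_mod_cast hnN
  have hN0 : (0 : ℝ) < N := by linarith
  set y : ℝ := 1 + Real.log ((N : ℝ) / n) with hy
  have hy1 : 1 ≤ y := by
    rw [hy]
    have : 0 ≤ Real.log ((N : ℝ) / n) := Real.log_nonneg (by rw [le_div_iff₀ hn0]; linarith)
    linarith
  have hNy : (N : ℝ) = n * Real.exp (y - 1) := by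
    rw [hy, add_sub_cancel_left, Real.exp_log (by positivity)]
    field_simp
  have hexpn : Real.exp (-(n : ℝ)) ≤ Real.exp (-(n : ℝ) / 80) := by
    apply Real.exp_le_exp.mpr
    linarith
  have he11 : 0 < Real.exp 11 := Real.exp_pos _
  by_cases hcase : 80 * y ≤ n
  · -- sparse regime
    set s : ℕ := ⌊(n : ℝ) / (80 * y)⌋₊ with hs
    have h80y : 0 < 80 * y := by linarith
    have hratio : 1 ≤ (n : ℝ) / (80 * y) := by rw [le_div_iff₀ h80y]; linarith
    have hs1 : 1 ≤ s := by
      rw [hs, Nat.one_le_floor_iff]; exact hratio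
    have hsle : (s : ℝ) ≤ (n : ℝ) / (80 * y) := Nat.floor_le (by positivity)
    have hsmul : (s : ℝ) * (80 * y) ≤ n := by rwa [le_div_iff₀ h80y] at hsle
    have hs0 : (0 : ℝ) ≤ s := Nat.cast_nonneg _
    have hs80 : (s : ℝ) * 80 ≤ n := by nlinarith
    have hsN : s ≤ N := by
      have : (s : ℝ) ≤ N := by linarith
      exact_mod_cast this
    have hsge : (n : ℝ) ≤ 160 * y * s := by
      have h1 : (n : ℝ) / (80 * y) < s + 1 := Nat.lt_floor_add_one _
      have h2 : (1 : ℝ) ≤ s := by exact_mod_cast hs1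
      have h3 : (n : ℝ) / (80 * y) ≤ 2 * s := by linarith
      rw [div_le_iff₀ h80y] at h3
      linarith
    have hch := choose_le n N s hn0' hnN y hy hsmul
    obtain ⟨E1, hE1, hg1⟩ := event_upper n N s (16 * n)
    obtain ⟨E2, hE2, hg2⟩ := event_lower n N s hsN
    have hE1' : (mu N n).real E1 ≤ Real.exp (-(n : ℝ)) := by
      refine hE1.trans ?_
      have h2 := five_pow_le n
      have h3 := sqrt_two_pow_le s
      calc (N.choose s : ℝ) * (5 ^ n * (Real.exp (-(16 * n / 4)) * (Real.sqrt 2) ^ s))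
          ≤ Real.exp ((n : ℝ) / 10) * (Real.exp (2 * n) *
              (Real.exp (-(16 * n / 4)) * Real.exp ((s : ℝ) / 2))) := by
            apply mul_le_mul hch _ (by have := Real.exp_pos (-(16 * (n : ℝ) / 4)); positivity)
              (Real.exp_pos _).le
            apply mul_le_mul h2 _ (by have := Real.exp_pos (-(16 * (n : ℝ) / 4)); positivity)
              (Real.exp_pos _).le
            exact mul_le_mul_of_nonneg_left h3 (Real.exp_pos _).le
        _ = Real.exp ((n : ℝ) / 10 + (2 * n + (-(16 * n / 4) + (s : ℝ) / 2))) := by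
            rw [Real.exp_add, Real.exp_add, Real.exp_add]
        _ ≤ Real.exp (-(n : ℝ)) := by
            apply Real.exp_le_exp.mpr
            linarith
    have hE2' : (mu N n).real E2 ≤ Real.exp (-(n : ℝ)) := by
      refine hE2.trans ?_
      have h2 := pow281_le s
      have h3 := quarter_pow_le n
      calc (N.choose s : ℝ) * (281 ^ s * (Real.exp ((n : ℝ) / 10) * (1 / 4) ^ n))
          ≤ Real.exp ((n : ℝ) / 10) * (Real.exp (6 * s) *
              (Real.exp ((n : ℝ) / 10) * Real.exp (-(13 / 10 * n)))) := by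
            apply mul_le_mul hch _ (by have := Real.exp_pos ((n : ℝ) / 10); positivity)
              (Real.exp_pos _).le
            apply mul_le_mul h2 _ (by have := Real.exp_pos ((n : ℝ) / 10); positivity)
              (Real.exp_pos _).le
            exact mul_le_mul_of_nonneg_left h3 (Real.exp_pos _).le
        _ = Real.exp ((n : ℝ) / 10 + (6 * s + ((n : ℝ) / 10 + -(13 / 10 * n)))) := by
            rw [Real.exp_add, Real.exp_add, Real.exp_add]
        _ ≤ Real.exp (-(n : ℝ)) := by
            apply Real.exp_le_exp.mpr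
            linarith
    by_cases hy12 : y < 12
    · -- few columns
      set E3 : Set (Fin N → Fin n → ℝ) := {g | Submodule.span ℝ (Set.range g) ≠ ⊤} with hE3def
      have hE3 : (mu N n).real E3 = 0 := by
        obtain ⟨k, rfl⟩ := Nat.exists_eq_add_of_le hnN
        rw [Measure.real, span_null n k]; simp
      refine ⟨(E1 ∪ E2) ∪ E3, ?_, ?_⟩
      · have h1 := measureReal_union_le (μ := mu N n) (E1 ∪ E2) E3
        have h2 := measureReal_union_le (μ := mu N n) E1 E2
        have := Real.exp_pos (-(n : ℝ) / 80)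
        linarith
      · intro g hg
        simp only [Set.mem_union, not_or] at hg
        obtain ⟨⟨hgE1, hgE2⟩, hgE3⟩ := hg
        have hspan : Submodule.span ℝ (Set.range g) = ⊤ := by
          by_contra hne
          exact hgE3 hne
        have hU0 : ∀ J : Finset (Fin N), J.card = s → ∀ z : Fin n → ℝ,
            ∑ j ∈ J, ip z (g j) ^ 2 ≤ 64 * n * nsq z := by
          intro J hJ z
          refine (hg1 g hgE1 J hJ z).trans (le_of_eq ?_)
          ring
        have hU := sparse_of_card_eq g s hsN (64 * n) hU0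
        have hL := hg2 g hgE2 hU0
        have hNs : (N : ℝ) ≤ 1920 * Real.exp 11 * s := by
          rw [hNy]
          have h1 : Real.exp (y - 1) ≤ Real.exp 11 := Real.exp_le_exp.mpr (by linarith)
          have h2 : (n : ℝ) ≤ 1920 * s := by nlinarith
          calc (n : ℝ) * Real.exp (y - 1) ≤ (1920 * s) * Real.exp 11 :=
                mul_le_mul h2 h1 (Real.exp_pos _).le (by positivity)
            _ = 1920 * Real.exp 11 * s := by ring
        have hgood := good_one g s hs1 hn0' (1920 * Real.exp 11) (surj_of_span g hspan) hU hL hNs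
        exact hgood.mono le_rfl (by rw [QQ]; linarith)
    · -- many columns
      push Not at hy12
      obtain ⟨E3, hE3, hg3⟩ := event_inradius' n N hn0' hnN y hy hy12
      refine ⟨(E1 ∪ E2) ∪ E3, ?_, ?_⟩
      · have h1 := measureReal_union_le (μ := mu N n) (E1 ∪ E2) E3
        have h2 := measureReal_union_le (μ := mu N n) E1 E2
        linarith
      · intro g hg
        simp only [Set.mem_union, not_or] at hg
        obtain ⟨⟨hgE1, hgE2⟩, hgE3⟩ := hg
        have hU0 : ∀ J : Finset (Fin N), J.card = s → ∀ z : Fin n → ℝ,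
            ∑ j ∈ J, ip z (g j) ^ 2 ≤ 64 * n * nsq z := by
          intro J hJ z
          refine (hg1 g hgE1 J hJ z).trans (le_of_eq ?_)
          ring
        have hU := sparse_of_card_eq g s hsN (64 * n) hU0
        have hL := hg2 g hgE2 hU0
        have hgood := good_two g s hs1 hn0' y (by linarith) hU hL (hg3 g hgE3) hsge
        exact hgood.mono le_rfl (by rw [QQ]; linarith)
  · -- very many columns
    push Not at hcase
    have hy12 : 12 ≤ y := by linarith
    obtain ⟨E3, hE3, hg3⟩ := event_inradius' n N hn0' hnN y hy hy12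
    obtain ⟨E4, hE4, hg4⟩ := event_columns n N (600 * y)
    refine ⟨E3 ∪ E4, ?_, ?_⟩
    · have hE4' : (mu N n).real E4 ≤ Real.exp (-(n : ℝ) / 80) := by
        refine hE4.trans ?_
        have h3 := sqrt_two_pow_le n
        have h4 : (N : ℝ) ≤ Real.exp (n + y) := by
          rw [hNy, Real.exp_add]
          have h5 : (n : ℝ) ≤ Real.exp n := by have := Real.add_one_le_exp (n : ℝ); linarith
          have h6 : Real.exp (y - 1) ≤ Real.exp y := Real.exp_le_exp.mpr (by linarith)
          exact mul_le_mul h5 h6 (Real.exp_pos _).le (Real.exp_pos _).le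
        calc (N : ℝ) * (Real.exp (-(600 * y / 4)) * (Real.sqrt 2) ^ n)
            ≤ Real.exp (n + y) * (Real.exp (-(600 * y / 4)) * Real.exp ((n : ℝ) / 2)) := by
              apply mul_le_mul h4 _ (by have := Real.exp_pos (-(600 * y / 4)); positivity)
                (Real.exp_pos _).le
              exact mul_le_mul_of_nonneg_left h3 (Real.exp_pos _).le
          _ = Real.exp ((n + y) + (-(600 * y / 4) + (n : ℝ) / 2)) := by
              rw [Real.exp_add (n + y), Real.exp_add (-(600 * y / 4))]
          _ ≤ Real.exp (-(n : ℝ) / 80) := by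
              apply Real.exp_le_exp.mpr
              linarith
      have h1 := measureReal_union_le (μ := mu N n) E3 E4
      have := Real.exp_pos (-(n : ℝ) / 80)
      linarith
    · intro g hg
      simp only [Set.mem_union, not_or] at hg
      have hgood := good_three g y (by linarith) (hg4 g hg.2) (hg3 g hg.1)
      exact hgood.mono (by norm_num) (by rw [QQ]; linarith)

/-- from the deterministic property to cotype -/
lemma cotype_of_good {n N : ℕ} (g : Fin N → Fin n → ℝ) (hg : Good 76801 QQ g) (d t : ℕ)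
    (hd : 1 ≤ d) (ht : 0 < t) (hdQ : 8 * QQ * (25600 * 76801 + 1) ≤ ((3200 * d : ℕ) : ℝ))
    (hkt : (3 / 4 : ℝ) ^ t * ((3200 * d : ℕ) : ℝ) ≤ 1 / 2) (m : ℕ) (x : Fin m → Fin n → ℝ) :
    (∑ i, qn g (x i) ^ (((2 * t : ℕ)) : ℝ)) ^ (1 / (((2 * t : ℕ)) : ℝ)) ≤
      (4 * ((3200 * d : ℕ) : ℝ)) * avg (fun σ => qn g (∑ i, sg (σ i) • x i)) := by
  obtain ⟨hsurj, s, hs, hK, hH⟩ := hg
  have hQ : 0 ≤ QQ := by
    rw [QQ]; have := Real.exp_pos 11; positivity
  have hb : Basic (qs g hsurj) (3200 * d) := by
    intro v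
    have h1 := core (qs g hsurj) (Gm g) s 76801 QQ hs (by norm_num) hQ (fun v => qn_le g v)
      (fun y δ hδ => qn_near g hsurj y δ hδ) hK (hH (3200 * d)) d hd (by simp)
      (by simpa using hdQ) v
    simpa using h1
  have h2 := cotype_final (qs g hsurj) (3200 * d) t (by omega) ht hb hkt x
  exact h2

end Pool.Agent.Helper56.Cube
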