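import Pool.Agent.Helper56.Cotype

set_option autoImplicit false
set_option linter.unusedSectionVars false

namespace Pool.Agent.Helper56.Cube

open Finset

variable {n N : ℕ}

/-- squared Euclidean norm -/
noncomputable def nsq {κ : Type*} [Fintype κ] (v : κ → ℝ) : ℝ := ∑ r, v r ^ 2

/-- standard inner product -/
noncomputable def ip {κ : Type*} [Fintype κ] (z x : κ → ℝ) : ℝ := ∑ r, z r * x r

/-- the linear map with columns `g j` -/
noncomputable def Gm (g : Fin N → Fin n → ℝ) : (Fin N → ℝ) →ₗ[ℝ] (Fin n → ℝ) where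
  toFun t := ∑ j, t j • g j
  map_add' t t' := by simp [add_smul, Finset.sum_add_distrib]
  map_smul' c t := by simp [Finset.smul_sum, smul_smul]

lemma Gm_apply (g : Fin N → Fin n → ℝ) (t : Fin N → ℝ) : Gm g t = ∑ j, t j • g j := rfl

lemma nsq_nonneg {κ : Type*} [Fintype κ] (v : κ → ℝ) : 0 ≤ nsq v :=
  Finset.sum_nonneg fun _ _ => sq_nonneg _

lemma ip_sq_le {κ : Type*} [Fintype κ] (z x : κ → ℝ) : ip z x ^ 2 ≤ nsq z * nsq x :=
  Finset.sum_mul_sq_le_sq_mul_sq _ _ _

lemma ip_self {κ : Type*} [Fintype κ] (z : κ → ℝ) : ip z z = nsq z := by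
  simp [ip, nsq, sq]

lemma ip_Gm (g : Fin N → Fin n → ℝ) (z : Fin n → ℝ) (w : Fin N → ℝ) :
    ip z (Gm g w) = ∑ j, w j * ip z (g j) := by
  simp only [ip, Gm_apply, Finset.sum_apply, Pi.smul_apply, smul_eq_mul, Finset.mul_sum]
  rw [Finset.sum_comm]
  refine Finset.sum_congr rfl fun j _ => Finset.sum_congr rfl fun r _ => ?_
  ring

/-- the quotient norm -/
noncomputable def qn (g : Fin N → Fin n → ℝ) (y : Fin n → ℝ) : ℝ :=
  sInf {s : ℝ | ∃ t : Fin N → ℝ, ∑ j, t j • g j = y ∧ ∑ j, |t j| = s}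

lemma qn_bdd (g : Fin N → Fin n → ℝ) (y : Fin n → ℝ) :
    BddBelow {s : ℝ | ∃ t : Fin N → ℝ, ∑ j, t j • g j = y ∧ ∑ j, |t j| = s} := by
  refine ⟨0, ?_⟩
  rintro s ⟨t, _, rfl⟩
  exact Finset.sum_nonneg fun _ _ => abs_nonneg _

lemma qn_nonneg (g : Fin N → Fin n → ℝ) (y : Fin n → ℝ) : 0 ≤ qn g y := by
  apply Real.sInf_nonneg
  rintro s ⟨t, _, rfl⟩
  exact Finset.sum_nonneg fun _ _ => abs_nonneg _

lemma qn_le (g : Fin N → Fin n → ℝ) (t : Fin N → ℝ) : qn g (Gm g t) ≤ ∑ j, |t j| :=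
  csInf_le (qn_bdd g _) ⟨t, rfl, rfl⟩

lemma qn_near (g : Fin N → Fin n → ℝ) (hsurj : ∀ y : Fin n → ℝ, ∃ t : Fin N → ℝ, ∑ j, t j • g j = y)
    (y : Fin n → ℝ) (δ : ℝ) (hδ : 0 < δ) : ∃ t, Gm g t = y ∧ ∑ j, |t j| ≤ qn g y + δ := by
  have hne : {s : ℝ | ∃ t : Fin N → ℝ, ∑ j, t j • g j = y ∧ ∑ j, |t j| = s}.Nonempty := by
    obtain ⟨t, ht⟩ := hsurj y
    exact ⟨_, t, ht, rfl⟩
  obtain ⟨s, ⟨t, ht, hs⟩, hlt⟩ := exists_lt_of_csInf_lt hne (lt_add_of_pos_right (qn g y) hδ)
  exact ⟨t, ht, by rw [hs]; exact hlt.le⟩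

/-- the quotient norm as a seminorm -/
noncomputable def qs (g : Fin N → Fin n → ℝ)
    (hsurj : ∀ y : Fin n → ℝ, ∃ t : Fin N → ℝ, ∑ j, t j • g j = y) : Seminorm ℝ (Fin n → ℝ) :=
  Seminorm.ofSMulLE (qn g)
    (by
      apply le_antisymm _ (qn_nonneg g 0)
      have := qn_le g 0
      simpa using this)
    (by
      intro x y
      apply le_of_forall_pos_le_add
      intro ε hε
      obtain ⟨t, ht, ht2⟩ := qn_near g hsurj x (ε / 2) (by linarith)
      obtain ⟨t', ht', ht2'⟩ := qn_near g hsurj y (ε / 2) (by linarith)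
      have h := qn_le g (t + t')
      rw [map_add, ht, ht'] at h
      have h2 : ∑ j, |(t + t') j| ≤ ∑ j, |t j| + ∑ j, |t' j| := by
        rw [← Finset.sum_add_distrib]
        exact Finset.sum_le_sum fun j _ => abs_add_le _ _
      linarith)
    (by
      intro c x
      apply le_of_forall_pos_le_add
      intro ε hε
      have hc : 0 < ‖c‖ + 1 := by positivity
      obtain ⟨t, ht, ht2⟩ := qn_near g hsurj x (ε / (‖c‖ + 1)) (by positivity)
      have h := qn_le g (c • t)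
      rw [map_smul, ht] at h
      have h2 : ∑ j, |(c • t) j| = ‖c‖ * ∑ j, |t j| := by
        rw [Finset.mul_sum]
        refine Finset.sum_congr rfl fun j _ => ?_
        simp [abs_mul]
      rw [h2] at h
      have h3 : ‖c‖ * ∑ j, |t j| ≤ ‖c‖ * (qn g x + ε / (‖c‖ + 1)) :=
        mul_le_mul_of_nonneg_left ht2 (norm_nonneg _)
      have h4 : ‖c‖ * (ε / (‖c‖ + 1)) ≤ ε := by
        rw [mul_div_assoc', div_le_iff₀ hc]
        nlinarith [norm_nonneg c]
      linarith)

lemma qs_apply (g : Fin N → Fin n → ℝ)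
    (hsurj : ∀ y : Fin n → ℝ, ∃ t : Fin N → ℝ, ∑ j, t j • g j = y) (y : Fin n → ℝ) :
    qs g hsurj y = qn g y := rfl

/-! ### Consequences of the sparse estimates -/

/-- upper estimate for arbitrary vectors from the upper sparse estimate -/
lemma upper_of_sparse (g : Fin N → Fin n → ℝ) (s : ℕ) (hs : 1 ≤ s) (C : ℝ) (hC : 0 < C)
    (hU : ∀ J : Finset (Fin N), J.card ≤ s → ∀ z : Fin n → ℝ,
      ∑ j ∈ J, ip z (g j) ^ 2 ≤ C * nsq z)
    (w : Fin N → ℝ) :
    nsq (Gm g w) ≤ 2 * C * (nsq w + (∑ j, |w j|) ^ 2 / s) := by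
  classical
  have hs0 : (0 : ℝ) < s := by exact_mod_cast hs
  set z := Gm g w with hz
  set Z := nsq z with hZ
  have hZ0 : 0 ≤ Z := nsq_nonneg _
  have hR0 : 0 ≤ 2 * C * (nsq w + (∑ j, |w j|) ^ 2 / s) := by
    have := nsq_nonneg w
    positivity
  rcases hZ0.eq_or_lt with h0 | hpos
  · rw [← h0]; exact hR0
  set h : Fin N → ℝ := fun j => ip z (g j) with hh
  set τ2 : ℝ := C * Z / s with hτ2
  have hτ0 : 0 < τ2 := by positivity
  set J : Finset (Fin N) := Finset.univ.filter (fun j => τ2 < h j ^ 2) with hJ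
  have hJs : J.card ≤ s := by
    by_contra hcon
    push Not at hcon
    obtain ⟨J', hJ'sub, hJ'card⟩ := Finset.exists_subset_card_eq hcon.le
    have h1 := hU J' hJ'card.le z
    have h2 : ∑ j ∈ J', τ2 < ∑ j ∈ J', h j ^ 2 := by
      apply Finset.sum_lt_sum_of_nonempty
      · rw [← Finset.card_pos, hJ'card]; omega
      · intro j hj
        have := hJ'sub hj
        rw [hJ, Finset.mem_filter] at this
        exact this.2
    rw [Finset.sum_const, hJ'card, nsmul_eq_mul] at h2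
    have h3 : (s : ℝ) * τ2 = C * Z := by rw [hτ2]; field_simp
    rw [h3] at h2
    have : ∑ j ∈ J', h j ^ 2 = ∑ j ∈ J', ip z (g j) ^ 2 := rfl
    linarith
  have hZeq : Z = ∑ j, w j * h j := by
    rw [hZ, ← ip_self z]
    conv_lhs => rw [hz, ip_Gm]
  have hsplit : ∑ j, w j * h j = ∑ j ∈ J, w j * h j + ∑ j ∈ Finset.univ.filter (fun j => ¬ τ2 < h j ^ 2), w j * h j := by
    rw [hJ, Finset.sum_filter_add_sum_filter_not]
  have h1 : (∑ j ∈ J, w j * h j) ^ 2 ≤ nsq w * (C * Z) := by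
    refine (Finset.sum_mul_sq_le_sq_mul_sq J w h).trans ?_
    apply mul_le_mul _ (hU J hJs z) (Finset.sum_nonneg fun _ _ => sq_nonneg _) (nsq_nonneg _)
    exact Finset.sum_le_sum_of_subset_of_nonneg (Finset.subset_univ _) (fun _ _ _ => sq_nonneg _)
  have h2 : (∑ j ∈ Finset.univ.filter (fun j => ¬ τ2 < h j ^ 2), w j * h j) ^ 2 ≤
      τ2 * (∑ j, |w j|) ^ 2 := by
    have h3 : |∑ j ∈ Finset.univ.filter (fun j => ¬ τ2 < h j ^ 2), w j * h j| ≤
        Real.sqrt τ2 * ∑ j, |w j| := by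
      refine (Finset.abs_sum_le_sum_abs _ _).trans ?_
      rw [Finset.mul_sum]
      calc ∑ j ∈ Finset.univ.filter (fun j => ¬ τ2 < h j ^ 2), |w j * h j|
          ≤ ∑ j ∈ Finset.univ.filter (fun j => ¬ τ2 < h j ^ 2), Real.sqrt τ2 * |w j| := by
            refine Finset.sum_le_sum fun j hj => ?_
            rw [Finset.mem_filter, not_lt] at hj
            rw [abs_mul, mul_comm]
            apply mul_le_mul_of_nonneg_right _ (abs_nonneg _)
            exact Real.abs_le_sqrt hj.2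
        _ ≤ ∑ j, Real.sqrt τ2 * |w j| :=
            Finset.sum_le_sum_of_subset_of_nonneg (Finset.subset_univ _)
              (fun _ _ _ => by positivity)
    have h4 := pow_le_pow_left₀ (abs_nonneg _) h3 2
    rw [sq_abs, mul_pow, Real.sq_sqrt hτ0.le] at h4
    exact h4
  have h5 : Z ^ 2 ≤ 2 * (nsq w * (C * Z)) + 2 * (τ2 * (∑ j, |w j|) ^ 2) := by
    have hab := hZeq.trans hsplit
    set a := ∑ j ∈ J, w j * h j with ha
    set b := ∑ j ∈ Finset.univ.filter (fun j => ¬ τ2 < h j ^ 2), w j * h j with hb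
    have h7 : Z ^ 2 = (a + b) ^ 2 := congrArg (fun y => y ^ 2) hab
    nlinarith [sq_nonneg (a - b)]
  have h6 : 2 * (nsq w * (C * Z)) + 2 * (τ2 * (∑ j, |w j|) ^ 2) =
      Z * (2 * C * (nsq w + (∑ j, |w j|) ^ 2 / s)) := by
    rw [hτ2]; field_simp
  rw [h6, sq] at h5
  exact le_of_mul_le_mul_left h5 hpos

/-- the kernel property from the two sparse estimates -/
lemma kernel_of_sparse (g : Fin N → Fin n → ℝ) (s : ℕ) (hs : 1 ≤ s) (C c : ℝ) (hC : 0 < C)
    (hc : 0 < c)
    (hU : ∀ J : Finset (Fin N), J.card ≤ s → ∀ z : Fin n → ℝ,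
      ∑ j ∈ J, ip z (g j) ^ 2 ≤ C * nsq z)
    (hL : ∀ u : Fin N → ℝ, (Finset.univ.filter (fun j => u j ≠ 0)).card ≤ s →
      c * nsq u ≤ nsq (Gm g u))
    (v : Fin N → ℝ) (hv : Gm g v = 0) :
    (s : ℝ) * ∑ j, v j ^ 2 ≤ (4 * C / c + 1) * (∑ j, |v j|) ^ 2 := by
  classical
  have hs0 : (0 : ℝ) < s := by exact_mod_cast hs
  set m := ∑ j, |v j| with hm
  have hm0 : 0 ≤ m := Finset.sum_nonneg fun _ _ => abs_nonneg _
  rcases hm0.eq_or_lt with h0 | hpos
  · have : ∀ j, v j = 0 := by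
      intro j
      have h1 : |v j| ≤ m := Finset.single_le_sum (f := fun j => |v j|)
        (fun _ _ => abs_nonneg _) (Finset.mem_univ j)
      rw [← h0] at h1
      exact abs_eq_zero.mp (le_antisymm h1 (abs_nonneg _))
    rw [← h0]
    simp [this]
  set τ : ℝ := m / s with hτ
  have hτ0 : 0 < τ := by positivity
  set J : Finset (Fin N) := Finset.univ.filter (fun j => τ < |v j|) with hJ
  have hJs : J.card ≤ s := by
    have h1 : (J.card : ℝ) * τ ≤ m := by
      rw [← nsmul_eq_mul, ← Finset.sum_const]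
      calc ∑ j ∈ J, τ ≤ ∑ j ∈ J, |v j| := by
            refine Finset.sum_le_sum fun j hj => ?_
            rw [hJ, Finset.mem_filter] at hj
            exact hj.2.le
        _ ≤ m := Finset.sum_le_sum_of_subset_of_nonneg (Finset.subset_univ _)
            (fun _ _ _ => abs_nonneg _)
    have h2 : (J.card : ℝ) * τ ≤ s * τ := by
      have : (s : ℝ) * τ = m := by rw [hτ]; field_simp
      rw [this]; exact h1
    have h3 := le_of_mul_le_mul_right h2 hτ0
    exact_mod_cast h3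
  set a : Fin N → ℝ := fun j => if j ∈ J then v j else 0 with ha
  set b : Fin N → ℝ := fun j => if j ∈ J then 0 else v j with hb
  have hab : v = a + b := by
    funext j; simp only [ha, hb, Pi.add_apply]; split_ifs <;> simp
  have hGa : Gm g a = - Gm g b := by
    rw [hab, map_add] at hv
    exact eq_neg_of_add_eq_zero_left hv
  have hbm : ∑ j, |b j| ≤ m := by
    refine Finset.sum_le_sum fun j _ => ?_
    simp only [hb]; split_ifs
    · simp
    · exact le_rfl
  have hb0 : 0 ≤ ∑ j, |b j| := Finset.sum_nonneg fun _ _ => abs_nonneg _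
  have hbτ : ∀ j, |b j| ≤ τ := by
    intro j
    simp only [hb]
    split_ifs with h
    · simpa using hτ0.le
    · simp only [hJ, Finset.mem_filter, Finset.mem_univ, true_and, not_lt] at h
      exact h
  have hbsq : nsq b ≤ m ^ 2 / s := by
    have h1 : nsq b ≤ τ * ∑ j, |b j| := by
      rw [nsq, Finset.mul_sum]
      refine Finset.sum_le_sum fun j _ => ?_
      rw [← sq_abs, sq]
      exact mul_le_mul_of_nonneg_right (hbτ j) (abs_nonneg _)
    have h2 : τ * ∑ j, |b j| ≤ τ * m := mul_le_mul_of_nonneg_left hbm hτ0.le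
    have h3 : τ * m = m ^ 2 / s := by rw [hτ]; ring
    linarith
  have hasupp : (Finset.univ.filter (fun j => a j ≠ 0)).card ≤ s := by
    refine (Finset.card_le_card ?_).trans hJs
    intro j hj
    simp only [ha, Finset.mem_filter, Finset.mem_univ, true_and] at hj
    by_contra h
    rw [if_neg h] at hj
    exact hj rfl
  have h1 := hL a hasupp
  have h2 := upper_of_sparse g s hs C hC hU b
  have h3 : nsq (Gm g a) = nsq (Gm g b) := by
    rw [hGa]; simp [nsq]
  have h4 : (∑ j, |b j|) ^ 2 / s ≤ m ^ 2 / s := by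
    apply div_le_div_of_nonneg_right _ hs0.le
    exact pow_le_pow_left₀ hb0 hbm 2
  have h5 : c * nsq a ≤ 4 * C * (m ^ 2 / s) := by
    calc c * nsq a ≤ nsq (Gm g a) := h1
      _ = nsq (Gm g b) := h3
      _ ≤ 2 * C * (nsq b + (∑ j, |b j|) ^ 2 / s) := h2
      _ ≤ 2 * C * (m ^ 2 / s + m ^ 2 / s) := by
          apply mul_le_mul_of_nonneg_left _ (by positivity)
          linarith
      _ = 4 * C * (m ^ 2 / s) := by ring
  have h6 : ∑ j, v j ^ 2 = nsq a + nsq b := by
    rw [nsq, nsq, ← Finset.sum_add_distrib]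
    refine Finset.sum_congr rfl fun j _ => ?_
    simp only [ha, hb]; split_ifs <;> simp
  have h7 : nsq a ≤ (4 * C / c) * (m ^ 2 / s) := by
    rw [div_mul_eq_mul_div, le_div_iff₀ hc]; linarith
  rw [h6]
  calc (s : ℝ) * (nsq a + nsq b) ≤ s * ((4 * C / c) * (m ^ 2 / s) + m ^ 2 / s) := by
        apply mul_le_mul_of_nonneg_left _ hs0.le
        linarith
    _ = (4 * C / c + 1) * m ^ 2 := by field_simp

/-! ### Inradius of the polytope via separation -/

lemma mem_hull_of_dual (g : Fin N → Fin n → ℝ) (c : ℝ) (hc : 0 < c)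
    (hK : ∀ z : Fin n → ℝ, ∃ j, c * nsq z ≤ ip z (g j) ^ 2)
    (x : Fin n → ℝ) (hx : nsq x ≤ c) :
    ∃ t : Fin N → ℝ, Gm g t = x ∧ ∑ j, |t j| ≤ 1 := by
  classical
  set T : Set (Fin N → ℝ) := {t | ∑ j, |t j| ≤ 1} with hT
  have hTclosed : IsClosed T := by
    apply isClosed_le _ continuous_const
    fun_prop
  have hTbdd : Bornology.IsBounded T := by
    apply (Metric.isBounded_closedBall (x := (0 : Fin N → ℝ)) (r := 1)).subset
    intro t ht
    rw [mem_closedBall_zero_iff, pi_norm_le_iff_of_nonneg zero_le_one]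
    intro j
    have h1 : |t j| ≤ ∑ j, |t j| := Finset.single_le_sum (f := fun j => |t j|)
      (fun _ _ => abs_nonneg _) (Finset.mem_univ j)
    exact h1.trans ht
  have hTc : IsCompact T := Metric.isCompact_of_isClosed_isBounded hTclosed hTbdd
  have hcont : Continuous (Gm g) := LinearMap.continuous_of_finiteDimensional _
  have hKc : IsCompact ((Gm g) '' T) := hTc.image hcont
  have hTconv : Convex ℝ T := by
    intro t ht t' ht' a b ha hb hab
    show ∑ j, |(a • t + b • t') j| ≤ 1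
    calc ∑ j, |(a • t + b • t') j| ≤ ∑ j, (a * |t j| + b * |t' j|) := by
          refine Finset.sum_le_sum fun j _ => ?_
          simp only [Pi.add_apply, Pi.smul_apply, smul_eq_mul]
          refine (abs_add_le _ _).trans ?_
          rw [abs_mul, abs_mul, abs_of_nonneg ha, abs_of_nonneg hb]
      _ = a * ∑ j, |t j| + b * ∑ j, |t' j| := by
          rw [Finset.sum_add_distrib, Finset.mul_sum, Finset.mul_sum]
      _ ≤ a * 1 + b * 1 := add_le_add (mul_le_mul_of_nonneg_left ht ha)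
          (mul_le_mul_of_nonneg_left ht' hb)
      _ = 1 := by linarith
  have hKconv : Convex ℝ ((Gm g) '' T) := hTconv.linear_image (Gm g)
  by_contra hcon
  have hxn : x ∉ (Gm g) '' T := by
    rintro ⟨t, ht, rfl⟩
    exact hcon ⟨t, rfl, ht⟩
  obtain ⟨f, u, hfu, hux⟩ := geometric_hahn_banach_closed_point hKconv hKc.isClosed hxn
  set z : Fin n → ℝ := fun r => f (Pi.single r 1) with hz
  have hf : ∀ y, f y = ip z y := by
    intro y
    have h1 : y = ∑ r, y r • (Pi.single r (1 : ℝ) : Fin n → ℝ) := by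
      funext r
      simp [Finset.sum_apply, Pi.single_apply]
    conv_lhs => rw [h1]
    rw [map_sum]
    simp only [map_smul, smul_eq_mul, ip, hz]
    refine Finset.sum_congr rfl fun r _ => mul_comm _ _
  obtain ⟨j, hj⟩ := hK z
  have hGs : ∀ ε : ℝ, Gm g (Pi.single j ε) = ε • g j := by
    intro ε
    rw [Gm_apply]
    rw [Finset.sum_eq_single j]
    · simp
    · intro b _ hb; simp [Pi.single_apply, hb]
    · simp
  have hTs : ∀ ε : ℝ, |ε| ≤ 1 → (Pi.single j ε : Fin N → ℝ) ∈ T := by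
    intro ε hε
    show ∑ i, |(Pi.single j ε : Fin N → ℝ) i| ≤ 1
    rw [Finset.sum_eq_single j]
    · simpa using hε
    · intro b _ hb; simp [Pi.single_apply, hb]
    · simp
  have h1 : ip z (g j) < u := by
    have := hfu _ ⟨_, hTs 1 (by simp), hGs 1⟩
    rwa [one_smul, hf] at this
  have h2 : - ip z (g j) < u := by
    have := hfu _ ⟨_, hTs (-1) (by simp), hGs (-1)⟩
    rw [hf] at this
    simpa [ip] using this
  have hu0 : 0 < u := by linarith
  have h3 : ip z (g j) ^ 2 < u ^ 2 := by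
    apply sq_lt_sq'
    · linarith
    · exact h1
  have h4 : u ^ 2 < (ip z x) ^ 2 := by
    rw [hf] at hux
    exact pow_lt_pow_left₀ hux hu0.le (by norm_num)
  have h5 := ip_sq_le z x
  have h6 : nsq z * nsq x ≤ nsq z * c := mul_le_mul_of_nonneg_left hx (nsq_nonneg z)
  nlinarith

lemma qn_sq_le_of_dual (g : Fin N → Fin n → ℝ) (c : ℝ) (hc : 0 < c)
    (hK : ∀ z : Fin n → ℝ, ∃ j, c * nsq z ≤ ip z (g j) ^ 2)
    (x : Fin n → ℝ) : (∃ t : Fin N → ℝ, Gm g t = x) ∧ c * qn g x ^ 2 ≤ nsq x := by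
  rcases (nsq_nonneg x).eq_or_lt with h0 | hpos
  · have hx0 : x = 0 := by
      funext r
      have h1 : x r ^ 2 ≤ nsq x := Finset.single_le_sum (f := fun r => x r ^ 2)
        (fun _ _ => sq_nonneg _) (Finset.mem_univ r)
      rw [← h0] at h1
      exact pow_eq_zero_iff (n := 2) (by norm_num) |>.mp (le_antisymm h1 (sq_nonneg _))
    subst hx0
    refine ⟨⟨0, by simp⟩, ?_⟩
    have h1 := qn_le g 0
    have h2 := qn_nonneg g 0
    simp only [map_zero, Pi.zero_apply, abs_zero, Finset.sum_const_zero] at h1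
    have h3 : qn g 0 = 0 := le_antisymm h1 h2
    rw [h3, ← h0]; simp
  · set lam : ℝ := Real.sqrt (c / nsq x) with hlam
    have hlam0 : 0 < lam := Real.sqrt_pos.mpr (by positivity)
    have hlam2 : lam ^ 2 = c / nsq x := Real.sq_sqrt (by positivity)
    have h1 : nsq (lam • x) ≤ c := by
      have : nsq (lam • x) = lam ^ 2 * nsq x := by
        simp [nsq, Finset.mul_sum, mul_pow]
      rw [this, hlam2]; field_simp; exact le_rfl
    obtain ⟨t, ht, ht1⟩ := mem_hull_of_dual g c hc hK (lam • x) h1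
    have h2 : Gm g (lam⁻¹ • t) = x := by
      rw [map_smul, ht, smul_smul, inv_mul_cancel₀ hlam0.ne', one_smul]
    refine ⟨⟨_, h2⟩, ?_⟩
    have h3 := qn_le g (lam⁻¹ • t)
    rw [h2] at h3
    have h4 : ∑ j, |(lam⁻¹ • t) j| ≤ lam⁻¹ := by
      calc ∑ j, |(lam⁻¹ • t) j| = lam⁻¹ * ∑ j, |t j| := by
            rw [Finset.mul_sum]
            refine Finset.sum_congr rfl fun j _ => ?_
            rw [Pi.smul_apply, smul_eq_mul, abs_mul, abs_of_pos (inv_pos.mpr hlam0)]
        _ ≤ lam⁻¹ * 1 := mul_le_mul_of_nonneg_left ht1 (inv_pos.mpr hlam0).le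
        _ = lam⁻¹ := mul_one _
    have h5 : qn g x ^ 2 ≤ (lam⁻¹) ^ 2 := pow_le_pow_left₀ (qn_nonneg g x) (h3.trans h4) 2
    rw [inv_pow, hlam2, inv_div] at h5
    calc c * qn g x ^ 2 ≤ c * (nsq x / c) := mul_le_mul_of_nonneg_left h5 hc.le
      _ = nsq x := by field_simp

/-! ### Bessel for vector valued functions -/

lemma bessel_vec {ι : Type*} [Fintype ι] [DecidableEq ι] {κ : Type*} [Fintype κ]
    (u : (ι → Bool) → κ → ℝ) :
    ∑ i, nsq (avg (fun σ => sg (σ i) • u σ)) ≤ avg (fun σ => nsq (u σ)) := by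
  simp only [nsq]
  rw [Finset.sum_comm, avg_sum]
  refine Finset.sum_le_sum fun r _ => ?_
  have h1 := bessel (fun σ => u σ r)
  refine le_trans (le_of_eq ?_) h1
  refine Finset.sum_congr rfl fun i _ => ?_
  rw [avg_apply]
  congr 2; funext σ; simp [mul_comm]

end Pool.Agent.Helper56.Cube
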