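import Pool.Agent.Helper56.Dich

set_option autoImplicit false
set_option linter.unusedSectionVars false

namespace Pool.Agent.Helper56.Cube

open Finset

variable {ι : Type*} [Fintype ι] [DecidableEq ι]

lemma avg_apply {κ : Type*} (u : (ι → Bool) → κ → ℝ) (j : κ) :
    avg u j = avg (fun σ => u σ j) := by
  simp [avg, Finset.sum_apply]

lemma avg_sg_smul_sum {X : Type*} [AddCommGroup X] [Module ℝ X] (x : ι → X) (i : ι) :
    avg (fun σ : ι → Bool => sg (σ i) • ∑ j, sg (σ j) • x j) = x i := by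
  have h1 : (fun σ : ι → Bool => sg (σ i) • ∑ j, sg (σ j) • x j)
      = fun σ => ∑ j, (sg (σ i) * sg (σ j)) • x j := by
    funext σ
    rw [Finset.smul_sum]
    simp only [smul_smul]
  rw [h1, avg_sum]
  have h2 : ∀ j, avg (fun σ : ι → Bool => (sg (σ i) * sg (σ j)) • x j)
      = (if i = j then (1 : ℝ) else 0) • x j := by
    intro j
    rw [← avg_sg_mul_sg i j]
    simp only [avg, ← Finset.sum_smul, smul_smul, smul_eq_mul]
  simp_rw [h2]
  simp

lemma D_sum {X : Type*} [AddCommGroup X] [Module ℝ X] (x : ι → X) (i : ι) (σ : ι → Bool) :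
    D i (fun σ : ι → Bool => ∑ j, sg (σ j) • x j) σ = sg (σ i) • x i := by
  simp only [D]
  rw [← Finset.sum_sub_distrib]
  have : ∀ j, sg (σ j) • x j - sg (flip i σ j) • x j = if j = i then (2 * sg (σ i)) • x i else 0 := by
    intro j
    split_ifs with h
    · subst h
      rw [flip_same, sg_not, ← sub_smul]; congr 1; ring
    · rw [flip_ne h]; simp
  simp_rw [this]
  simp [smul_smul]

section core

variable {κ : Type*} [Fintype κ] [DecidableEq κ] {X : Type*} [AddCommGroup X] [Module ℝ X]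

/-- The deterministic core, with a fixed choice of representing vectors. -/
theorem core_aux (p : Seminorm ℝ X) (G : (κ → ℝ) →ₗ[ℝ] X) (s A Q : ℝ) (hs : 0 < s)
    (hA : 0 ≤ A) (hQ : 0 ≤ Q)
    (hq1 : ∀ v, p (G v) ≤ ∑ j, |v j|)
    (hK : ∀ v, G v = 0 → s * ∑ j, v j ^ 2 ≤ A * (∑ j, |v j|) ^ 2)
    (hH : ∀ u : (ι → Bool) → κ → ℝ,
      ∑ i, p (G (avg (fun σ => sg (σ i) • u σ))) ^ 2 ≤
        Q * avg (fun σ => s * ∑ j, u σ j ^ 2 + (∑ j, |u σ j|) ^ 2))
    (d : ℕ) (hd : 1 ≤ d) (hk : Fintype.card ι = 3200 * d)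
    (hdQ : 8 * Q * (25600 * A + 1) ≤ (Fintype.card ι : ℝ))
    (x : ι → X) (a : (ι → Bool) → κ → ℝ)
    (ha : ∀ σ, G (a σ) = ∑ i, sg (σ i) • x i) :
    ∑ i, p (x i) ^ 2 ≤ (3 / 4) * (Fintype.card ι : ℝ) * avg (fun σ => (∑ j, |a σ j|) ^ 2) := by
  classical
  set k : ℝ := (Fintype.card ι : ℝ) with hkk
  set M : ℝ := avg (fun σ => (∑ j, |a σ j|) ^ 2) with hM
  have hM0 : 0 ≤ M := avg_nonneg fun σ => sq_nonneg _
  have hk0 : 0 < k := by
    rw [hkk, hk]; push_cast
    have : (1 : ℝ) ≤ d := by exact_mod_cast hd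
    linarith
  set α : ι → κ → ℝ := fun i => avg (fun σ => sg (σ i) • a σ) with hα
  have hαj : ∀ i j, α i j = avg (fun σ => a σ j * sg (σ i)) := by
    intro i j
    simp only [hα]
    rw [avg_apply]
    congr 1; funext σ; simp [mul_comm]
  have hGα : ∀ i, G (α i) = x i := by
    intro i
    simp only [hα]
    rw [← avg_map G]
    have : (fun σ => G (sg (σ i) • a σ)) = fun σ : ι → Bool => sg (σ i) • ∑ j, sg (σ j) • x j := by
      funext σ; rw [map_smul, ha]
    rw [this, avg_sg_smul_sum]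
  -- mean absolute values
  set m : κ → ℝ := fun j => avg (fun σ => |a σ j|) with hm
  have hm0 : ∀ j, 0 ≤ m j := fun j => avg_nonneg fun σ => abs_nonneg _
  have hmsum : ∑ j, m j = avg (fun σ => ∑ j, |a σ j|) := by
    rw [avg_sum]
  have hmM : (∑ j, m j) ^ 2 ≤ M := by
    rw [hmsum, hM]; exact avg_sq_le _
  have hαm : ∀ i j, |α i j| ≤ m j := by
    intro i j
    rw [hαj]
    refine (abs_avg_le _).trans (avg_mono fun σ => ?_)
    rw [abs_mul, abs_sg, mul_one]
  -- the flat and the peaky coordinates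
  set B : Finset κ := Finset.univ.filter (fun j => avg (fun σ => a σ j ^ 2) ≤
      Real.exp (k / 128) * (avg (fun σ => |a σ j|)) ^ 2) with hB
  set uB : (ι → Bool) → κ → ℝ := fun σ j => if j ∈ B then a σ j else 0 with huB
  set uG : (ι → Bool) → κ → ℝ := fun σ j => if j ∈ B then 0 else a σ j with huG
  set αB : ι → κ → ℝ := fun i => avg (fun σ => sg (σ i) • uB σ) with hαB
  set αG : ι → κ → ℝ := fun i => avg (fun σ => sg (σ i) • uG σ) with hαG
  have hsplit : ∀ i, α i = αB i + αG i := by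
    intro i
    simp only [hα, hαB, hαG]
    rw [← avg_add]
    congr 1; funext σ
    rw [← smul_add]
    congr 1; funext j
    simp only [huB, huG, Pi.add_apply]
    split_ifs <;> simp
  have hαBj : ∀ i j, αB i j = if j ∈ B then α i j else 0 := by
    intro i j
    rw [hαj]
    simp only [hαB]
    rw [avg_apply]
    simp only [huB, Pi.smul_apply, smul_eq_mul]
    split_ifs with h
    · congr 1; funext σ; ring
    · simp [avg_const]
  have hpx : ∀ i, p (x i) ^ 2 ≤ 2 * (∑ j, |αB i j|) ^ 2 + 2 * p (G (αG i)) ^ 2 := by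
    intro i
    have h1 : p (x i) ≤ ∑ j, |αB i j| + p (G (αG i)) := by
      rw [← hGα i, hsplit i, map_add]
      refine (map_add_le_add p _ _).trans ?_
      exact add_le_add (hq1 _) le_rfl
    have h0 : 0 ≤ p (x i) := apply_nonneg p _
    have h2 := pow_le_pow_left₀ h0 h1 2
    nlinarith [sq_nonneg (∑ j, |αB i j| - p (G (αG i)))]
  -- flat coordinates
  have hflat : ∑ i, (∑ j, |αB i j|) ^ 2 ≤ (k / 4) * M := by
    have h1 : ∀ i, (∑ j, |αB i j|) ^ 2 ≤ (∑ j, m j) * ∑ j, |αB i j| ^ 2 / m j := by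
      intro i
      apply Finset.sum_sq_le_sum_mul_sum_of_sq_le_mul
      · intro j _; exact hm0 j
      · intro j _; exact div_nonneg (sq_nonneg _) (hm0 j)
      · intro j _
        rcases (hm0 j).eq_or_lt with h | h
        · have h2 : |αB i j| = 0 := by
            rw [hαBj]
            split_ifs
            · have := hαm i j
              rw [← h] at this
              exact le_antisymm this (abs_nonneg _)
            · simp
          rw [h2, ← h]; simp
        · apply le_of_eq; field_simp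
    have h2 : ∀ j, ∑ i, |αB i j| ^ 2 / m j ≤ (k / 4) * m j := by
      intro j
      rw [← Finset.sum_div]
      rcases (hm0 j).eq_or_lt with h | h
      · rw [← h]; simp
      · rw [div_le_iff₀ h]
        by_cases hj : j ∈ B
        · have h3 : ∑ i, |αB i j| ^ 2 = ∑ i, (avg (fun σ => a σ j * sg (σ i))) ^ 2 := by
            refine Finset.sum_congr rfl fun i _ => ?_
            rw [hαBj, if_pos hj, sq_abs, hαj]
          rw [h3]
          have hj' : avg (fun σ => a σ j ^ 2) ≤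
              Real.exp (k / 128) * (avg (fun σ => |a σ j|)) ^ 2 := by
            simpa [hB] using hj
          have h128 : 128 ≤ Fintype.card ι := by rw [hk]; omega
          have h4 := flat_case (fun σ => a σ j) h128 hj'
          refine h4.trans (le_of_eq ?_)
          simp only [hm, ← hkk]; ring
        · have h3 : ∑ i, |αB i j| ^ 2 = 0 := by
            refine Finset.sum_eq_zero fun i _ => ?_
            rw [hαBj, if_neg hj]; simp
          rw [h3]; positivity
    calc ∑ i, (∑ j, |αB i j|) ^ 2 ≤ ∑ i, (∑ j, m j) * ∑ j, |αB i j| ^ 2 / m j :=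
          Finset.sum_le_sum fun i _ => h1 i
      _ = (∑ j, m j) * ∑ j, ∑ i, |αB i j| ^ 2 / m j := by
          rw [← Finset.mul_sum, Finset.sum_comm]
      _ ≤ (∑ j, m j) * ∑ j, (k / 4) * m j :=
          mul_le_mul_of_nonneg_left (Finset.sum_le_sum fun j _ => h2 j)
            (Finset.sum_nonneg fun j _ => hm0 j)
      _ = (k / 4) * (∑ j, m j) ^ 2 := by rw [← Finset.mul_sum]; ring
      _ ≤ (k / 4) * M := mul_le_mul_of_nonneg_left hmM (by positivity)
  -- kernel vectors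
  have hv : ∀ i σ, s * ∑ j, (D i (fun τ => a τ j) σ - α i j * sg (σ i)) ^ 2 ≤
      A * ((∑ j, |a σ j|) ^ 2 + (∑ j, |a (flip i σ) j|) ^ 2 + 2 * M) := by
    intro i σ
    set v : κ → ℝ := D i a σ - sg (σ i) • α i with hvdef
    have hGv : G v = 0 := by
      rw [hvdef, map_sub, map_smul, hGα]
      have h1 : G (D i a σ) = D i (fun τ : ι → Bool => ∑ j, sg (τ j) • x j) σ := by
        simp only [D, map_smul, map_sub, ha]
      rw [h1, D_sum, sub_self]
    have hvj : ∀ j, v j = D i (fun τ => a τ j) σ - α i j * sg (σ i) := by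
      intro j
      simp only [hvdef, D, Pi.sub_apply, Pi.smul_apply, smul_eq_mul]
      ring
    have h2 := hK v hGv
    have h3 : ∑ j, |v j| ≤ (1 / 2) * (∑ j, |a σ j| + ∑ j, |a (flip i σ) j|) + ∑ j, m j := by
      rw [← Finset.sum_add_distrib, Finset.mul_sum, ← Finset.sum_add_distrib]
      refine Finset.sum_le_sum fun j _ => ?_
      rw [hvj]
      have e1 : |D i (fun τ => a τ j) σ - α i j * sg (σ i)| ≤
          |D i (fun τ => a τ j) σ| + |α i j * sg (σ i)| := abs_sub _ _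
      have e2 : |α i j * sg (σ i)| ≤ m j := by
        rw [abs_mul, abs_sg, mul_one]; exact hαm i j
      have e3 : |D i (fun τ => a τ j) σ| ≤ (1 / 2) * (|a σ j| + |a (flip i σ) j|) := by
        simp only [D, smul_eq_mul]
        rw [abs_mul, abs_of_pos (by norm_num : (0:ℝ) < 1 / 2)]
        exact mul_le_mul_of_nonneg_left (abs_sub _ _) (by norm_num)
      linarith
    have h4 : (∑ j, |v j|) ^ 2 ≤
        (∑ j, |a σ j|) ^ 2 + (∑ j, |a (flip i σ) j|) ^ 2 + 2 * M := by
      have h0 : 0 ≤ ∑ j, |v j| := Finset.sum_nonneg fun j _ => abs_nonneg _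
      have h5 := pow_le_pow_left₀ h0 h3 2
      set P := ∑ j, |a σ j|
      set P' := ∑ j, |a (flip i σ) j|
      set R := ∑ j, m j
      nlinarith [sq_nonneg (P - P'), sq_nonneg ((1/2) * (P + P') - R)]
    calc s * ∑ j, (D i (fun τ => a τ j) σ - α i j * sg (σ i)) ^ 2
        = s * ∑ j, v j ^ 2 := by simp_rw [hvj]
      _ ≤ A * (∑ j, |v j|) ^ 2 := h2
      _ ≤ _ := mul_le_mul_of_nonneg_left h4 hA
  have hinf : s * ∑ i, ∑ j, avg (fun σ => (D i (fun τ => a τ j) σ - α i j * sg (σ i)) ^ 2)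
      ≤ 4 * A * k * M := by
    rw [Finset.mul_sum]
    have h1 : ∀ i, s * ∑ j, avg (fun σ => (D i (fun τ => a τ j) σ - α i j * sg (σ i)) ^ 2)
        ≤ 4 * A * M := by
      intro i
      rw [← avg_sum, ← avg_mul_left]
      refine (avg_mono (hv i)).trans ?_
      rw [avg_mul_left, avg_add, avg_add, avg_const]
      have e : avg (fun σ => (∑ j, |a (flip i σ) j|) ^ 2) = M :=
        avg_equiv (flip i) (fun σ => (∑ j, |a σ j|) ^ 2)
      rw [e, ← hM]
      linarith
    calc ∑ i, s * ∑ j, avg (fun σ => (D i (fun τ => a τ j) σ - α i j * sg (σ i)) ^ 2)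
        ≤ ∑ i : ι, 4 * A * M := Finset.sum_le_sum fun i _ => h1 i
      _ = 4 * A * k * M := by
          rw [Finset.sum_const, Finset.card_univ, nsmul_eq_mul, ← hkk]; ring
  -- energy of the peaky coordinates
  have hpeak : s * ∑ j ∈ Bᶜ, avg (fun σ => a σ j ^ 2) ≤ 25600 * A * M := by
    have hd0 : (0 : ℝ) < d := by exact_mod_cast hd
    have h1 : ∀ j ∈ Bᶜ, ((d : ℝ) / 2) * avg (fun σ => a σ j ^ 2) ≤
        ∑ i, avg (fun σ => (D i (fun τ => a τ j) σ - α i j * sg (σ i)) ^ 2) := by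
      intro j hj
      have hj' : Real.exp (k / 128) * (avg (fun σ => |a σ j|)) ^ 2 < avg (fun σ => a σ j ^ 2) := by
        have := Finset.mem_compl.mp hj
        simp only [hB, Finset.mem_filter, Finset.mem_univ, true_and, not_le] at this
        exact this
      have h2 := peaky_case (fun σ => a σ j) d hd hk hj'
      simp_rw [← hαj] at h2
      exact h2
    have h2 : ((d : ℝ) / 2) * ∑ j ∈ Bᶜ, avg (fun σ => a σ j ^ 2) ≤
        ∑ i, ∑ j, avg (fun σ => (D i (fun τ => a τ j) σ - α i j * sg (σ i)) ^ 2) := by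
      rw [Finset.mul_sum, Finset.sum_comm]
      calc ∑ j ∈ Bᶜ, ((d : ℝ) / 2) * avg (fun σ => a σ j ^ 2)
          ≤ ∑ j ∈ Bᶜ, ∑ i, avg (fun σ => (D i (fun τ => a τ j) σ - α i j * sg (σ i)) ^ 2) :=
            Finset.sum_le_sum h1
        _ ≤ _ := Finset.sum_le_sum_of_subset_of_nonneg (Finset.subset_univ _)
            (fun j _ _ => Finset.sum_nonneg fun i _ => avg_nonneg fun σ => sq_nonneg _)
    have h3 := mul_le_mul_of_nonneg_left h2 hs.le
    have h4 : s * (((d : ℝ) / 2) * ∑ j ∈ Bᶜ, avg (fun σ => a σ j ^ 2)) ≤ 4 * A * k * M :=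
      h3.trans hinf
    have h5 : 4 * A * k * M = ((d : ℝ) / 2) * (25600 * A * M) := by
      rw [hkk, hk]; push_cast; ring
    rw [h5] at h4
    have h6 : ((d : ℝ) / 2) * (s * ∑ j ∈ Bᶜ, avg (fun σ => a σ j ^ 2)) ≤
        ((d : ℝ) / 2) * (25600 * A * M) := by
      calc _ = s * (((d : ℝ) / 2) * ∑ j ∈ Bᶜ, avg (fun σ => a σ j ^ 2)) := by ring
        _ ≤ _ := h4
    exact le_of_mul_le_mul_left h6 (by positivity)
  have hgood : ∑ i, p (G (αG i)) ^ 2 ≤ Q * (25600 * A + 1) * M := by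
    refine (hH uG).trans ?_
    rw [mul_assoc]
    apply mul_le_mul_of_nonneg_left _ hQ
    rw [avg_add, avg_mul_left, avg_sum]
    have e1 : ∑ j, avg (fun σ => uG σ j ^ 2) = ∑ j ∈ Bᶜ, avg (fun σ => a σ j ^ 2) := by
      rw [← Finset.sum_filter_add_sum_filter_not Finset.univ (fun j => j ∈ B)]
      have z1 : ∑ j ∈ Finset.univ.filter (fun j => j ∈ B), avg (fun σ => uG σ j ^ 2) = 0 := by
        refine Finset.sum_eq_zero fun j hj => ?_
        rw [Finset.mem_filter] at hj
        simp only [huG, if_pos hj.2]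
        simp [avg_const]
      rw [z1, zero_add]
      have z2 : Finset.univ.filter (fun j => ¬ j ∈ B) = Bᶜ := by
        ext j; simp
      rw [z2]
      refine Finset.sum_congr rfl fun j hj => ?_
      simp only [huG, if_neg (Finset.mem_compl.mp hj)]
    have e2 : avg (fun σ => (∑ j, |uG σ j|) ^ 2) ≤ M := by
      refine avg_mono fun σ => ?_
      apply pow_le_pow_left₀ (Finset.sum_nonneg fun j _ => abs_nonneg _)
      refine Finset.sum_le_sum fun j _ => ?_
      simp only [huG]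
      split_ifs
      · simp
      · exact le_rfl
    rw [e1]
    linarith
  calc ∑ i, p (x i) ^ 2 ≤ ∑ i, (2 * (∑ j, |αB i j|) ^ 2 + 2 * p (G (αG i)) ^ 2) :=
        Finset.sum_le_sum fun i _ => hpx i
    _ = 2 * ∑ i, (∑ j, |αB i j|) ^ 2 + 2 * ∑ i, p (G (αG i)) ^ 2 := by
        rw [Finset.sum_add_distrib, ← Finset.mul_sum, ← Finset.mul_sum]
    _ ≤ 2 * ((k / 4) * M) + 2 * (Q * (25600 * A + 1) * M) := by linarith
    _ ≤ (3 / 4) * k * M := by
        have := mul_le_mul_of_nonneg_right hdQ hM0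
        nlinarith

/-- The deterministic core. -/
theorem core (p : Seminorm ℝ X) (G : (κ → ℝ) →ₗ[ℝ] X) (s A Q : ℝ) (hs : 0 < s)
    (hA : 0 ≤ A) (hQ : 0 ≤ Q)
    (hq1 : ∀ v, p (G v) ≤ ∑ j, |v j|)
    (hq2 : ∀ y, ∀ δ : ℝ, 0 < δ → ∃ t, G t = y ∧ ∑ j, |t j| ≤ p y + δ)
    (hK : ∀ v, G v = 0 → s * ∑ j, v j ^ 2 ≤ A * (∑ j, |v j|) ^ 2)
    (hH : ∀ u : (ι → Bool) → κ → ℝ,
      ∑ i, p (G (avg (fun σ => sg (σ i) • u σ))) ^ 2 ≤
        Q * avg (fun σ => s * ∑ j, u σ j ^ 2 + (∑ j, |u σ j|) ^ 2))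
    (d : ℕ) (hd : 1 ≤ d) (hk : Fintype.card ι = 3200 * d)
    (hdQ : 8 * Q * (25600 * A + 1) ≤ (Fintype.card ι : ℝ))
    (x : ι → X) :
    ∑ i, p (x i) ^ 2 ≤
      (3 / 4) * (Fintype.card ι : ℝ) * avg (fun σ => p (∑ i, sg (σ i) • x i) ^ 2) := by
  set k : ℝ := (Fintype.card ι : ℝ) with hkk
  set P : (ι → Bool) → ℝ := fun σ => p (∑ i, sg (σ i) • x i) with hP
  have hP0 : ∀ σ, 0 ≤ P σ := fun σ => apply_nonneg p _
  have key : ∀ δ : ℝ, 0 < δ → ∑ i, p (x i) ^ 2 ≤
      (3 / 4) * k * (avg (fun σ => P σ ^ 2) + 2 * δ * avg P + δ ^ 2) := by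
    intro δ hδ
    have hch : ∀ σ : ι → Bool, ∃ t, G t = ∑ i, sg (σ i) • x i ∧ ∑ j, |t j| ≤ P σ + δ :=
      fun σ => hq2 _ δ hδ
    choose a ha using hch
    have h1 := core_aux p G s A Q hs hA hQ hq1 hK hH d hd hk hdQ x a (fun σ => (ha σ).1)
    refine h1.trans ?_
    apply mul_le_mul_of_nonneg_left _ (by positivity)
    have h2 : avg (fun σ => (∑ j, |a σ j|) ^ 2) ≤ avg (fun σ => (P σ ^ 2 + (2 * δ) * P σ) + δ ^ 2) := by
      refine avg_mono fun σ => ?_
      have h3 := (ha σ).2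
      have h0 : 0 ≤ ∑ j, |a σ j| := Finset.sum_nonneg fun j _ => abs_nonneg _
      have h4 := pow_le_pow_left₀ h0 h3 2
      nlinarith
    refine h2.trans (le_of_eq ?_)
    rw [avg_add, avg_add, avg_mul_left, avg_const]
  by_contra hcon
  push Not at hcon
  set S := ∑ i, p (x i) ^ 2
  set E2 := avg (fun σ => P σ ^ 2)
  set E1 := avg P
  have hE1 : 0 ≤ E1 := avg_nonneg hP0
  have hk0 : 0 ≤ k := Nat.cast_nonneg _
  -- choose small delta
  have hgap : 0 < S - (3 / 4) * k * E2 := by linarith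
  set c : ℝ := (3 / 4) * k * (2 * E1 + 1) with hc
  have hc0 : 0 ≤ c := by positivity
  set δ : ℝ := min 1 ((S - (3 / 4) * k * E2) / (2 * (c + 1))) with hδ
  have hδ0 : 0 < δ := by
    rw [hδ]; exact lt_min one_pos (by positivity)
  have hδ1 : δ ≤ 1 := min_le_left _ _
  have hδ2 : δ * (2 * (c + 1)) ≤ S - (3 / 4) * k * E2 := by
    have : δ ≤ (S - (3 / 4) * k * E2) / (2 * (c + 1)) := min_le_right _ _
    rwa [le_div_iff₀ (by positivity)] at this
  have h1 := key δ hδ0
  have h2 : (3 / 4) * k * (E2 + 2 * δ * E1 + δ ^ 2) ≤ (3 / 4) * k * E2 + δ * c := by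
    rw [hc]
    have : δ ^ 2 ≤ δ := by nlinarith
    have h3 : (3 / 4) * k * (E2 + 2 * δ * E1 + δ ^ 2) ≤ (3 / 4) * k * (E2 + 2 * δ * E1 + δ) := by
      apply mul_le_mul_of_nonneg_left _ (by positivity)
      linarith
    refine h3.trans (le_of_eq ?_)
    ring
  nlinarith

end core

end Pool.Agent.Helper56.Cube
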