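import Pool.Agent.Helper56.Core

set_option autoImplicit false
set_option linter.unusedSectionVars false

namespace Pool.Agent.Helper56.Cube

open Finset

variable {ι : Type*} [Fintype ι] [DecidableEq ι]
variable {X : Type*} [AddCommGroup X] [Module ℝ X]

/-! ### Kahane-Khinchine with constant sqrt 2 (Latala-Oleszkiewicz) -/

lemma avg_mul_D (f : (ι → Bool) → ℝ) (i : ι) :
    avg (fun σ => f σ * D i f σ) = avg (fun σ => (D i f σ) ^ 2) := by
  have h1 : avg (fun σ => f (flip i σ) ^ 2) = avg (fun σ => f σ ^ 2) :=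
    avg_equiv (flip i) (fun σ => f σ ^ 2)
  have h2 : (fun σ => f σ * D i f σ) =
      fun σ => (1 / 2) * f σ ^ 2 - (1 / 2) * (f σ * f (flip i σ)) := by
    funext σ; simp only [D, smul_eq_mul]; ring
  have h3 : (fun σ => (D i f σ) ^ 2) =
      fun σ => (1 / 4) * f σ ^ 2 + (1 / 4) * f (flip i σ) ^ 2 - (1 / 2) * (f σ * f (flip i σ)) := by
    funext σ; simp only [D, smul_eq_mul]; ring
  rw [h2, h3, avg_sub, avg_sub, avg_add, avg_mul_left, avg_mul_left, avg_mul_left, avg_mul_left, h1]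
  ring

/-- flipping all coordinates -/
def flipAll : (ι → Bool) ≃ (ι → Bool) where
  toFun σ := fun i => !σ i
  invFun σ := fun i => !σ i
  left_inv σ := by funext i; simp
  right_inv σ := by funext i; simp

lemma w_flipAll (S : Finset ι) (σ : ι → Bool) : w S (flipAll σ) = (-1) ^ S.card * w S σ := by
  simp only [w, flipAll, Equiv.coe_fn_mk, sg_not]
  rw [Finset.prod_neg]

lemma fc_odd (f : (ι → Bool) → ℝ) (hf : ∀ σ, f (flipAll σ) = f σ) (S : Finset ι)
    (hS : Odd S.card) : fc f S = 0 := by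
  have h := avg_equiv flipAll (fun σ => f σ * w S σ)
  have h2 : (fun σ => f (flipAll σ) * w S (flipAll σ)) = fun σ => (-1) * (f σ * w S σ) := by
    funext σ; rw [hf, w_flipAll, hS.neg_one_pow]; ring
  rw [h2, avg_mul_left] at h
  have : fc f S = avg (fun σ => f σ * w S σ) := rfl
  linarith

lemma poincare_even (f : (ι → Bool) → ℝ) (hf : ∀ σ, f (flipAll σ) = f σ) :
    2 * (avg (fun σ => f σ ^ 2) - (avg f) ^ 2) ≤ ∑ i, avg (fun σ => (D i f σ) ^ 2) := by
  rw [sum_avg_D_sq, ← parseval]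
  have h0 : (avg f) ^ 2 = ∑ S : Finset ι, if S = ∅ then fc f S ^ 2 else 0 := by
    rw [Finset.sum_ite_eq' Finset.univ (∅ : Finset ι)]
    simp [fc, w]
  rw [h0, ← Finset.sum_sub_distrib, Finset.mul_sum]
  refine Finset.sum_le_sum fun S _ => ?_
  split_ifs with h
  · subst h; simp
  · rcases Nat.even_or_odd S.card with he | ho
    · have h1 : S.card ≠ 0 := by
        intro hc; exact h (Finset.card_eq_zero.mp hc)
      have h2 : 2 ≤ S.card := by
        rcases he with ⟨r, hr⟩; omega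
      have h3 : (2 : ℝ) ≤ (S.card : ℝ) := by exact_mod_cast h2
      have := mul_le_mul_of_nonneg_right h3 (sq_nonneg (fc f S))
      linarith
    · rw [fc_odd f hf S ho]; simp

lemma sum_smul_flip (x : ι → X) (i : ι) (σ : ι → Bool) :
    ∑ j, sg (flip i σ j) • x j = ∑ j, sg (σ j) • x j - (2 * sg (σ i)) • x i := by
  have h := D_sum x i σ
  simp only [D] at h
  have h2 : ∑ j, sg (σ j) • x j - ∑ j, sg (flip i σ j) • x j = (2 * sg (σ i)) • x i := by
    have := congrArg (fun v => (2 : ℝ) • v) h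
    simpa [smul_smul] using this
  rw [← h2]; abel

lemma kahane (p : Seminorm ℝ X) (x : ι → X) :
    avg (fun σ => p (∑ i, sg (σ i) • x i) ^ 2) ≤
      2 * (avg (fun σ => p (∑ i, sg (σ i) • x i))) ^ 2 := by
  set f : (ι → Bool) → ℝ := fun σ => p (∑ i, sg (σ i) • x i) with hf
  have hf0 : ∀ σ, 0 ≤ f σ := fun σ => apply_nonneg p _
  have heven : ∀ σ, f (flipAll σ) = f σ := by
    intro σ
    simp only [hf]
    have : ∑ i, sg (flipAll σ i) • x i = - ∑ i, sg (σ i) • x i := by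
      rw [← Finset.sum_neg_distrib]
      refine Finset.sum_congr rfl fun i _ => ?_
      simp [flipAll, sg_not]
    rw [this, map_neg_eq_map]
  have hL : ∀ σ, ∑ i, D i f σ ≤ f σ := by
    intro σ
    simp only [D, smul_eq_mul]
    rw [← Finset.mul_sum, Finset.sum_sub_distrib, Finset.sum_const, Finset.card_univ, nsmul_eq_mul]
    set k : ℝ := (Fintype.card ι : ℝ) with hk
    have h1 : (k - 2) * f σ ≤ ∑ i, f (flip i σ) := by
      have h2 : ∑ i, ∑ j, sg (flip i σ j) • x j = (k - 2) • ∑ j, sg (σ j) • x j := by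
        simp_rw [sum_smul_flip]
        rw [Finset.sum_sub_distrib, Finset.sum_const, Finset.card_univ, sub_smul,
          ← Nat.cast_smul_eq_nsmul ℝ, ← hk]
        congr 1
        rw [Finset.smul_sum]
        simp [smul_smul]
      have h3 : p ((k - 2) • ∑ j, sg (σ j) • x j) ≤ ∑ i, f (flip i σ) := by
        rw [← h2]
        exact Finset.le_sum_of_subadditive p (map_zero p).le (map_add_le_add p) _ _
      rw [map_smul_eq_mul, Real.norm_eq_abs] at h3
      have h4 : (k - 2) * f σ ≤ |k - 2| * f σ :=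
        mul_le_mul_of_nonneg_right (le_abs_self _) (hf0 σ)
      exact h4.trans h3
    linarith
  have h1 : ∑ i, avg (fun σ => (D i f σ) ^ 2) ≤ avg (fun σ => f σ ^ 2) := by
    simp_rw [← avg_mul_D]
    rw [← avg_sum]
    refine avg_mono fun σ => ?_
    rw [← Finset.mul_sum, sq]
    exact mul_le_mul_of_nonneg_left (hL σ) (hf0 σ)
  have h2 := poincare_even f heven
  linarith

/-! ### Iteration -/

/-- partial second moments over the full cube -/
noncomputable def EE (p : Seminorm ℝ X) (x : ι → X) (A : Finset ι) : ℝ :=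
  avg (fun σ => p (∑ i ∈ A, sg (σ i) • x i) ^ 2)

lemma EE_nonneg (p : Seminorm ℝ X) (x : ι → X) (A : Finset ι) : 0 ≤ EE p x A :=
  avg_nonneg fun σ => sq_nonneg _

lemma EE_singleton (p : Seminorm ℝ X) (x : ι → X) (i : ι) : EE p x {i} = p (x i) ^ 2 := by
  simp only [EE, Finset.sum_singleton, map_smul_eq_mul, Real.norm_eq_abs, abs_sg, one_mul,
    avg_const]

/-- multiply the signs by a fixed sign pattern -/
def twist (τ : ι → Bool) : (ι → Bool) ≃ (ι → Bool) where
  toFun σ := fun i => (σ i == τ i)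
  invFun σ := fun i => (σ i == τ i)
  left_inv σ := by
    funext i
    show ((σ i == τ i) == τ i) = σ i
    cases σ i <;> cases τ i <;> rfl
  right_inv σ := by
    funext i
    show ((σ i == τ i) == τ i) = σ i
    cases σ i <;> cases τ i <;> rfl

lemma sg_twist (τ σ : ι → Bool) (i : ι) : sg (twist τ σ i) = sg (τ i) * sg (σ i) := by
  simp only [twist, Equiv.coe_fn_mk]
  cases σ i <;> cases τ i <;> simp [sg]

lemma EE_mono (p : Seminorm ℝ X) (x : ι → X) {A B : Finset ι} (h : A ⊆ B) :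
    EE p x A ≤ EE p x B := by
  set τ : ι → Bool := fun i => decide (i ∈ A) with hτ
  have h1 : ∀ σ : ι → Bool, p (∑ i ∈ A, sg (σ i) • x i) ^ 2 ≤
      (1 / 2) * p (∑ i ∈ B, sg (σ i) • x i) ^ 2 +
      (1 / 2) * p (∑ i ∈ B, sg (twist τ σ i) • x i) ^ 2 := by
    intro σ
    have h2 : ∑ i ∈ A, sg (σ i) • x i = (1 / 2 : ℝ) • (∑ i ∈ B, sg (σ i) • x i +
        ∑ i ∈ B, sg (twist τ σ i) • x i) := by
      rw [← Finset.sum_add_distrib, Finset.smul_sum, ← Finset.sum_filter_add_sum_filter_not B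
        (fun i => i ∈ A)]
      have e1 : B.filter (fun i => i ∈ A) = A := by
        ext i; simp only [Finset.mem_filter]; exact ⟨fun h => h.2, fun hi => ⟨h hi, hi⟩⟩
      rw [e1]
      have e2 : ∑ i ∈ B.filter (fun i => ¬ i ∈ A),
          (1 / 2 : ℝ) • (sg (σ i) • x i + sg (twist τ σ i) • x i) = 0 := by
        refine Finset.sum_eq_zero fun i hi => ?_
        rw [Finset.mem_filter] at hi
        rw [sg_twist]
        have : sg (τ i) = -1 := by simp [hτ, hi.2, sg]
        rw [this]; simp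
      rw [e2, add_zero]
      refine Finset.sum_congr rfl fun i hi => ?_
      rw [sg_twist]
      have : sg (τ i) = 1 := by simp [hτ, hi, sg]
      rw [this, one_mul, ← add_smul, smul_smul]; congr 1; ring
    rw [h2, map_smul_eq_mul]
    have h3 : p (∑ i ∈ B, sg (σ i) • x i + ∑ i ∈ B, sg (twist τ σ i) • x i) ≤
        p (∑ i ∈ B, sg (σ i) • x i) + p (∑ i ∈ B, sg (twist τ σ i) • x i) := map_add_le_add p _ _
    have h4 : ‖(1 / 2 : ℝ)‖ = 1 / 2 := by norm_num
    rw [h4]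
    have h5 : 0 ≤ p (∑ i ∈ B, sg (σ i) • x i + ∑ i ∈ B, sg (twist τ σ i) • x i) :=
      apply_nonneg p _
    set P := p (∑ i ∈ B, sg (σ i) • x i)
    set P' := p (∑ i ∈ B, sg (twist τ σ i) • x i)
    have h6 := pow_le_pow_left₀ h5 h3 2
    nlinarith [sq_nonneg (P - P')]
  calc EE p x A ≤ avg (fun σ => (1 / 2) * p (∑ i ∈ B, sg (σ i) • x i) ^ 2 +
      (1 / 2) * p (∑ i ∈ B, sg (twist τ σ i) • x i) ^ 2) := avg_mono h1
    _ = (1 / 2) * EE p x B + (1 / 2) * EE p x B := by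
      rw [avg_add, avg_mul_left, avg_mul_left]
      congr 2
      exact avg_equiv (twist τ) (fun σ => p (∑ i ∈ B, sg (σ i) • x i) ^ 2)
    _ = EE p x B := by ring

/-- the basic hypothesis for `k` vectors -/
def Basic (p : Seminorm ℝ X) (k : ℕ) : Prop :=
  ∀ x : Fin k → X, ∑ i, p (x i) ^ 2 ≤
    (3 / 4) * (k : ℝ) * avg (fun σ : Fin k → Bool => p (∑ i, sg (σ i) • x i) ^ 2)

lemma EE_split (p : Seminorm ℝ X) (k : ℕ) (hb : Basic p k) (x : ι → X) (A : Finset ι)
    (l : ι → Fin k) :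
    ∑ c, EE p x (A.filter (fun i => l i = c)) ≤ (3 / 4) * (k : ℝ) * EE p x A := by
  set S : (ι → Bool) → Fin k → X := fun σ c => ∑ i ∈ A.filter (fun i => l i = c), sg (σ i) • x i
    with hS
  have h1 : ∀ τ : Fin k → Bool, EE p x A = avg (fun σ => p (∑ c, sg (τ c) • S σ c) ^ 2) := by
    intro τ
    have h2 := avg_equiv (twist (fun i => τ (l i))) (fun σ => p (∑ i ∈ A, sg (σ i) • x i) ^ 2)
    rw [EE, ← h2]
    congr 1; funext σ
    congr 2
    simp only [hS, Finset.smul_sum, smul_smul]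
    rw [← Finset.sum_fiberwise A l (fun i => sg (twist (fun i => τ (l i)) σ i) • x i)]
    refine Finset.sum_congr rfl fun c _ => ?_
    refine Finset.sum_congr rfl fun i hi => ?_
    rw [Finset.mem_filter] at hi
    rw [sg_twist, hi.2]
  have h3 : EE p x A = avg (fun σ => avg (fun τ : Fin k → Bool => p (∑ c, sg (τ c) • S σ c) ^ 2)) := by
    have h4 : EE p x A = avg (fun τ : Fin k → Bool => avg (fun σ : ι → Bool =>
        p (∑ c, sg (τ c) • S σ c) ^ 2)) := by
      rw [← avg_const (ι := Fin k) (EE p x A)]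
      congr 1; funext τ; exact h1 τ
    rw [h4]
    simp only [avg]
    rw [Finset.smul_sum, Finset.smul_sum]
    simp_rw [Finset.smul_sum]
    rw [Finset.sum_comm]
    refine Finset.sum_congr rfl fun σ _ => Finset.sum_congr rfl fun τ _ => ?_
    rw [smul_comm]
  have h5 : ∑ c, EE p x (A.filter (fun i => l i = c)) = avg (fun σ => ∑ c, p (S σ c) ^ 2) := by
    rw [avg_sum]; rfl
  rw [h5, h3, ← avg_mul_left]
  exact avg_mono fun σ => hb (S σ)

lemma exists_split (A : Finset ι) (a b : ℕ) (ha : 0 < a) (h : A.card = a * b) :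
    ∃ l : ι → Fin a, ∀ c, (A.filter (fun i => l i = c)).card = b := by
  classical
  have : NeZero a := ⟨ha.ne'⟩
  let e : A ≃ Fin (a * b) := A.equivFinOfCardEq h
  let l : ι → Fin a := fun i => if hi : i ∈ A then (finProdFinEquiv.symm (e ⟨i, hi⟩)).1 else 0
  refine ⟨l, fun c => ?_⟩
  have h1 : (A.filter (fun i => l i = c)).card = (Finset.univ : Finset (Fin b)).card := by
    symm
    refine Finset.card_bij (fun (t : Fin b) _ => ((e.symm (finProdFinEquiv (c, t))) : ι)) ?_ ?_ ?_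
    · intro t _
      rw [Finset.mem_filter]
      refine ⟨(e.symm (finProdFinEquiv (c, t))).2, ?_⟩
      simp only [l]
      rw [dif_pos (e.symm (finProdFinEquiv (c, t))).2]
      simp
    · intro t _ t' _ htt
      have h2 : e.symm (finProdFinEquiv (c, t)) = e.symm (finProdFinEquiv (c, t')) :=
        Subtype.ext htt
      have h3 := finProdFinEquiv.injective (e.symm.injective h2)
      simpa using h3
    · intro i hi
      rw [Finset.mem_filter] at hi
      obtain ⟨hiA, hil⟩ := hi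
      simp only [l] at hil
      rw [dif_pos hiA] at hil
      refine ⟨(finProdFinEquiv.symm (e ⟨i, hiA⟩)).2, Finset.mem_univ _, ?_⟩
      have : (c, (finProdFinEquiv.symm (e ⟨i, hiA⟩)).2) = finProdFinEquiv.symm (e ⟨i, hiA⟩) := by
        rw [← hil]
      rw [this, Equiv.apply_symm_apply, Equiv.symm_apply_apply]
  rw [h1]; simp

lemma iterate_basic (p : Seminorm ℝ X) (k : ℕ) (hk : 0 < k) (hb : Basic p k) (x : ι → X) :
    ∀ (r : ℕ) (A : Finset ι), A.card = k ^ r →
      ∑ i ∈ A, p (x i) ^ 2 ≤ ((3 / 4 : ℝ) * k) ^ r * EE p x A := by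
  intro r
  induction r with
  | zero =>
    intro A hA
    rw [pow_zero, Finset.card_eq_one] at hA
    obtain ⟨i, rfl⟩ := hA
    rw [Finset.sum_singleton, EE_singleton]; simp
  | succ r ih =>
    intro A hA
    obtain ⟨l, hl⟩ := exists_split A k (k ^ r) hk (by rw [hA]; ring)
    rw [← Finset.sum_fiberwise A l (fun i => p (x i) ^ 2)]
    calc ∑ c, ∑ i ∈ A.filter (fun i => l i = c), p (x i) ^ 2
        ≤ ∑ c, ((3 / 4 : ℝ) * k) ^ r * EE p x (A.filter (fun i => l i = c)) :=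
          Finset.sum_le_sum fun c _ => ih _ (hl c)
      _ = ((3 / 4 : ℝ) * k) ^ r * ∑ c, EE p x (A.filter (fun i => l i = c)) := by
          rw [Finset.mul_sum]
      _ ≤ ((3 / 4 : ℝ) * k) ^ r * ((3 / 4) * (k : ℝ) * EE p x A) :=
          mul_le_mul_of_nonneg_left (EE_split p k hb x A l) (by positivity)
      _ = ((3 / 4 : ℝ) * k) ^ (r + 1) * EE p x A := by ring

/-- number of large vectors -/
lemma card_large (p : Seminorm ℝ X) (k : ℕ) (hk : 0 < k) (hb : Basic p k) (x : ι → X) (r : ℕ) :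
    (Finset.univ.filter (fun i => (3 / 4 : ℝ) ^ r * EE p x Finset.univ < p (x i) ^ 2)).card
      < k ^ r := by
  classical
  by_contra hcon
  push Not at hcon
  obtain ⟨A, hAsub, hAcard⟩ := Finset.exists_subset_card_eq hcon
  have h1 := iterate_basic p k hk hb x r A hAcard
  have h2 : EE p x A ≤ EE p x Finset.univ := EE_mono p x (Finset.subset_univ _)
  have h3 : ∑ i ∈ A, (3 / 4 : ℝ) ^ r * EE p x Finset.univ < ∑ i ∈ A, p (x i) ^ 2 := by
    apply Finset.sum_lt_sum_of_nonempty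
    · rw [← Finset.card_pos, hAcard]; positivity
    · intro i hi
      have := hAsub hi
      rw [Finset.mem_filter] at this
      exact this.2
  rw [Finset.sum_const, hAcard, nsmul_eq_mul] at h3
  push_cast at h3
  have h4 : ((3 / 4 : ℝ) * k) ^ r * EE p x A ≤ ((3 / 4 : ℝ) * k) ^ r * EE p x Finset.univ :=
    mul_le_mul_of_nonneg_left h2 (by positivity)
  rw [mul_pow] at h1 h4
  nlinarith

/-- finite cotype, with the square written as exponent `2 t` -/
theorem cotype_even (p : Seminorm ℝ X) (k t : ℕ) (hk : 0 < k) (ht : 0 < t) (hb : Basic p k)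
    (hkt : (3 / 4 : ℝ) ^ t * k ≤ 1 / 2) (x : ι → X) :
    ∑ i, (p (x i) ^ 2) ^ t ≤ (2 * k : ℝ) * (EE p x Finset.univ) ^ t := by
  classical
  set M := EE p x Finset.univ with hM
  have hM0 : 0 ≤ M := EE_nonneg p x _
  have hle : ∀ i, p (x i) ^ 2 ≤ M := by
    intro i
    rw [← EE_singleton p x i]
    exact EE_mono p x (Finset.subset_univ _)
  rcases hM0.eq_or_lt with hz | hpos
  · have : ∀ i, p (x i) ^ 2 = 0 := by
      intro i
      have := hle i
      rw [← hz] at this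
      exact le_antisymm this (sq_nonneg _)
    simp_rw [this]
    rw [zero_pow ht.ne']
    simp only [Finset.sum_const_zero]
    positivity
  -- levels
  have hlev : ∀ i, p (x i) ^ 2 ≠ 0 → ∃ l : ℕ, (3 / 4 : ℝ) ^ (l + 1) * M < p (x i) ^ 2 ∧
      p (x i) ^ 2 ≤ (3 / 4 : ℝ) ^ l * M := by
    intro i hi
    have hpi : 0 < p (x i) ^ 2 := lt_of_le_of_ne (sq_nonneg _) (Ne.symm hi)
    have h1 : 0 < p (x i) ^ 2 / M := by positivity
    have h2 : p (x i) ^ 2 / M ≤ 1 := by rw [div_le_one hpos]; exact hle i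
    obtain ⟨l, hl1, hl2⟩ := exists_nat_pow_near_of_lt_one h1 h2 (by norm_num : (0:ℝ) < 3 / 4)
      (by norm_num : (3 / 4 : ℝ) < 1)
    refine ⟨l, ?_, ?_⟩
    · rwa [lt_div_iff₀ hpos] at hl1
    · rwa [div_le_iff₀ hpos] at hl2
  have hlev2 : ∀ i, ∃ l : ℕ, (p (x i) ^ 2) ^ t ≤ ((3 / 4 : ℝ) ^ t) ^ l * M ^ t ∧
      (p (x i) ^ 2 ≠ 0 → (3 / 4 : ℝ) ^ (l + 1) * M < p (x i) ^ 2) := by
    intro i
    by_cases hi : p (x i) ^ 2 = 0
    · refine ⟨0, ?_, fun h => absurd hi h⟩
      rw [hi, zero_pow ht.ne']; positivity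
    · obtain ⟨l, h1, h2⟩ := hlev i hi
      refine ⟨l, ?_, fun _ => h1⟩
      calc (p (x i) ^ 2) ^ t ≤ ((3 / 4 : ℝ) ^ l * M) ^ t := pow_le_pow_left₀ (sq_nonneg _) h2 t
        _ = ((3 / 4 : ℝ) ^ t) ^ l * M ^ t := by rw [mul_pow, ← pow_mul, ← pow_mul, mul_comm l t]
  choose lv hlv1 hlv2 using hlev2
  set T : Finset ι := Finset.univ.filter (fun i => p (x i) ^ 2 ≠ 0) with hT
  have h1 : ∑ i, (p (x i) ^ 2) ^ t = ∑ i ∈ T, (p (x i) ^ 2) ^ t := by
    rw [hT, Finset.sum_filter]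
    refine Finset.sum_congr rfl fun i _ => ?_
    split_ifs with h
    · rfl
    · push Not at h
      rw [h, zero_pow ht.ne']
  obtain ⟨L, hL⟩ : ∃ L : ℕ, ∀ i, lv i < L := by
    refine ⟨(Finset.univ.sup lv) + 1, fun i => ?_⟩
    exact Nat.lt_succ_of_le (Finset.le_sup (Finset.mem_univ i))
  have h2 : ∑ i ∈ T, (p (x i) ^ 2) ^ t ≤ ∑ i ∈ T, ((3 / 4 : ℝ) ^ t) ^ (lv i) * M ^ t :=
    Finset.sum_le_sum fun i _ => hlv1 i
  have h3 : ∑ i ∈ T, ((3 / 4 : ℝ) ^ t) ^ (lv i) * M ^ t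
      = ∑ l ∈ Finset.range L, ∑ i ∈ T.filter (fun i => lv i = l), ((3 / 4 : ℝ) ^ t) ^ (lv i) * M ^ t := by
    symm
    apply Finset.sum_fiberwise_of_maps_to
    intro i _
    exact Finset.mem_range.mpr (hL i)
  have h4 : ∀ l ∈ Finset.range L,
      ∑ i ∈ T.filter (fun i => lv i = l), ((3 / 4 : ℝ) ^ t) ^ (lv i) * M ^ t ≤
        (k : ℝ) * (1 / 2) ^ l * M ^ t := by
    intro l _
    have h5 : ∑ i ∈ T.filter (fun i => lv i = l), ((3 / 4 : ℝ) ^ t) ^ (lv i) * M ^ t
        = ((T.filter (fun i => lv i = l)).card : ℝ) * (((3 / 4 : ℝ) ^ t) ^ l * M ^ t) := by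
      rw [← nsmul_eq_mul, ← Finset.sum_const]
      refine Finset.sum_congr rfl fun i hi => ?_
      rw [Finset.mem_filter] at hi
      rw [hi.2]
    rw [h5]
    have h6 : ((T.filter (fun i => lv i = l)).card : ℝ) ≤ (k : ℝ) ^ (l + 1) := by
      have h7 : (T.filter (fun i => lv i = l)).card ≤
          (Finset.univ.filter (fun i => (3 / 4 : ℝ) ^ (l + 1) * M < p (x i) ^ 2)).card := by
        apply Finset.card_le_card
        intro i hi
        simp only [hT, Finset.mem_filter, Finset.mem_univ, true_and] at hi ⊢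
        have := hlv2 i hi.1
        rwa [hi.2] at this
      have h8 := card_large p k hk hb x (l + 1)
      have h9 : (T.filter (fun i => lv i = l)).card ≤ k ^ (l + 1) := (h7.trans h8.le)
      exact_mod_cast h9
    calc ((T.filter (fun i => lv i = l)).card : ℝ) * (((3 / 4 : ℝ) ^ t) ^ l * M ^ t)
        ≤ (k : ℝ) ^ (l + 1) * (((3 / 4 : ℝ) ^ t) ^ l * M ^ t) :=
          mul_le_mul_of_nonneg_right h6 (by positivity)
      _ = (k : ℝ) * (((3 / 4 : ℝ) ^ t) * k) ^ l * M ^ t := by rw [mul_pow]; ring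
      _ ≤ (k : ℝ) * (1 / 2) ^ l * M ^ t := by
          have : (((3 / 4 : ℝ) ^ t) * k) ^ l ≤ (1 / 2) ^ l :=
            pow_le_pow_left₀ (by positivity) hkt l
          apply mul_le_mul_of_nonneg_right _ (by positivity)
          exact mul_le_mul_of_nonneg_left this (Nat.cast_nonneg _)
  have h5 : ∑ l ∈ Finset.range L, (1 / 2 : ℝ) ^ l ≤ 2 := by
    have := geom_sum_eq (by norm_num : (1 / 2 : ℝ) ≠ 1) L
    rw [this]
    have h0 : (0:ℝ) < (1 / 2) ^ L := by positivity
    have : ((1 / 2 : ℝ) ^ L - 1) / (1 / 2 - 1) = 2 * (1 - (1 / 2) ^ L) := by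
      rw [div_eq_iff (by norm_num)]; ring
    rw [this]; linarith
  calc ∑ i, (p (x i) ^ 2) ^ t = ∑ i ∈ T, (p (x i) ^ 2) ^ t := h1
    _ ≤ ∑ i ∈ T, ((3 / 4 : ℝ) ^ t) ^ (lv i) * M ^ t := h2
    _ = _ := h3
    _ ≤ ∑ l ∈ Finset.range L, (k : ℝ) * (1 / 2) ^ l * M ^ t := Finset.sum_le_sum h4
    _ = (k : ℝ) * (∑ l ∈ Finset.range L, (1 / 2 : ℝ) ^ l) * M ^ t := by
        rw [Finset.mul_sum, Finset.sum_mul]
    _ ≤ (k : ℝ) * 2 * M ^ t := by
        apply mul_le_mul_of_nonneg_right _ (by positivity)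
        exact mul_le_mul_of_nonneg_left h5 (Nat.cast_nonneg _)
    _ = (2 * k : ℝ) * M ^ t := by ring

/-- finite cotype in the form of the problem -/
theorem cotype_final (p : Seminorm ℝ X) (k t : ℕ) (hk : 0 < k) (ht : 0 < t) (hb : Basic p k)
    (hkt : (3 / 4 : ℝ) ^ t * k ≤ 1 / 2) (x : ι → X) :
    (∑ i, p (x i) ^ (((2 * t : ℕ)) : ℝ)) ^ (1 / (((2 * t : ℕ)) : ℝ)) ≤
      (4 * k : ℝ) * avg (fun σ => p (∑ i, sg (σ i) • x i)) := by
  have h1 := cotype_even p k t hk ht hb hkt x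
  have h2 := kahane p x
  set a := avg (fun σ => p (∑ i, sg (σ i) • x i)) with ha
  have ha0 : 0 ≤ a := avg_nonneg fun σ => apply_nonneg p _
  have hM : EE p x Finset.univ ≤ (2 * a) ^ 2 := by
    have : EE p x Finset.univ = avg (fun σ => p (∑ i, sg (σ i) • x i) ^ 2) := rfl
    rw [this]; nlinarith [sq_nonneg a]
  have hM0 := EE_nonneg p x (Finset.univ : Finset ι)
  have h3 : ∑ i, p (x i) ^ (((2 * t : ℕ)) : ℝ) ≤ ((4 * k : ℝ) * a) ^ (2 * t) := by
    have e1 : ∀ i, p (x i) ^ (((2 * t : ℕ)) : ℝ) = (p (x i) ^ 2) ^ t := by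
      intro i; rw [Real.rpow_natCast, pow_mul]
    simp_rw [e1]
    have h4 : (EE p x Finset.univ) ^ t ≤ (2 * a) ^ (2 * t) := by
      rw [pow_mul]; exact pow_le_pow_left₀ hM0 hM t
    have hk1 : (1 : ℝ) ≤ 2 * k := by
      have : (1 : ℝ) ≤ k := by exact_mod_cast hk
      linarith
    calc ∑ i, (p (x i) ^ 2) ^ t ≤ (2 * k : ℝ) * (EE p x Finset.univ) ^ t := h1
      _ ≤ (2 * k : ℝ) * (2 * a) ^ (2 * t) := mul_le_mul_of_nonneg_left h4 (by positivity)
      _ ≤ (2 * k : ℝ) ^ (2 * t) * (2 * a) ^ (2 * t) := by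
          apply mul_le_mul_of_nonneg_right _ (by positivity)
          exact le_self_pow₀ hk1 (by omega)
      _ = ((4 * k : ℝ) * a) ^ (2 * t) := by rw [← mul_pow]; congr 1; ring
  have h4 : 0 ≤ (4 * k : ℝ) * a := by positivity
  have h5 : 0 ≤ ∑ i, p (x i) ^ (((2 * t : ℕ)) : ℝ) :=
    Finset.sum_nonneg fun i _ => Real.rpow_nonneg (apply_nonneg p _) _
  calc (∑ i, p (x i) ^ (((2 * t : ℕ)) : ℝ)) ^ (1 / (((2 * t : ℕ)) : ℝ))
      ≤ (((4 * k : ℝ) * a) ^ (2 * t)) ^ (1 / (((2 * t : ℕ)) : ℝ)) :=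
        Real.rpow_le_rpow h5 h3 (by positivity)
    _ = (4 * k : ℝ) * a := by
        rw [one_div]
        exact Real.pow_rpow_inv_natCast h4 (by omega)

end Pool.Agent.Helper56.Cube
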