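import Mathlib

set_option autoImplicit false
set_option linter.unusedSectionVars false

namespace Pool.Agent.Helper56.Cube

open Finset

/-- the sign attached to a Boolean -/
noncomputable def sg (b : Bool) : ℝ := if b then (1 : ℝ) else -1

lemma sg_true : sg true = 1 := by simp [sg]
lemma sg_false : sg false = -1 := by simp [sg]

lemma sg_mul_self (b : Bool) : sg b * sg b = 1 := by
  cases b <;> simp [sg]

lemma sg_not (b : Bool) : sg (!b) = - sg b := by
  cases b <;> simp [sg]

lemma sg_sq (b : Bool) : sg b ^ 2 = 1 := by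
  cases b <;> simp [sg]

lemma abs_sg (b : Bool) : |sg b| = 1 := by
  cases b <;> simp [sg]

lemma sg_xor (a b : Bool) : sg (a ^^ b) = - (sg a * sg b) := by
  cases a <;> cases b <;> simp [sg]

variable {ι : Type*} [Fintype ι] [DecidableEq ι]

/-- average over the cube -/
noncomputable def avg {V : Type*} [AddCommGroup V] [Module ℝ V] (f : (ι → Bool) → V) : V :=
  ((1 : ℝ) / 2 ^ (Fintype.card ι)) • ∑ σ, f σ

lemma avg_real (f : (ι → Bool) → ℝ) :
    avg f = (1 / 2 ^ (Fintype.card ι)) * ∑ σ, f σ := rfl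

lemma avg_const (c : ℝ) : avg (fun _ : ι → Bool => c) = c := by
  simp [avg_real, Finset.card_univ]

lemma avg_add {V : Type*} [AddCommGroup V] [Module ℝ V] (f g : (ι → Bool) → V) :
    avg (fun σ => f σ + g σ) = avg f + avg g := by
  simp [avg, Finset.sum_add_distrib, smul_add]

lemma avg_sub {V : Type*} [AddCommGroup V] [Module ℝ V] (f g : (ι → Bool) → V) :
    avg (fun σ => f σ - g σ) = avg f - avg g := by
  simp [avg, Finset.sum_sub_distrib, smul_sub]

lemma avg_smul {V : Type*} [AddCommGroup V] [Module ℝ V] (c : ℝ) (f : (ι → Bool) → V) :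
    avg (fun σ => c • f σ) = c • avg f := by
  simp [avg, ← Finset.smul_sum, smul_comm c]

lemma avg_mul_left (c : ℝ) (f : (ι → Bool) → ℝ) :
    avg (fun σ => c * f σ) = c * avg f := avg_smul c f

lemma avg_mul_right (c : ℝ) (f : (ι → Bool) → ℝ) :
    avg (fun σ => f σ * c) = avg f * c := by
  simp only [mul_comm _ c]; exact avg_smul c f

lemma avg_sum {V : Type*} [AddCommGroup V] [Module ℝ V] {κ : Type*} (s : Finset κ)
    (f : κ → (ι → Bool) → V) :
    avg (fun σ => ∑ j ∈ s, f j σ) = ∑ j ∈ s, avg (f j) := by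
  simp only [avg]
  rw [Finset.sum_comm, Finset.smul_sum]

lemma avg_map {V W : Type*} [AddCommGroup V] [Module ℝ V] [AddCommGroup W] [Module ℝ W]
    (L : V →ₗ[ℝ] W) (f : (ι → Bool) → V) :
    avg (fun σ => L (f σ)) = L (avg f) := by
  simp [avg, map_sum]

lemma avg_mono {f g : (ι → Bool) → ℝ} (h : ∀ σ, f σ ≤ g σ) : avg f ≤ avg g := by
  rw [avg_real, avg_real]
  exact mul_le_mul_of_nonneg_left (Finset.sum_le_sum fun σ _ => h σ) (by positivity)

lemma avg_nonneg {f : (ι → Bool) → ℝ} (h : ∀ σ, 0 ≤ f σ) : 0 ≤ avg f := by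
  have := avg_mono (f := fun _ => 0) (g := f) h
  rwa [avg_const] at this

lemma avg_equiv {V : Type*} [AddCommGroup V] [Module ℝ V] (e : (ι → Bool) ≃ (ι → Bool))
    (f : (ι → Bool) → V) : avg (fun σ => f (e σ)) = avg f := by
  simp only [avg]
  rw [Equiv.sum_comp e f]

lemma abs_avg_le (f : (ι → Bool) → ℝ) : |avg f| ≤ avg (fun σ => |f σ|) := by
  rw [avg_real, avg_real, abs_mul, abs_of_pos (by positivity)]
  exact mul_le_mul_of_nonneg_left (Finset.abs_sum_le_sum_abs _ _) (by positivity)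

/-- Cauchy-Schwarz -/
lemma avg_mul_sq_le (f g : (ι → Bool) → ℝ) :
    (avg (fun σ => f σ * g σ)) ^ 2 ≤ avg (fun σ => f σ ^ 2) * avg (fun σ => g σ ^ 2) := by
  simp only [avg_real]
  rw [mul_pow]
  have h := Finset.sum_mul_sq_le_sq_mul_sq (Finset.univ : Finset (ι → Bool)) f g
  have hc : (0 : ℝ) ≤ (1 / 2 ^ Fintype.card ι) ^ 2 := by positivity
  calc (1 / 2 ^ Fintype.card ι) ^ 2 * (∑ σ, f σ * g σ) ^ 2
      ≤ (1 / 2 ^ Fintype.card ι) ^ 2 * ((∑ σ, f σ ^ 2) * ∑ σ, g σ ^ 2) :=
        mul_le_mul_of_nonneg_left h hc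
    _ = _ := by ring

lemma avg_sq_le (f : (ι → Bool) → ℝ) : (avg f) ^ 2 ≤ avg (fun σ => f σ ^ 2) := by
  have := avg_mul_sq_le f (fun _ => 1)
  simpa [avg_const] using this

/-- Walsh functions -/
noncomputable def w (S : Finset ι) (σ : ι → Bool) : ℝ := ∏ i ∈ S, sg (σ i)

lemma abs_w (S : Finset ι) (σ : ι → Bool) : |w S σ| = 1 := by
  rw [w, Finset.abs_prod]
  exact Finset.prod_eq_one fun i _ => abs_sg _

lemma sum_w_mul_w (σ τ : ι → Bool) :
    ∑ S : Finset ι, w S σ * w S τ = if σ = τ then (2 : ℝ) ^ Fintype.card ι else 0 := by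
  have h1 : ∑ S : Finset ι, w S σ * w S τ = ∏ i : ι, (1 + sg (σ i) * sg (τ i)) := by
    rw [Finset.prod_one_add]
    simp only [w, Finset.prod_mul_distrib, Finset.powerset_univ]
  rw [h1]
  split_ifs with h
  · subst h
    have : ∀ i : ι, (1 + sg (σ i) * sg (σ i)) = 2 := by
      intro i; rw [sg_mul_self]; norm_num
    simp [this, Finset.card_univ]
  · have : ∃ i, σ i ≠ τ i := by
      by_contra hc
      push Not at hc
      exact h (funext hc)
    obtain ⟨i, hi⟩ := this
    apply Finset.prod_eq_zero (Finset.mem_univ i)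
    have : sg (σ i) * sg (τ i) = -1 := by
      revert hi
      cases σ i <;> cases τ i <;> simp [sg]
    rw [this]; norm_num

/-- Fourier coefficient -/
noncomputable def fc (f : (ι → Bool) → ℝ) (S : Finset ι) : ℝ := avg (fun σ => f σ * w S σ)

lemma parseval (f : (ι → Bool) → ℝ) : ∑ S, fc f S ^ 2 = avg (fun σ => f σ ^ 2) := by
  have hN : ((2 : ℝ) ^ Fintype.card ι) ≠ 0 := by positivity
  have h1 : ∀ S, fc f S ^ 2 = (1 / 2 ^ Fintype.card ι) ^ 2 *
      ∑ σ, ∑ τ, f σ * f τ * (w S σ * w S τ) := by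
    intro S
    rw [fc, avg_real, mul_pow, sq (∑ σ, f σ * w S σ), Finset.sum_mul_sum]
    congr 1
    refine Finset.sum_congr rfl fun σ _ => Finset.sum_congr rfl fun τ _ => ?_
    ring
  simp_rw [h1]
  rw [← Finset.mul_sum, Finset.sum_comm]
  have h2 : ∀ σ : ι → Bool, ∑ S : Finset ι, ∑ τ, f σ * f τ * (w S σ * w S τ)
      = 2 ^ Fintype.card ι * f σ ^ 2 := by
    intro σ
    rw [Finset.sum_comm]
    simp_rw [← Finset.mul_sum, sum_w_mul_w]
    simp [Finset.sum_ite_eq]
    ring
  simp_rw [h2]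
  rw [← Finset.mul_sum, avg_real]
  field_simp

lemma abs_fc_le (f : (ι → Bool) → ℝ) (S : Finset ι) : |fc f S| ≤ avg (fun σ => |f σ|) := by
  refine (abs_avg_le _).trans (avg_mono fun σ => ?_)
  rw [abs_mul, abs_w, mul_one]

/-- flipping one coordinate -/
def flip (i : ι) : (ι → Bool) ≃ (ι → Bool) where
  toFun σ := Function.update σ i (!σ i)
  invFun σ := Function.update σ i (!σ i)
  left_inv σ := by
    funext j
    by_cases h : j = i
    · subst h; simp
    · simp [Function.update_of_ne h]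
  right_inv σ := by
    funext j
    by_cases h : j = i
    · subst h; simp
    · simp [Function.update_of_ne h]

lemma flip_flip (i : ι) (σ : ι → Bool) : flip i (flip i σ) = σ := (flip i).left_inv σ

lemma flip_same (i : ι) (σ : ι → Bool) : flip i σ i = !σ i := by
  simp [flip]

lemma flip_ne {i j : ι} (h : j ≠ i) (σ : ι → Bool) : flip i σ j = σ j := by
  simp [flip, Function.update_of_ne h]

lemma w_flip_mem {i : ι} {S : Finset ι} (h : i ∈ S) (σ : ι → Bool) :
    w S (flip i σ) = - w S σ := by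
  rw [w, w, ← Finset.mul_prod_erase S _ h, ← Finset.mul_prod_erase S _ h, flip_same, sg_not]
  have : ∏ x ∈ S.erase i, sg (flip i σ x) = ∏ x ∈ S.erase i, sg (σ x) := by
    refine Finset.prod_congr rfl fun x hx => ?_
    rw [flip_ne (Finset.ne_of_mem_erase hx)]
  rw [this]; ring

lemma w_flip_notMem {i : ι} {S : Finset ι} (h : i ∉ S) (σ : ι → Bool) :
    w S (flip i σ) = w S σ := by
  rw [w, w]
  refine Finset.prod_congr rfl fun x hx => ?_
  rw [flip_ne]
  rintro rfl; exact h hx

/-- discrete derivative -/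
noncomputable def D {V : Type*} [AddCommGroup V] [Module ℝ V] (i : ι) (f : (ι → Bool) → V)
    (σ : ι → Bool) : V := (1 / 2 : ℝ) • (f σ - f (flip i σ))

lemma fc_D (i : ι) (f : (ι → Bool) → ℝ) (S : Finset ι) :
    fc (D i f) S = if i ∈ S then fc f S else 0 := by
  have h1 : fc (D i f) S = (1 / 2) * (fc f S - avg (fun σ => f (flip i σ) * w S σ)) := by
    rw [fc, fc, ← avg_sub, ← avg_mul_left]
    congr 1; funext σ
    simp only [D, smul_eq_mul]; ring
  have h2 : avg (fun σ => f (flip i σ) * w S σ) = if i ∈ S then - fc f S else fc f S := by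
    have := avg_equiv (flip i) (fun σ => f (flip i σ) * w S σ)
    rw [← this]
    split_ifs with h
    · rw [fc, ← neg_one_mul (avg _), ← avg_mul_left]
      congr 1; funext σ
      rw [w_flip_mem h, flip_flip]; ring
    · rw [fc]
      congr 1; funext σ
      rw [w_flip_notMem h, flip_flip]
  rw [h1, h2]
  split_ifs <;> ring

lemma sum_avg_D_sq (f : (ι → Bool) → ℝ) :
    ∑ i, avg (fun σ => (D i f σ) ^ 2) = ∑ S : Finset ι, (S.card : ℝ) * fc f S ^ 2 := by
  have h1 : ∀ i, avg (fun σ => (D i f σ) ^ 2) = ∑ S : Finset ι, (if i ∈ S then fc f S ^ 2 else 0) := by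
    intro i
    rw [← parseval]
    refine Finset.sum_congr rfl fun S _ => ?_
    rw [fc_D]
    split_ifs <;> simp
  simp_rw [h1]
  rw [Finset.sum_comm]
  refine Finset.sum_congr rfl fun S _ => ?_
  rw [← Finset.sum_filter, Finset.sum_const, nsmul_eq_mul]
  congr 2
  simp


/-- sum over the Walsh characters of size one -/
lemma sum_singletons (g : Finset ι → ℝ) :
    ∑ i, g {i} = ∑ S ∈ (Finset.univ : Finset (Finset ι)).filter (fun S => S.card = 1), g S := by
  have h : (Finset.univ : Finset (Finset ι)).filter (fun S => S.card = 1)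
      = (Finset.univ : Finset ι).image (fun i => ({i} : Finset ι)) := by
    ext S
    simp only [Finset.mem_filter, Finset.mem_univ, true_and, Finset.mem_image]
    rw [Finset.card_eq_one]
    constructor
    · rintro ⟨a, rfl⟩; exact ⟨a, rfl⟩
    · rintro ⟨a, rfl⟩; exact ⟨a, rfl⟩
  rw [h, Finset.sum_image]
  intro a _ b _ hab
  simpa using hab

lemma fc_singleton (f : (ι → Bool) → ℝ) (i : ι) :
    fc f {i} = avg (fun σ => f σ * sg (σ i)) := by
  simp [fc, w]

/-- Bessel inequality on the first level -/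
lemma bessel (f : (ι → Bool) → ℝ) :
    ∑ i, (avg (fun σ => f σ * sg (σ i))) ^ 2 ≤ avg (fun σ => f σ ^ 2) := by
  rw [← parseval]
  have h : ∑ i, (avg (fun σ => f σ * sg (σ i))) ^ 2 = ∑ i, (fun S => fc f S ^ 2) {i} := by
    refine Finset.sum_congr rfl fun i _ => ?_
    simp only [fc_singleton]
  rw [h, sum_singletons (fun S => fc f S ^ 2)]
  exact Finset.sum_le_sum_of_subset_of_nonneg (Finset.filter_subset _ _)
    (fun S _ _ => sq_nonneg _)

lemma avg_sg (i : ι) : avg (fun σ : ι → Bool => sg (σ i)) = 0 := by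
  have h := avg_equiv (flip i) (fun σ : ι → Bool => sg (σ i))
  have h2 : (fun σ : ι → Bool => sg (flip i σ i)) = fun σ => (-1) * sg (σ i) := by
    funext σ; rw [flip_same, sg_not]; ring
  rw [h2, avg_mul_left] at h
  linarith

lemma avg_sg_mul_sg (i j : ι) :
    avg (fun σ : ι → Bool => sg (σ i) * sg (σ j)) = if i = j then 1 else 0 := by
  split_ifs with h
  · subst h; simp [sg_mul_self, avg_const]
  · have h1 := avg_equiv (flip i) (fun σ : ι → Bool => sg (σ i) * sg (σ j))
    have h2 : (fun σ : ι → Bool => sg (flip i σ i) * sg (flip i σ j))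
        = fun σ => (-1) * (sg (σ i) * sg (σ j)) := by
      funext σ; rw [flip_same, sg_not, flip_ne (Ne.symm h)]; ring
    rw [h2, avg_mul_left] at h1
    linarith

/-- exponential moment of a Rademacher sum -/
lemma mgf (c : ι → ℝ) :
    avg (fun σ : ι → Bool => Real.exp (∑ i, c i * sg (σ i))) ≤ Real.exp ((∑ i, c i ^ 2) / 2) := by
  have h1 : ∑ σ : ι → Bool, Real.exp (∑ i, c i * sg (σ i))
      = ∏ i, (Real.exp (c i) + Real.exp (- c i)) := by
    have h2 : ∀ i, Real.exp (c i) + Real.exp (- c i) =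
        ∑ b ∈ (Finset.univ : Finset Bool), Real.exp (c i * sg b) := by
      intro i; simp [sg]
    simp_rw [h2]
    rw [Finset.prod_univ_sum, Fintype.piFinset_univ]
    refine Finset.sum_congr rfl fun σ _ => ?_
    rw [Real.exp_sum]
  rw [avg_real, h1]
  have h3 : (1 : ℝ) / 2 ^ Fintype.card ι * ∏ i, (Real.exp (c i) + Real.exp (- c i))
      = ∏ i, Real.cosh (c i) := by
    have : ∀ i, Real.exp (c i) + Real.exp (- c i) = 2 * Real.cosh (c i) := by
      intro i; rw [Real.cosh_eq]; ring
    simp_rw [this]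
    rw [Finset.prod_mul_distrib, Finset.prod_const, Finset.card_univ]
    field_simp
  rw [h3, Finset.sum_div, Real.exp_sum]
  exact Finset.prod_le_prod (fun i _ => (Real.cosh_pos _).le)
    (fun i _ => Real.cosh_le_exp_half_sq _)

lemma pointwise_tail (t g : ℝ) (ht : 0 < t) :
    (if t < |g| then |g| else 0) ^ 2 ≤
      (32 / t ^ 2) * Real.exp (- (t ^ 2 / 4)) * (Real.exp (t / 2 * g) + Real.exp (- (t / 2) * g)) := by
  split_ifs with h
  · have h1 : Real.exp (t / 2 * |g|) ≤ Real.exp (t / 2 * g) + Real.exp (- (t / 2) * g) := by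
      rcases abs_cases g with ⟨hg, _⟩ | ⟨hg, _⟩
      · rw [hg]; linarith [Real.exp_pos (- (t / 2) * g)]
      · rw [hg]
        have : t / 2 * -g = - (t / 2) * g := by ring
        rw [this]; linarith [Real.exp_pos (t / 2 * g)]
    have h2 : (t / 4 * |g|) ^ 2 / 2 ≤ Real.exp (t / 4 * |g|) := by
      have hx : 0 ≤ t / 4 * |g| := by positivity
      have := Real.quadratic_le_exp_of_nonneg hx
      linarith
    have h3 : Real.exp (t / 4 * |g|) ≤ Real.exp (- (t ^ 2 / 4)) * Real.exp (t / 2 * |g|) := by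
      rw [← Real.exp_add]
      apply Real.exp_le_exp.mpr
      nlinarith
    have h4 : |g| ^ 2 = (32 / t ^ 2) * ((t / 4 * |g|) ^ 2 / 2) := by
      field_simp; ring
    rw [h4]
    have h5 : (0 : ℝ) ≤ 32 / t ^ 2 := by positivity
    calc (32 / t ^ 2) * ((t / 4 * |g|) ^ 2 / 2)
        ≤ (32 / t ^ 2) * (Real.exp (- (t ^ 2 / 4)) *
            (Real.exp (t / 2 * g) + Real.exp (- (t / 2) * g))) := by
          apply mul_le_mul_of_nonneg_left _ h5
          exact (h2.trans h3).trans (mul_le_mul_of_nonneg_left h1 (Real.exp_pos _).le)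
      _ = _ := by ring
  · have : (0:ℝ) ^ 2 = 0 := by norm_num
    rw [this]
    have := Real.exp_pos (t / 2 * g)
    have := Real.exp_pos (- (t / 2) * g)
    have := Real.exp_pos (- (t ^ 2 / 4))
    positivity

/-- The level-one part of a function with comparatively small `L¹` norm is small. -/
lemma level_one (f : (ι → Bool) → ℝ) (t : ℝ) (ht : 0 < t) :
    Real.sqrt (∑ i, (avg (fun σ => f σ * sg (σ i))) ^ 2) ≤
      t * avg (fun σ => |f σ|) +
        (8 / t) * Real.exp (- (t ^ 2 / 16)) * Real.sqrt (avg (fun σ => f σ ^ 2)) := by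
  set α : ι → ℝ := fun i => avg (fun σ => f σ * sg (σ i)) with hα
  set r : ℝ := Real.sqrt (∑ i, α i ^ 2) with hr
  have hr0 : 0 ≤ r := Real.sqrt_nonneg _
  have habs : 0 ≤ avg (fun σ => |f σ|) := avg_nonneg fun σ => abs_nonneg _
  have hsq0 : 0 ≤ Real.sqrt (avg (fun σ => f σ ^ 2)) := Real.sqrt_nonneg _
  rcases hr0.eq_or_lt with h0 | hpos
  · rw [← h0]
    have := Real.exp_pos (- (t ^ 2 / 16))
    positivity
  have hrr : r * r = ∑ i, α i ^ 2 := by
    rw [hr]; exact Real.mul_self_sqrt (Finset.sum_nonneg fun i _ => sq_nonneg _)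
  set g : (ι → Bool) → ℝ := fun σ => ∑ i, (α i / r) * sg (σ i) with hg
  have h1 : avg (fun σ => f σ * g σ) = r := by
    have : (fun σ => f σ * g σ) = fun σ => ∑ i, (α i / r) * (f σ * sg (σ i)) := by
      funext σ
      simp only [hg, Finset.mul_sum]
      refine Finset.sum_congr rfl fun i _ => ?_
      ring
    rw [this, avg_sum]
    simp_rw [avg_mul_left]
    have h2 : ∀ i, α i / r * avg (fun σ => f σ * sg (σ i)) = (α i ^ 2) / r := by
      intro i
      have : avg (fun σ => f σ * sg (σ i)) = α i := rfl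
      rw [this]; ring
    simp_rw [h2]
    rw [← Finset.sum_div, ← hrr]
    field_simp
  set hh : (ι → Bool) → ℝ := fun σ => if t < |g σ| then |g σ| else 0 with hhh
  have h2 : ∀ σ, f σ * g σ ≤ t * |f σ| + |f σ| * hh σ := by
    intro σ
    have h3 : f σ * g σ ≤ |f σ| * |g σ| := by
      rw [← abs_mul]; exact le_abs_self _
    simp only [hhh]
    split_ifs with h
    · have : 0 ≤ t * |f σ| := by positivity
      linarith
    · push Not at h
      have : |f σ| * |g σ| ≤ |f σ| * t := mul_le_mul_of_nonneg_left h (abs_nonneg _)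
      nlinarith
  have h3 : r ≤ t * avg (fun σ => |f σ|) + avg (fun σ => |f σ| * hh σ) := by
    rw [← h1, ← avg_mul_left, ← avg_add]
    exact avg_mono h2
  have h4 : avg (fun σ => hh σ ^ 2) ≤ (64 / t ^ 2) * Real.exp (- (t ^ 2 / 8)) := by
    have hsum : ∑ i, (α i / r) ^ 2 = 1 := by
      simp_rw [div_pow]
      rw [← Finset.sum_div, ← hrr]
      field_simp
    have e1 : avg (fun σ => Real.exp (t / 2 * g σ)) ≤ Real.exp (t ^ 2 / 8) := by
      have := mgf (fun i => t / 2 * (α i / r))
      have e : ∑ i, (t / 2 * (α i / r)) ^ 2 = t ^ 2 / 4 := by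
        simp_rw [mul_pow]
        rw [← Finset.mul_sum, hsum]; ring
      rw [e] at this
      have e' : (fun σ => Real.exp (t / 2 * g σ)) =
          fun σ : ι → Bool => Real.exp (∑ i, t / 2 * (α i / r) * sg (σ i)) := by
        funext σ
        simp only [hg, Finset.mul_sum, mul_assoc]
      rw [e']
      refine this.trans (le_of_eq ?_)
      congr 1; ring
    have e2 : avg (fun σ => Real.exp (- (t / 2) * g σ)) ≤ Real.exp (t ^ 2 / 8) := by
      have := mgf (fun i => - (t / 2) * (α i / r))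
      have e : ∑ i, (- (t / 2) * (α i / r)) ^ 2 = t ^ 2 / 4 := by
        simp_rw [mul_pow]
        rw [← Finset.mul_sum, hsum]; ring
      rw [e] at this
      have e' : (fun σ => Real.exp (- (t / 2) * g σ)) =
          fun σ : ι → Bool => Real.exp (∑ i, - (t / 2) * (α i / r) * sg (σ i)) := by
        funext σ
        simp only [hg, Finset.mul_sum, mul_assoc]
      rw [e']
      refine this.trans (le_of_eq ?_)
      congr 1; ring
    calc avg (fun σ => hh σ ^ 2)
        ≤ avg (fun σ => (32 / t ^ 2) * Real.exp (- (t ^ 2 / 4)) *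
            (Real.exp (t / 2 * g σ) + Real.exp (- (t / 2) * g σ))) :=
          avg_mono fun σ => pointwise_tail t (g σ) ht
      _ = (32 / t ^ 2) * Real.exp (- (t ^ 2 / 4)) *
            (avg (fun σ => Real.exp (t / 2 * g σ)) +
              avg (fun σ => Real.exp (- (t / 2) * g σ))) := by
          rw [avg_mul_left, avg_add]
      _ ≤ (32 / t ^ 2) * Real.exp (- (t ^ 2 / 4)) *
            (Real.exp (t ^ 2 / 8) + Real.exp (t ^ 2 / 8)) := by
          apply mul_le_mul_of_nonneg_left (add_le_add e1 e2)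
          have := Real.exp_pos (- (t ^ 2 / 4))
          positivity
      _ = (64 / t ^ 2) * (Real.exp (- (t ^ 2 / 4)) * Real.exp (t ^ 2 / 8)) := by ring
      _ = (64 / t ^ 2) * Real.exp (- (t ^ 2 / 8)) := by
          rw [← Real.exp_add]; congr 2; ring
  have h5 : avg (fun σ => |f σ| * hh σ) ≤
      (8 / t) * Real.exp (- (t ^ 2 / 16)) * Real.sqrt (avg (fun σ => f σ ^ 2)) := by
    have hcs := avg_mul_sq_le (fun σ => |f σ|) hh
    simp only [sq_abs] at hcs
    have hf0 : 0 ≤ avg (fun σ => f σ ^ 2) := avg_nonneg fun σ => sq_nonneg _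
    have h6 : (avg (fun σ => |f σ| * hh σ)) ^ 2 ≤
        ((8 / t) * Real.exp (- (t ^ 2 / 16)) * Real.sqrt (avg (fun σ => f σ ^ 2))) ^ 2 := by
      rw [mul_pow, mul_pow, Real.sq_sqrt hf0, ← Real.exp_nat_mul]
      calc (avg (fun σ => |f σ| * hh σ)) ^ 2
          ≤ avg (fun σ => f σ ^ 2) * avg (fun σ => hh σ ^ 2) := hcs
        _ ≤ avg (fun σ => f σ ^ 2) * ((64 / t ^ 2) * Real.exp (- (t ^ 2 / 8))) :=
          mul_le_mul_of_nonneg_left h4 hf0
        _ = (8 / t) ^ 2 * Real.exp (((2 : ℕ) : ℝ) * - (t ^ 2 / 16)) *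
            avg (fun σ => f σ ^ 2) := by
          have : ((2 : ℕ) : ℝ) * - (t ^ 2 / 16) = - (t ^ 2 / 8) := by push_cast; ring
          rw [this, div_pow]; ring
    refine le_of_sq_le_sq h6 ?_
    have := Real.exp_pos (- (t ^ 2 / 16))
    positivity
  linarith

end Pool.Agent.Helper56.Cube
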