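import Pool.Agent.Helper56.Cube

set_option autoImplicit false
set_option linter.unusedSectionVars false

namespace Pool.Agent.Helper56.Cube

open Finset

variable {ι : Type*} [Fintype ι] [DecidableEq ι]

lemma exp_bound_512 : (512 : ℝ) ≤ Real.exp (25 / 4) := by
  have h := Real.log_two_lt_d9
  have h2 : (512 : ℝ) = Real.exp (9 * Real.log 2) := by
    have : (9 : ℝ) * Real.log 2 = Real.log (2 ^ 9) := by
      rw [Real.log_pow]; norm_num
    rw [this, Real.exp_log (by norm_num)]; norm_num
  rw [h2]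
  apply Real.exp_le_exp.mpr
  linarith

lemma card_low (d : ℕ) (hk : Fintype.card ι = 3200 * d) :
    (((Finset.univ : Finset (Finset ι)).filter (fun S => S.card ≤ d)).card : ℝ) ≤
      Real.exp ((Fintype.card ι : ℝ) / 256) := by
  set x : ℝ := 1 / 512 with hx
  have hx0 : 0 < x := by norm_num [hx]
  have hx1 : x ≤ 1 := by norm_num [hx]
  have h1 : (((Finset.univ : Finset (Finset ι)).filter (fun S => S.card ≤ d)).card : ℝ) * x ^ d ≤
      (1 + x) ^ (Fintype.card ι) := by
    have h2 : (1 + x) ^ (Fintype.card ι) = ∑ S : Finset ι, x ^ S.card := by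
      have := Finset.prod_one_add (s := (Finset.univ : Finset ι)) (f := fun _ => x)
      simp only [Finset.prod_const, Finset.card_univ, Finset.powerset_univ] at this
      exact this
    rw [h2]
    calc (((Finset.univ : Finset (Finset ι)).filter (fun S => S.card ≤ d)).card : ℝ) * x ^ d
        = ∑ S ∈ (Finset.univ : Finset (Finset ι)).filter (fun S => S.card ≤ d), x ^ d := by
          rw [Finset.sum_const, nsmul_eq_mul]
      _ ≤ ∑ S ∈ (Finset.univ : Finset (Finset ι)).filter (fun S => S.card ≤ d), x ^ S.card := by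
          refine Finset.sum_le_sum fun S hS => ?_
          rw [Finset.mem_filter] at hS
          exact pow_le_pow_of_le_one hx0.le hx1 hS.2
      _ ≤ ∑ S : Finset ι, x ^ S.card :=
          Finset.sum_le_sum_of_subset_of_nonneg (Finset.filter_subset _ _)
            (fun S _ _ => by positivity)
  have h3 : (1 + x) ^ (Fintype.card ι) ≤ Real.exp ((Fintype.card ι : ℝ) / 512) := by
    have h4 : 1 + x ≤ Real.exp (1 / 512) := by
      rw [hx]; have := Real.add_one_le_exp (1 / 512 : ℝ); linarith
    calc (1 + x) ^ (Fintype.card ι) ≤ (Real.exp (1 / 512)) ^ (Fintype.card ι) :=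
          pow_le_pow_left₀ (by positivity) h4 _
      _ = Real.exp ((Fintype.card ι : ℝ) / 512) := by
          rw [← Real.exp_nat_mul]; congr 1; ring
  have h5 : (1 : ℝ) ≤ x ^ d * Real.exp ((Fintype.card ι : ℝ) / 512) := by
    have h6 : Real.exp ((Fintype.card ι : ℝ) / 512) = (Real.exp (25 / 4)) ^ d := by
      rw [← Real.exp_nat_mul, hk]; congr 1; push_cast; ring
    rw [h6, ← mul_pow]
    apply one_le_pow₀
    have := exp_bound_512
    rw [hx]; linarith
  have h7 : (0 : ℝ) ≤ (((Finset.univ : Finset (Finset ι)).filter (fun S => S.card ≤ d)).card : ℝ) :=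
    Nat.cast_nonneg _
  calc (((Finset.univ : Finset (Finset ι)).filter (fun S => S.card ≤ d)).card : ℝ)
      ≤ (((Finset.univ : Finset (Finset ι)).filter (fun S => S.card ≤ d)).card : ℝ) *
          (x ^ d * Real.exp ((Fintype.card ι : ℝ) / 512)) := le_mul_of_one_le_right h7 h5
    _ = ((((Finset.univ : Finset (Finset ι)).filter (fun S => S.card ≤ d)).card : ℝ) * x ^ d) *
          Real.exp ((Fintype.card ι : ℝ) / 512) := by ring
    _ ≤ Real.exp ((Fintype.card ι : ℝ) / 512) * Real.exp ((Fintype.card ι : ℝ) / 512) :=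
        mul_le_mul_of_nonneg_right (h1.trans h3) (Real.exp_pos _).le
    _ = Real.exp ((Fintype.card ι : ℝ) / 256) := by
        rw [← Real.exp_add]; congr 1; ring

/-- the part of the derivative coming from the nonlinear part of `f` -/
lemma sum_avg_nonlin (f : (ι → Bool) → ℝ) :
    ∑ i, avg (fun σ => (D i f σ - avg (fun τ => f τ * sg (τ i)) * sg (σ i)) ^ 2)
      = ∑ S : Finset ι, (S.card : ℝ) * fc f S ^ 2 -
        ∑ S ∈ (Finset.univ : Finset (Finset ι)).filter (fun S => S.card = 1), fc f S ^ 2 := by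
  have h1 : ∀ i, avg (fun σ => (D i f σ - avg (fun τ => f τ * sg (τ i)) * sg (σ i)) ^ 2)
      = avg (fun σ => (D i f σ) ^ 2) - fc f {i} ^ 2 := by
    intro i
    set a := avg (fun τ => f τ * sg (τ i)) with ha
    have hD : avg (fun σ => D i f σ * sg (σ i)) = a := by
      have := fc_D i f {i}
      rw [fc_singleton, fc_singleton] at this
      simpa using this
    have h2 : (fun σ => (D i f σ - a * sg (σ i)) ^ 2)
        = fun σ => (D i f σ ^ 2 - (2 * a) * (D i f σ * sg (σ i))) + a ^ 2 := by
      funext σ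
      have := sg_sq (σ i)
      calc (D i f σ - a * sg (σ i)) ^ 2
          = D i f σ ^ 2 - (2 * a) * (D i f σ * sg (σ i)) + a ^ 2 * sg (σ i) ^ 2 := by ring
        _ = _ := by rw [this]; ring
    rw [h2, avg_add, avg_sub, avg_mul_left, hD, avg_const, fc_singleton, ← ha]
    ring
  simp_rw [h1]
  rw [Finset.sum_sub_distrib, sum_avg_D_sq, sum_singletons (fun S => fc f S ^ 2)]

/-- Dichotomy, first alternative: comparatively flat functions have small level one part. -/
lemma flat_case (f : (ι → Bool) → ℝ) (hk : 128 ≤ Fintype.card ι)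
    (h : avg (fun σ => f σ ^ 2) ≤
      Real.exp ((Fintype.card ι : ℝ) / 128) * (avg (fun σ => |f σ|)) ^ 2) :
    ∑ i, (avg (fun σ => f σ * sg (σ i))) ^ 2 ≤
      ((Fintype.card ι : ℝ) / 4) * (avg (fun σ => |f σ|)) ^ 2 := by
  set k : ℝ := (Fintype.card ι : ℝ) with hkk
  have hk' : (128 : ℝ) ≤ k := by rw [hkk]; exact_mod_cast hk
  have hk0 : 0 < k := by linarith
  have hs0 : 0 < Real.sqrt k := Real.sqrt_pos.mpr hk0
  have hss : Real.sqrt k * Real.sqrt k = k := Real.mul_self_sqrt hk0.le
  set M := avg (fun σ => |f σ|) with hM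
  have hM0 : 0 ≤ M := avg_nonneg fun σ => abs_nonneg _
  have h1 := level_one f (Real.sqrt k / 4) (by positivity)
  rw [← hM] at h1
  have h2 : Real.sqrt (avg (fun σ => f σ ^ 2)) ≤ Real.exp (k / 256) * M := by
    rw [Real.sqrt_le_left (by positivity)]
    refine h.trans (le_of_eq ?_)
    rw [mul_pow, ← Real.exp_nat_mul]
    congr 2; push_cast; ring
  have h3 : 8 / (Real.sqrt k / 4) * Real.exp (- ((Real.sqrt k / 4) ^ 2 / 16)) *
      Real.sqrt (avg (fun σ => f σ ^ 2)) ≤ (32 / Real.sqrt k) * M := by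
    have e1 : (Real.sqrt k / 4) ^ 2 / 16 = k / 256 := by
      rw [div_pow, sq, hss]; ring
    rw [e1]
    have e2 : 8 / (Real.sqrt k / 4) = 32 / Real.sqrt k := by field_simp; norm_num
    rw [e2]
    calc 32 / Real.sqrt k * Real.exp (-(k / 256)) * Real.sqrt (avg (fun σ => f σ ^ 2))
        ≤ 32 / Real.sqrt k * Real.exp (-(k / 256)) * (Real.exp (k / 256) * M) :=
          mul_le_mul_of_nonneg_left h2 (by have := Real.exp_pos (-(k / 256)); positivity)
      _ = 32 / Real.sqrt k * M * (Real.exp (-(k / 256)) * Real.exp (k / 256)) := by ring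
      _ = (32 / Real.sqrt k) * M := by
          rw [← Real.exp_add]; simp
  have h4 : 32 / Real.sqrt k ≤ Real.sqrt k / 4 := by
    rw [div_le_div_iff₀ hs0 (by norm_num)]
    nlinarith
  have h5 : Real.sqrt (∑ i, (avg (fun σ => f σ * sg (σ i))) ^ 2) ≤ (Real.sqrt k / 2) * M := by
    calc Real.sqrt (∑ i, (avg (fun σ => f σ * sg (σ i))) ^ 2)
        ≤ Real.sqrt k / 4 * M + (32 / Real.sqrt k) * M := by linarith
      _ ≤ Real.sqrt k / 4 * M + (Real.sqrt k / 4) * M := by
          have := mul_le_mul_of_nonneg_right h4 hM0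
          linarith
      _ = _ := by ring
  have h6 : ∑ i, (avg (fun σ => f σ * sg (σ i))) ^ 2 ≤ ((Real.sqrt k / 2) * M) ^ 2 := by
    have h0 : (0:ℝ) ≤ ∑ i, (avg (fun σ => f σ * sg (σ i))) ^ 2 :=
      Finset.sum_nonneg fun i _ => sq_nonneg _
    rw [← Real.sq_sqrt h0]
    exact pow_le_pow_left₀ (Real.sqrt_nonneg _) h5 2
  refine h6.trans (le_of_eq ?_)
  rw [mul_pow, div_pow, sq (Real.sqrt k), hss]; ring

/-- Dichotomy, second alternative: peaky functions have a lot of nonlinear influence. -/
lemma peaky_case (f : (ι → Bool) → ℝ) (d : ℕ) (hd : 1 ≤ d) (hk : Fintype.card ι = 3200 * d)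
    (h : Real.exp ((Fintype.card ι : ℝ) / 128) * (avg (fun σ => |f σ|)) ^ 2
      < avg (fun σ => f σ ^ 2)) :
    ((d : ℝ) / 2) * avg (fun σ => f σ ^ 2) ≤
      ∑ i, avg (fun σ => (D i f σ - avg (fun τ => f τ * sg (τ i)) * sg (σ i)) ^ 2) := by
  rw [sum_avg_nonlin]
  set k : ℝ := (Fintype.card ι : ℝ) with hkk
  set M := avg (fun σ => |f σ|) with hM
  have hM0 : 0 ≤ M := avg_nonneg fun σ => abs_nonneg _
  set M2 := avg (fun σ => f σ ^ 2) with hM2
  have hM20 : 0 ≤ M2 := avg_nonneg fun σ => sq_nonneg _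
  have hk' : (3200 : ℝ) ≤ k := by
    rw [hkk, hk]; push_cast
    have : (1 : ℝ) ≤ d := by exact_mod_cast hd
    linarith
  -- low part
  have hlow : ∑ S ∈ (Finset.univ : Finset (Finset ι)).filter (fun S => S.card ≤ d), fc f S ^ 2
      ≤ M2 / 2 := by
    have h1 : ∑ S ∈ (Finset.univ : Finset (Finset ι)).filter (fun S => S.card ≤ d), fc f S ^ 2
        ≤ (((Finset.univ : Finset (Finset ι)).filter (fun S => S.card ≤ d)).card : ℝ) * M ^ 2 := by
      rw [← nsmul_eq_mul, ← Finset.sum_const]
      refine Finset.sum_le_sum fun S _ => ?_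
      rw [← sq_abs]
      exact pow_le_pow_left₀ (abs_nonneg _) (abs_fc_le f S) 2
    have h2 := card_low d hk
    rw [← hkk] at h2
    have h3 : Real.exp (k / 256) * M ^ 2 ≤ M2 / 2 := by
      have h4 : (2 : ℝ) ≤ Real.exp (k / 256) := by
        have := Real.add_one_le_exp (k / 256)
        linarith
      have h5 : Real.exp (k / 128) = Real.exp (k / 256) * Real.exp (k / 256) := by
        rw [← Real.exp_add]; congr 1; ring
      rw [h5] at h
      have h6 : 0 ≤ Real.exp (k / 256) * M ^ 2 := by positivity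
      nlinarith
    calc _ ≤ (((Finset.univ : Finset (Finset ι)).filter (fun S => S.card ≤ d)).card : ℝ) * M ^ 2 := h1
      _ ≤ Real.exp (k / 256) * M ^ 2 := mul_le_mul_of_nonneg_right h2 (sq_nonneg _)
      _ ≤ M2 / 2 := h3
  have hpars := parseval f
  rw [← hM2] at hpars
  have hsplit : ∑ S ∈ (Finset.univ : Finset (Finset ι)).filter (fun S => S.card ≤ d), fc f S ^ 2 +
      ∑ S ∈ (Finset.univ : Finset (Finset ι)).filter (fun S => ¬ S.card ≤ d), fc f S ^ 2 = M2 := by
    rw [Finset.sum_filter_add_sum_filter_not, hpars]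
  have hhigh : M2 / 2 ≤
      ∑ S ∈ (Finset.univ : Finset (Finset ι)).filter (fun S => ¬ S.card ≤ d), fc f S ^ 2 := by
    linarith
  have hmain : (d : ℝ) *
      ∑ S ∈ (Finset.univ : Finset (Finset ι)).filter (fun S => ¬ S.card ≤ d), fc f S ^ 2 +
      ∑ S ∈ (Finset.univ : Finset (Finset ι)).filter (fun S => S.card = 1), fc f S ^ 2 ≤
      ∑ S : Finset ι, (S.card : ℝ) * fc f S ^ 2 := by
    rw [← Finset.sum_filter_add_sum_filter_not (Finset.univ : Finset (Finset ι))
      (fun S => S.card ≤ d) (fun S => (S.card : ℝ) * fc f S ^ 2), add_comm]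
    apply add_le_add
    · calc ∑ S ∈ (Finset.univ : Finset (Finset ι)).filter (fun S => S.card = 1), fc f S ^ 2
          = ∑ S ∈ (Finset.univ : Finset (Finset ι)).filter (fun S => S.card = 1),
              (S.card : ℝ) * fc f S ^ 2 := by
            refine Finset.sum_congr rfl fun S hS => ?_
            rw [Finset.mem_filter] at hS
            rw [hS.2]; simp
        _ ≤ ∑ S ∈ (Finset.univ : Finset (Finset ι)).filter (fun S => S.card ≤ d),
              (S.card : ℝ) * fc f S ^ 2 := by
            apply Finset.sum_le_sum_of_subset_of_nonneg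
            · intro S hS
              rw [Finset.mem_filter] at hS ⊢
              exact ⟨hS.1, by omega⟩
            · intro S _ _
              positivity
    · rw [Finset.mul_sum]
      refine Finset.sum_le_sum fun S hS => ?_
      rw [Finset.mem_filter] at hS
      apply mul_le_mul_of_nonneg_right _ (sq_nonneg _)
      have : d ≤ S.card := by omega
      exact_mod_cast this
  have hd0 : (0 : ℝ) ≤ d := Nat.cast_nonneg _
  have := mul_le_mul_of_nonneg_left hhigh hd0
  linarith

end Pool.Agent.Helper56.Cube
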