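import Pool.Agent.Helper56.Gauss2

set_option autoImplicit false
set_option linter.unusedSectionVars false

namespace Pool.Agent.Helper56.Cube

open Finset MeasureTheory ProbabilityTheory

variable {n N : ℕ}

/-! ### Elementary facts on quadratic expressions -/

lemma ip_smul (c : ℝ) (z x : Fin n → ℝ) : ip (c • z) x = c * ip z x := by
  simp [ip, Finset.mul_sum, mul_assoc]

lemma nsq_smul {κ : Type*} [Fintype κ] (c : ℝ) (z : κ → ℝ) : nsq (c • z) = c ^ 2 * nsq z := by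
  simp [nsq, Finset.mul_sum, mul_pow]

lemma ip_sub (z z' x : Fin n → ℝ) : ip (z - z') x = ip z x - ip z' x := by
  simp [ip, sub_mul, Finset.sum_sub_distrib]

lemma exists_unit {κ : Type*} [Fintype κ] (z : κ → ℝ) (hz : 0 < nsq z) :
    ∃ c : ℝ, ∃ w : κ → ℝ, nsq w = 1 ∧ z = c • w ∧ c ^ 2 = nsq z := by
  have hs : 0 < Real.sqrt (nsq z) := Real.sqrt_pos.mpr hz
  refine ⟨Real.sqrt (nsq z), (Real.sqrt (nsq z))⁻¹ • z, ?_, ?_, Real.sq_sqrt hz.le⟩
  · rw [nsq_smul, inv_pow, Real.sq_sqrt hz.le, inv_mul_cancel₀ hz.ne']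
  · rw [smul_smul, mul_inv_cancel₀ hs.ne', one_smul]

lemma net_to_all (g : Fin N → Fin n → ℝ) (J : Finset (Fin N)) (T : Finset (Fin n → ℝ))
    (hT : ∀ x : Fin n → ℝ, nsq x = 1 → ∃ c ∈ T, nsq (x - c) ≤ (1 / 2) ^ 2) (B : ℝ)
    (h : ∀ c ∈ T, ∑ j ∈ J, ip c (g j) ^ 2 ≤ B) (z : Fin n → ℝ) :
    ∑ j ∈ J, ip z (g j) ^ 2 ≤ 4 * B * nsq z := by
  set F : (Fin n → ℝ) → ℝ := fun z => ∑ j ∈ J, ip z (g j) ^ 2 with hF
  have hFs : ∀ (c : ℝ) z, F (c • z) = c ^ 2 * F z := by
    intro c z; simp only [hF, ip_smul, mul_pow, Finset.mul_sum]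
  have hFle : ∀ z, F z ≤ nsq z * ∑ j ∈ J, nsq (g j) := by
    intro z
    simp only [hF]
    rw [Finset.mul_sum]
    exact Finset.sum_le_sum fun j _ => ip_sq_le z (g j)
  have hF0 : ∀ z, 0 ≤ F z := fun z => Finset.sum_nonneg fun _ _ => sq_nonneg _
  have hFz : ∀ z, nsq z = 0 → F z = 0 := by
    intro z hz
    have h1 := hFle z
    rw [hz, zero_mul] at h1
    exact le_antisymm h1 (hF0 z)
  rcases (nsq_nonneg z).eq_or_lt with h0 | hpos
  · have := hFz z h0.symm
    show F z ≤ _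
    rw [this, ← h0]; simp
  obtain ⟨c0, w, hw, hzw, hc0⟩ := exists_unit z hpos
  set U : Set ℝ := F '' {z | nsq z = 1} with hU
  have hUb : BddAbove U := by
    refine ⟨∑ j ∈ J, nsq (g j), ?_⟩
    rintro _ ⟨v, hv, rfl⟩
    have h1 := hFle v
    have hv' : nsq v = 1 := hv
    rw [hv', one_mul] at h1
    exact h1
  have hUne : U.Nonempty := ⟨F w, w, hw, rfl⟩
  set S := sSup U with hS
  have hFS : ∀ v, F v ≤ S * nsq v := by
    intro v
    rcases (nsq_nonneg v).eq_or_lt with h0 | hv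
    · rw [hFz v h0.symm, ← h0]; simp
    · obtain ⟨c, v', hv', hvv', hc⟩ := exists_unit v hv
      rw [hvv', hFs, nsq_smul, hv', mul_one, mul_comm]
      exact mul_le_mul_of_nonneg_right (le_csSup hUb ⟨v', hv', rfl⟩) (sq_nonneg _)
  have hSle : S ≤ 2 * B + S / 2 := by
    apply csSup_le hUne
    rintro _ ⟨v, hv, rfl⟩
    obtain ⟨c, hc, hcv⟩ := hT v hv
    have h1 : F v ≤ 2 * F c + 2 * F (v - c) := by
      simp only [hF]
      rw [Finset.mul_sum, Finset.mul_sum, ← Finset.sum_add_distrib]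
      refine Finset.sum_le_sum fun j _ => ?_
      rw [ip_sub]
      nlinarith [sq_nonneg (ip c (g j) - (ip v (g j) - ip c (g j)))]
    have h2 := h c hc
    have h3 := hFS (v - c)
    have hS0 : 0 ≤ S := (hF0 w).trans (le_csSup hUb ⟨w, hw, rfl⟩)
    have h4 : S * nsq (v - c) ≤ S * (1 / 2) ^ 2 := mul_le_mul_of_nonneg_left hcv hS0
    have h2' : F c ≤ B := h2
    linarith
  have hS4 : S ≤ 4 * B := by linarith
  calc F z ≤ S * nsq z := hFS z
    _ ≤ 4 * B * nsq z := mul_le_mul_of_nonneg_right hS4 (nsq_nonneg z)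

/-- nets of the sphere of vectors supported in `J` -/
theorem net_supp (J : Finset (Fin N)) (δ : ℝ) (hδ : 0 < δ) :
    ∃ T : Finset (Fin N → ℝ), (T.card : ℝ) ≤ (1 + 2 / δ) ^ J.card ∧
      (∀ c ∈ T, nsq c = 1 ∧ ∀ j, j ∉ J → c j = 0) ∧
      ∀ u : Fin N → ℝ, nsq u = 1 → (∀ j, j ∉ J → u j = 0) → ∃ c ∈ T, nsq (u - c) ≤ δ ^ 2 := by
  classical
  obtain ⟨T, h1, h2, h3⟩ := net_exists (E := EuclideanSpace ℝ J) δ hδ
  rw [finrank_euclideanSpace, Fintype.card_coe] at h1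
  set ex : EuclideanSpace ℝ J → (Fin N → ℝ) := fun x j => if h : j ∈ J then x ⟨j, h⟩ else 0 with hex
  have hnsq : ∀ v : Fin N → ℝ, (∀ j, j ∉ J → v j = 0) →
      nsq v = ‖(WithLp.toLp 2 (fun j : J => v j) : EuclideanSpace ℝ J)‖ ^ 2 := by
    intro v hv
    rw [EuclideanSpace.real_norm_sq_eq]
    simp only
    rw [Finset.sum_coe_sort J (fun j => v j ^ 2), nsq]
    symm
    apply Finset.sum_subset (Finset.subset_univ J)
    intro j _ hj
    rw [hv j hj]; norm_num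
  have hexz : ∀ x j, j ∉ J → ex x j = 0 := by
    intro x j hj; simp only [hex, dif_neg hj]
  have hexr : ∀ x, (WithLp.toLp 2 (fun j : J => ex x j) : EuclideanSpace ℝ J) = x := by
    intro x
    ext j
    simp only [hex]
    simp
  refine ⟨T.image ex, ?_, ?_, ?_⟩
  · refine le_trans ?_ h1
    exact_mod_cast Finset.card_image_le
  · intro c hc
    rw [Finset.mem_image] at hc
    obtain ⟨x, hx, rfl⟩ := hc
    refine ⟨?_, hexz x⟩
    rw [hnsq _ (hexz x), hexr, h2 x hx]; norm_num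
  · intro u hu huz
    have hu1 : ‖(WithLp.toLp 2 (fun j : J => u j) : EuclideanSpace ℝ J)‖ = 1 := by
      have h4 := hnsq u huz
      rw [hu] at h4
      have h5 : 0 ≤ ‖(WithLp.toLp 2 (fun j : J => u j) : EuclideanSpace ℝ J)‖ := norm_nonneg _
      nlinarith
    obtain ⟨c, hc, hcx⟩ := h3 _ hu1
    refine ⟨ex c, Finset.mem_image.mpr ⟨c, hc, rfl⟩, ?_⟩
    have hz : ∀ j, j ∉ J → (u - ex c) j = 0 := by
      intro j hj
      rw [Pi.sub_apply, huz j hj, hexz c j hj, sub_zero]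
    rw [hnsq _ hz]
    have h6 : (WithLp.toLp 2 (fun j : J => (u - ex c) j) : EuclideanSpace ℝ J) =
        (WithLp.toLp 2 (fun j : J => u j) : EuclideanSpace ℝ J) - c := by
      conv_rhs => rw [← hexr c]
      rfl
    rw [h6]
    exact pow_le_pow_left₀ (norm_nonneg _) hcx 2

lemma Gm_sparse_upper (g : Fin N → Fin n → ℝ) (J : Finset (Fin N)) (C : ℝ) (hC : 0 ≤ C)
    (hU : ∀ z : Fin n → ℝ, ∑ j ∈ J, ip z (g j) ^ 2 ≤ C * nsq z)
    (w : Fin N → ℝ) (hw : ∀ j, j ∉ J → w j = 0) : nsq (Gm g w) ≤ C * nsq w := by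
  set z := Gm g w with hz
  have h1 : nsq z = ∑ j ∈ J, w j * ip z (g j) := by
    rw [← ip_self z]
    conv_lhs => rw [hz, ip_Gm]
    symm
    apply Finset.sum_subset (Finset.subset_univ J)
    intro j _ hj
    rw [hw j hj, zero_mul]
  have h2 : (nsq z) ^ 2 ≤ nsq w * (C * nsq z) := by
    have h3 : (∑ j ∈ J, w j * ip z (g j)) ^ 2 ≤ nsq w * (C * nsq z) := by
      refine (Finset.sum_mul_sq_le_sq_mul_sq J w _).trans ?_
      apply mul_le_mul _ (hU z) (Finset.sum_nonneg fun _ _ => sq_nonneg _) (nsq_nonneg _)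
      exact Finset.sum_le_sum_of_subset_of_nonneg (Finset.subset_univ _) (fun _ _ _ => sq_nonneg _)
    calc (nsq z) ^ 2 = (∑ j ∈ J, w j * ip z (g j)) ^ 2 := congrArg (fun y => y ^ 2) h1
      _ ≤ _ := h3
  rcases (nsq_nonneg z).eq_or_lt with h0 | hpos
  · rw [← h0]; exact mul_nonneg hC (nsq_nonneg w)
  · have h4 : nsq z * nsq z ≤ nsq z * (C * nsq w) := by nlinarith
    exact le_of_mul_le_mul_left h4 hpos

lemma lower_from_net (g : Fin N → Fin n → ℝ) (J : Finset (Fin N)) (C c : ℝ) (hC : 0 ≤ C)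
    (hU : ∀ z : Fin n → ℝ, ∑ j ∈ J, ip z (g j) ^ 2 ≤ C * nsq z)
    (δ : ℝ) (T : Finset (Fin N → ℝ))
    (hT0 : ∀ v ∈ T, nsq v = 1 ∧ ∀ j, j ∉ J → v j = 0)
    (hT : ∀ u : Fin N → ℝ, nsq u = 1 → (∀ j, j ∉ J → u j = 0) → ∃ v ∈ T, nsq (u - v) ≤ δ ^ 2)
    (hlow : ∀ v ∈ T, 4 * c ≤ nsq (Gm g v)) (hδ : C * δ ^ 2 ≤ c)
    (u : Fin N → ℝ) (hu : ∀ j, j ∉ J → u j = 0) : c * nsq u ≤ nsq (Gm g u) := by
  rcases (nsq_nonneg u).eq_or_lt with h0 | hpos
  · rw [← h0, mul_zero]; exact nsq_nonneg _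
  obtain ⟨a, w, hw, huw, ha⟩ := exists_unit u hpos
  have ha0 : a ≠ 0 := by
    rintro rfl
    rw [← ha] at hpos; simp at hpos
  have hwJ : ∀ j, j ∉ J → w j = 0 := by
    intro j hj
    have := hu j hj
    rw [huw, Pi.smul_apply, smul_eq_mul] at this
    exact (mul_eq_zero.mp this).resolve_left ha0
  obtain ⟨v, hvT, hv⟩ := hT w hw hwJ
  have h1 := hlow v hvT
  have hzJ : ∀ j, j ∉ J → (w - v) j = 0 := by
    intro j hj
    rw [Pi.sub_apply, hwJ j hj, (hT0 v hvT).2 j hj, sub_zero]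
  have h2 := Gm_sparse_upper g J C hC hU (w - v) hzJ
  have h3 : nsq (Gm g (w - v)) ≤ c :=
    h2.trans ((mul_le_mul_of_nonneg_left hv hC).trans hδ)
  have h4 : nsq (Gm g v) ≤ 2 * nsq (Gm g w) + 2 * nsq (Gm g (w - v)) := by
    rw [map_sub]
    simp only [nsq]
    rw [Finset.mul_sum, Finset.mul_sum, ← Finset.sum_add_distrib]
    refine Finset.sum_le_sum fun r _ => ?_
    rw [Pi.sub_apply]
    nlinarith [sq_nonneg (Gm g w r + (Gm g w r - Gm g v r))]
  have h5 : c ≤ nsq (Gm g w) := by linarith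
  rw [huw, map_smul, nsq_smul, nsq_smul, hw]
  nlinarith [sq_nonneg a]

/-! ### The bad events -/

/-- union bound over two finite families -/
lemma union2 {α β Ω : Type*} [MeasurableSpace Ω] (μ : Measure Ω) [IsFiniteMeasure μ]
    (A : Finset α) (B : α → Finset β) (S : α → β → Set Ω) (p q : ℝ) (hp : 0 ≤ p) 
    (hB : ∀ a ∈ A, ((B a).card : ℝ) ≤ q)
    (h : ∀ a ∈ A, ∀ b ∈ B a, μ.real (S a b) ≤ p) :
    μ.real (⋃ a ∈ A, ⋃ b ∈ B a, S a b) ≤ (A.card : ℝ) * (q * p) := by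
  calc μ.real (⋃ a ∈ A, ⋃ b ∈ B a, S a b)
      ≤ ∑ a ∈ A, μ.real (⋃ b ∈ B a, S a b) := measureReal_biUnion_finset_le A _
    _ ≤ ∑ a ∈ A, (q * p) := by
        refine Finset.sum_le_sum fun a ha => ?_
        calc μ.real (⋃ b ∈ B a, S a b) ≤ ∑ b ∈ B a, μ.real (S a b) :=
              measureReal_biUnion_finset_le (B a) _
          _ ≤ ∑ b ∈ B a, p := Finset.sum_le_sum fun b hb => h a ha b hb
          _ = ((B a).card : ℝ) * p := by rw [Finset.sum_const, nsmul_eq_mul]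
          _ ≤ q * p := mul_le_mul_of_nonneg_right (hB a ha) hp
    _ = (A.card : ℝ) * (q * p) := by rw [Finset.sum_const, nsmul_eq_mul]

/-- the half net -/
lemma half_net (n : ℕ) : ∃ T : Finset (Fin n → ℝ), (T.card : ℝ) ≤ 5 ^ n ∧
    (∀ c ∈ T, nsq c = 1) ∧ ∀ x : Fin n → ℝ, nsq x = 1 → ∃ c ∈ T, nsq (x - c) ≤ (1 / 2) ^ 2 := by
  obtain ⟨T, h1, h2, h3⟩ := net_fun n (1 / 2) (by norm_num)
  refine ⟨T, ?_, h2, h3⟩
  refine h1.trans (le_of_eq ?_)
  norm_num

/-- upper estimates for families of columns of a given size -/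
lemma event_upper (n N s : ℕ) (B : ℝ) :
    ∃ E : Set (Fin N → Fin n → ℝ),
      (mu N n).real E ≤ (N.choose s : ℝ) * (5 ^ n * (Real.exp (-(B / 4)) * (Real.sqrt 2) ^ s)) ∧
      ∀ g, g ∉ E → ∀ J : Finset (Fin N), J.card = s → ∀ z : Fin n → ℝ,
        ∑ j ∈ J, ip z (g j) ^ 2 ≤ 4 * B * nsq z := by
  classical
  obtain ⟨T, h1, h2, h3⟩ := half_net n
  refine ⟨⋃ J ∈ Finset.powersetCard s (Finset.univ : Finset (Fin N)), ⋃ c ∈ T,
    {g | B ≤ ∑ j ∈ J, ip c (g j) ^ 2}, ?_, ?_⟩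
  · have h4 := union2 (mu N n) (Finset.powersetCard s (Finset.univ : Finset (Fin N)))
      (fun _ => T) (fun J c => {g | B ≤ ∑ j ∈ J, ip c (g j) ^ 2})
      (Real.exp (-(B / 4)) * (Real.sqrt 2) ^ s) (5 ^ n)
      (by have := Real.exp_pos (-(B / 4)); positivity) (fun _ _ => h1) ?_
    · rw [Finset.card_powersetCard, Finset.card_univ, Fintype.card_fin] at h4
      exact h4
    · intro J hJ c hc
      have h5 := upper_tail c (h2 c hc) J B
      rw [(Finset.mem_powersetCard.mp hJ).2] at h5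
      exact h5
  · intro g hg J hJ z
    apply net_to_all g J T h3 B
    intro c hc
    by_contra hcon
    push Not at hcon
    apply hg
    simp only [Set.mem_iUnion]
    exact ⟨J, Finset.mem_powersetCard.mpr ⟨Finset.subset_univ _, hJ⟩, c, hc, hcon.le⟩

/-- lower estimates for sparse vectors -/
lemma event_lower (n N s : ℕ) (hsN : s ≤ N) :
    ∃ E : Set (Fin N → Fin n → ℝ),
      (mu N n).real E ≤
        (N.choose s : ℝ) * (281 ^ s * (Real.exp ((n : ℝ) / 10) * (1 / 4) ^ n)) ∧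
      ∀ g, g ∉ E → (∀ J : Finset (Fin N), J.card = s → ∀ z : Fin n → ℝ,
        ∑ j ∈ J, ip z (g j) ^ 2 ≤ 64 * n * nsq z) →
        ∀ u : Fin N → ℝ, (Finset.univ.filter (fun j => u j ≠ 0)).card ≤ s →
          ((n : ℝ) / 300) * nsq u ≤ nsq (Gm g u) := by
  classical
  choose T h1 h2 h3 using fun J : Finset (Fin N) => net_supp J (1 / 140) (by norm_num)
  refine ⟨⋃ J ∈ Finset.powersetCard s (Finset.univ : Finset (Fin N)), ⋃ c ∈ T J,
    {g | nsq (Gm g c) ≤ (n : ℝ) / 75}, ?_, ?_⟩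
  · have h4 := union2 (mu N n) (Finset.powersetCard s (Finset.univ : Finset (Fin N)))
      T (fun J c => {g | nsq (Gm g c) ≤ (n : ℝ) / 75})
      (Real.exp ((n : ℝ) / 10) * (1 / 4) ^ n) (281 ^ s)
      (by have := Real.exp_pos ((n : ℝ) / 10); positivity) ?_ ?_
    · rw [Finset.card_powersetCard, Finset.card_univ, Fintype.card_fin] at h4
      exact h4
    · intro J hJ
      have h5 := h1 J
      rw [(Finset.mem_powersetCard.mp hJ).2] at h5
      refine h5.trans (le_of_eq ?_)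
      norm_num
    · intro J hJ c hc
      have h5 := lower_tail (n := n) c (h2 J c hc).1 ((n : ℝ) / 75)
      refine h5.trans (le_of_eq ?_)
      congr 2; ring
  · intro g hg hU u hu
    obtain ⟨J, hJsub, hJcard⟩ := Finset.exists_superset_card_eq hu
      (by simpa using hsN)
    have huJ : ∀ j, j ∉ J → u j = 0 := by
      intro j hj
      by_contra hne
      exact hj (hJsub (by simp [hne]))
    apply lower_from_net g J (64 * n) ((n : ℝ) / 300) (by positivity) (hU J hJcard) (1 / 140)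
      (T J) (h2 J) (h3 J) ?_ ?_ u huJ
    · intro v hv
      by_contra hcon
      push Not at hcon
      apply hg
      simp only [Set.mem_iUnion]
      refine ⟨J, Finset.mem_powersetCard.mpr ⟨Finset.subset_univ _, hJcard⟩, v, hv, ?_⟩
      show nsq (Gm g v) ≤ (n : ℝ) / 75
      linarith
    · have : (0 : ℝ) ≤ n := Nat.cast_nonneg _
      nlinarith

/-- inradius of the polytope -/
lemma event_inradius (n N : ℕ) (y : ℝ) (hy : 12 ≤ y) :
    ∃ E : Set (Fin N → Fin n → ℝ),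
      (mu N n).real E ≤ (1 + 200 * Real.exp (y / 8)) ^ n *
        Real.exp (-((1 / 32) * Real.exp (-(y / 4)) * N)) ∧
      (0 < N → ∀ g, g ∉ E → (∀ z : Fin n → ℝ, ∑ j, ip z (g j) ^ 2 ≤ 64 * N * nsq z) →
        ∀ z : Fin n → ℝ, ∃ j, (y / 16) * nsq z ≤ ip z (g j) ^ 2) := by
  classical
  set δ : ℝ := 1 / (100 * Real.exp (y / 8)) with hδ
  have he := Real.exp_pos (y / 8)
  have hδ0 : 0 < δ := by positivity
  obtain ⟨T, h1, h2, h3⟩ := net_fun n δ hδ0
  set x0 : ℝ := Real.sqrt y / 2 with hx0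
  have hx00 : 0 ≤ x0 := by positivity
  have hx0sq : x0 ^ 2 = y / 4 := by
    rw [hx0, div_pow, Real.sq_sqrt (by linarith)]; norm_num
  set m : ℝ := (1 / 32) * Real.exp (-(y / 4)) * N with hm
  refine ⟨⋃ c ∈ T, {g | cnt x0 c g ≤ m}, ?_, ?_⟩
  · have hcard : (T.card : ℝ) ≤ (1 + 200 * Real.exp (y / 8)) ^ n := by
      refine h1.trans (le_of_eq ?_)
      congr 2
      rw [hδ]; field_simp; norm_num
    calc (mu N n).real (⋃ c ∈ T, {g | cnt x0 c g ≤ m})
        ≤ ∑ c ∈ T, (mu N n).real {g | cnt x0 c g ≤ m} := measureReal_biUnion_finset_le T _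
      _ ≤ ∑ c ∈ T, Real.exp (-m) := by
          refine Finset.sum_le_sum fun c hc => ?_
          refine (count_tail c (h2 c hc) x0 hx00 m).trans (le_of_eq ?_)
          rw [hx0sq]
          congr 1
          rw [hm]; ring
      _ = (T.card : ℝ) * Real.exp (-m) := by rw [Finset.sum_const, nsmul_eq_mul]
      _ ≤ (1 + 200 * Real.exp (y / 8)) ^ n * Real.exp (-m) :=
          mul_le_mul_of_nonneg_right hcard (Real.exp_pos _).le
  · intro hN g hg hO z
    have hNpos : (0 : ℝ) < N := by exact_mod_cast hN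
    have hNne : Nonempty (Fin N) := ⟨⟨0, hN⟩⟩
    rcases (nsq_nonneg z).eq_or_lt with h0 | hpos
    · refine ⟨hNne.some, ?_⟩
      rw [← h0, mul_zero]; exact sq_nonneg _
    obtain ⟨a, w, hw, hzw, ha⟩ := exists_unit z hpos
    obtain ⟨c, hcT, hcw⟩ := h3 w hw
    have hcnt : m < cnt x0 c g := by
      by_contra hcon
      push Not at hcon
      apply hg
      simp only [Set.mem_iUnion]
      exact ⟨c, hcT, hcon⟩
    -- columns on which the difference is large
    set D : Finset (Fin N) := Finset.univ.filter (fun j => x0 / 2 ≤ |ip (w - c) (g j)|) with hD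
    set K : Finset (Fin N) := Finset.univ.filter (fun j => x0 ≤ |ip c (g j)|) with hK
    have hKcard : cnt x0 c g = (K.card : ℝ) := by
      simp only [cnt, hK]
      rw [Finset.sum_boole]
    have hDcard : (D.card : ℝ) ≤ m := by
      have h5 : (D.card : ℝ) * (x0 / 2) ^ 2 ≤ 64 * N * δ ^ 2 := by
        calc (D.card : ℝ) * (x0 / 2) ^ 2 = ∑ j ∈ D, (x0 / 2) ^ 2 := by
              rw [Finset.sum_const, nsmul_eq_mul]
          _ ≤ ∑ j ∈ D, ip (w - c) (g j) ^ 2 := by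
              refine Finset.sum_le_sum fun j hj => ?_
              rw [hD, Finset.mem_filter] at hj
              rw [← sq_abs (ip (w - c) (g j))]
              exact pow_le_pow_left₀ (by positivity) hj.2 2
          _ ≤ ∑ j, ip (w - c) (g j) ^ 2 :=
              Finset.sum_le_sum_of_subset_of_nonneg (Finset.subset_univ _) (fun _ _ _ => sq_nonneg _)
          _ ≤ 64 * N * nsq (w - c) := hO _
          _ ≤ 64 * N * δ ^ 2 := mul_le_mul_of_nonneg_left hcw (by positivity)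
      have h6 : (x0 / 2) ^ 2 = y / 16 := by rw [div_pow, hx0sq]; ring
      have h7 : δ ^ 2 = (1 / 10000) * Real.exp (-(y / 4)) := by
        rw [hδ, div_pow, mul_pow, ← Real.exp_nat_mul, Real.exp_neg]
        have : ((2 : ℕ) : ℝ) * (y / 8) = y / 4 := by push_cast; ring
        rw [this]; ring
      rw [h6, h7] at h5
      have hE := Real.exp_pos (-(y / 4))
      have hDc : (0 : ℝ) ≤ (D.card : ℝ) := Nat.cast_nonneg _
      rw [hm]
      have h8 : (D.card : ℝ) * (12 / 16) ≤ (D.card : ℝ) * (y / 16) := by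
        apply mul_le_mul_of_nonneg_left _ hDc
        linarith
      have h9 : 64 * (N : ℝ) * ((1 / 10000) * Real.exp (-(y / 4))) =
        (64 / 10000) * (N * Real.exp (-(y / 4))) := by ring
      rw [h9] at h5
      have h10 : (1 / 32) * Real.exp (-(y / 4)) * (N : ℝ) = (1 / 32) * (N * Real.exp (-(y / 4))) := by
        ring
      rw [h10]
      have h11 : 0 < (N : ℝ) * Real.exp (-(y / 4)) := by positivity
      nlinarith
    have hex : ∃ j ∈ K, j ∉ D := by
      by_contra hcon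
      push Not at hcon
      have : K.card ≤ D.card := Finset.card_le_card hcon
      have h5 : (K.card : ℝ) ≤ (D.card : ℝ) := by exact_mod_cast this
      rw [hKcard] at hcnt
      linarith
    obtain ⟨j, hjK, hjD⟩ := hex
    refine ⟨j, ?_⟩
    rw [hK, Finset.mem_filter] at hjK
    simp only [hD, Finset.mem_filter, Finset.mem_univ, true_and, not_le] at hjD
    have h5 : x0 / 2 ≤ |ip w (g j)| := by
      have h6 : ip c (g j) = ip w (g j) - ip (w - c) (g j) := by rw [ip_sub]; ring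
      have h7 : |ip c (g j)| ≤ |ip w (g j)| + |ip (w - c) (g j)| := by
        rw [h6]; exact abs_sub _ _
      linarith [hjK.2]
    have h6 : (x0 / 2) ^ 2 ≤ ip w (g j) ^ 2 := by
      rw [← sq_abs (ip w (g j))]
      exact pow_le_pow_left₀ (by positivity) h5 2
    have h7 : (x0 / 2) ^ 2 = y / 16 := by rw [div_pow, hx0sq]; ring
    rw [h7] at h6
    rw [hzw, nsq_smul, ip_smul, hw, mul_one, mul_pow]
    nlinarith [sq_nonneg a]

/-- norms of the columns -/
lemma event_columns (n N : ℕ) (B : ℝ) :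
    ∃ E : Set (Fin N → Fin n → ℝ),
      (mu N n).real E ≤ (N : ℝ) * (Real.exp (-(B / 4)) * (Real.sqrt 2) ^ n) ∧
      ∀ g, g ∉ E → ∀ j, nsq (g j) ≤ B := by
  classical
  refine ⟨⋃ j ∈ (Finset.univ : Finset (Fin N)), {g | B ≤ nsq (g j)}, ?_, ?_⟩
  · calc (mu N n).real (⋃ j ∈ (Finset.univ : Finset (Fin N)), {g | B ≤ nsq (g j)})
        ≤ ∑ j : Fin N, (mu N n).real {g | B ≤ nsq (g j)} := measureReal_biUnion_finset_le _ _
      _ ≤ ∑ j : Fin N, Real.exp (-(B / 4)) * (Real.sqrt 2) ^ n :=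
          Finset.sum_le_sum fun j _ => column_tail j B
      _ = _ := by rw [Finset.sum_const, Finset.card_univ, Fintype.card_fin, nsmul_eq_mul]
  · intro g hg j
    by_contra hcon
    push Not at hcon
    apply hg
    simp only [Set.mem_iUnion]
    exact ⟨j, Finset.mem_univ _, hcon.le⟩

end Pool.Agent.Helper56.Cube
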