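import Pool.Agent.Helper56.Events

set_option autoImplicit false
set_option linter.unusedSectionVars false

namespace Pool.Agent.Helper56.Cube

open Finset MeasureTheory ProbabilityTheory

variable {n N : ℕ}

/-- the deterministic property of a matrix used below -/
def Good (A Q : ℝ) (g : Fin N → Fin n → ℝ) : Prop :=
  (∀ y : Fin n → ℝ, ∃ t : Fin N → ℝ, ∑ j, t j • g j = y) ∧
  ∃ s : ℝ, 0 < s ∧
    (∀ v, Gm g v = 0 → s * ∑ j, v j ^ 2 ≤ A * (∑ j, |v j|) ^ 2) ∧
    ∀ (k : ℕ) (u : (Fin k → Bool) → Fin N → ℝ),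
      ∑ i, qn g (Gm g (avg (fun σ => sg (σ i) • u σ))) ^ 2 ≤
        Q * avg (fun σ => s * ∑ j, u σ j ^ 2 + (∑ j, |u σ j|) ^ 2)

lemma Good.mono {A Q A' Q' : ℝ} {g : Fin N → Fin n → ℝ} (h : Good A Q g) (hA : A ≤ A')
    (hQ : Q ≤ Q') : Good A' Q' g := by
  obtain ⟨h1, s, hs, h2, h3⟩ := h
  refine ⟨h1, s, hs, fun v hv => (h2 v hv).trans ?_, fun k u => (h3 k u).trans ?_⟩
  · exact mul_le_mul_of_nonneg_right hA (sq_nonneg _)
  · apply mul_le_mul_of_nonneg_right hQ
    apply avg_nonneg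
    intro σ
    have : 0 ≤ ∑ j, u σ j ^ 2 := Finset.sum_nonneg fun _ _ => sq_nonneg _
    positivity

lemma good_one (g : Fin N → Fin n → ℝ) (s : ℕ) (hs : 1 ≤ s) (hn : 0 < n) (K : ℝ)
    (hsurj : ∀ y : Fin n → ℝ, ∃ t : Fin N → ℝ, ∑ j, t j • g j = y)
    (hU : ∀ J : Finset (Fin N), J.card ≤ s → ∀ z : Fin n → ℝ,
      ∑ j ∈ J, ip z (g j) ^ 2 ≤ 64 * n * nsq z)
    (hL : ∀ u : Fin N → ℝ, (Finset.univ.filter (fun j => u j ≠ 0)).card ≤ s →
      ((n : ℝ) / 300) * nsq u ≤ nsq (Gm g u))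
    (hNs : (N : ℝ) ≤ K * s) : Good 76801 K g := by
  have hn0 : (0 : ℝ) < n := by exact_mod_cast hn
  have hs0 : (0 : ℝ) < s := by exact_mod_cast hs
  have hN0 : (0 : ℝ) ≤ N := Nat.cast_nonneg _
  have hK0 : 0 ≤ K := by
    by_contra hcon
    push Not at hcon
    nlinarith
  refine ⟨hsurj, s, hs0, fun v hv => ?_, fun k u => ?_⟩
  · have h1 := kernel_of_sparse g s hs (64 * n) ((n : ℝ) / 300) (by positivity) (by positivity)
      hU hL v hv
    refine h1.trans (le_of_eq ?_)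
    congr 1
    field_simp
    norm_num
  · have h1 : ∀ i, qn g (Gm g (avg (fun σ => sg (σ i) • u σ))) ^ 2 ≤
        N * nsq (avg (fun σ => sg (σ i) • u σ)) := by
      intro i
      set α := avg (fun σ => sg (σ i) • u σ) with hα
      have h2 := pow_le_pow_left₀ (qn_nonneg g _) (qn_le g α) 2
      refine h2.trans ?_
      have h3 := sq_sum_le_card_mul_sum_sq (s := (Finset.univ : Finset (Fin N)))
        (f := fun j => |α j|)
      simp only [sq_abs, Finset.card_univ, Fintype.card_fin] at h3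
      exact h3
    calc ∑ i, qn g (Gm g (avg (fun σ => sg (σ i) • u σ))) ^ 2
        ≤ ∑ i, N * nsq (avg (fun σ => sg (σ i) • u σ)) := Finset.sum_le_sum fun i _ => h1 i
      _ = N * ∑ i, nsq (avg (fun σ => sg (σ i) • u σ)) := by rw [Finset.mul_sum]
      _ ≤ N * avg (fun σ => nsq (u σ)) := mul_le_mul_of_nonneg_left (bessel_vec u) hN0
      _ ≤ (K * s) * avg (fun σ => nsq (u σ)) :=
          mul_le_mul_of_nonneg_right hNs (avg_nonneg fun σ => nsq_nonneg _)
      _ = K * avg (fun σ => s * nsq (u σ)) := by rw [avg_mul_left]; ring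
      _ ≤ K * avg (fun σ => s * ∑ j, u σ j ^ 2 + (∑ j, |u σ j|) ^ 2) := by
          apply mul_le_mul_of_nonneg_left _ hK0
          apply avg_mono
          intro σ
          have : 0 ≤ (∑ j, |u σ j|) ^ 2 := sq_nonneg _
          show s * nsq (u σ) ≤ _
          rw [nsq]; linarith

lemma sum_qn_le (g : Fin N → Fin n → ℝ) (c : ℝ) (hc : 0 < c)
    (hK : ∀ z : Fin n → ℝ, ∃ j, c * nsq z ≤ ip z (g j) ^ 2) (k : ℕ)
    (u : (Fin k → Bool) → Fin N → ℝ) :
    ∑ i, qn g (Gm g (avg (fun σ => sg (σ i) • u σ))) ^ 2 ≤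
      (1 / c) * avg (fun σ => nsq (Gm g (u σ))) := by
  have h1 : ∀ i, qn g (Gm g (avg (fun σ => sg (σ i) • u σ))) ^ 2 ≤
      (1 / c) * nsq (avg (fun σ => sg (σ i) • Gm g (u σ))) := by
    intro i
    have h2 := (qn_sq_le_of_dual g c hc hK (Gm g (avg (fun σ => sg (σ i) • u σ)))).2
    have h3 : Gm g (avg (fun σ => sg (σ i) • u σ)) = avg (fun σ => sg (σ i) • Gm g (u σ)) := by
      rw [← avg_map (Gm g)]
      congr 1; funext σ; rw [map_smul]
    rw [h3] at h2 ⊢
    rw [one_div, ← div_eq_inv_mul, le_div_iff₀ hc]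
    linarith
  calc ∑ i, qn g (Gm g (avg (fun σ => sg (σ i) • u σ))) ^ 2
      ≤ ∑ i, (1 / c) * nsq (avg (fun σ => sg (σ i) • Gm g (u σ))) :=
        Finset.sum_le_sum fun i _ => h1 i
    _ = (1 / c) * ∑ i, nsq (avg (fun σ => sg (σ i) • Gm g (u σ))) := by rw [Finset.mul_sum]
    _ ≤ (1 / c) * avg (fun σ => nsq (Gm g (u σ))) :=
        mul_le_mul_of_nonneg_left (bessel_vec (fun σ => Gm g (u σ))) (by positivity)

lemma good_two (g : Fin N → Fin n → ℝ) (s : ℕ) (hs : 1 ≤ s) (hn : 0 < n) (y : ℝ) (hy : 0 < y)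
    (hU : ∀ J : Finset (Fin N), J.card ≤ s → ∀ z : Fin n → ℝ,
      ∑ j ∈ J, ip z (g j) ^ 2 ≤ 64 * n * nsq z)
    (hL : ∀ u : Fin N → ℝ, (Finset.univ.filter (fun j => u j ≠ 0)).card ≤ s →
      ((n : ℝ) / 300) * nsq u ≤ nsq (Gm g u))
    (hK : ∀ z : Fin n → ℝ, ∃ j, (y / 16) * nsq z ≤ ip z (g j) ^ 2)
    (hns : (n : ℝ) ≤ 160 * y * s) : Good 76801 327680 g := by
  have hn0 : (0 : ℝ) < n := by exact_mod_cast hn
  have hs0 : (0 : ℝ) < s := by exact_mod_cast hs
  have hc : 0 < y / 16 := by positivity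
  refine ⟨fun x => (qn_sq_le_of_dual g (y / 16) hc hK x).1, s, hs0, fun v hv => ?_, fun k u => ?_⟩
  · have h1 := kernel_of_sparse g s hs (64 * n) ((n : ℝ) / 300) (by positivity) (by positivity)
      hU hL v hv
    refine h1.trans (le_of_eq ?_)
    congr 1
    field_simp
    norm_num
  · refine (sum_qn_le g (y / 16) hc hK k u).trans ?_
    have h1 : avg (fun σ => nsq (Gm g (u σ))) ≤
        (128 * n / s) * avg (fun σ => s * ∑ j, u σ j ^ 2 + (∑ j, |u σ j|) ^ 2) := by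
      rw [← avg_mul_left]
      apply avg_mono
      intro σ
      have h2 := upper_of_sparse g s hs (64 * n) (by positivity) hU (u σ)
      refine h2.trans (le_of_eq ?_)
      rw [nsq]
      field_simp
      ring
    have h0 : 0 ≤ avg (fun σ => s * ∑ j, u σ j ^ 2 + (∑ j, |u σ j|) ^ 2) := by
      apply avg_nonneg
      intro σ
      have : 0 ≤ ∑ j, u σ j ^ 2 := Finset.sum_nonneg fun _ _ => sq_nonneg _
      positivity
    calc (1 / (y / 16)) * avg (fun σ => nsq (Gm g (u σ)))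
        ≤ (1 / (y / 16)) *
          ((128 * n / s) * avg (fun σ => s * ∑ j, u σ j ^ 2 + (∑ j, |u σ j|) ^ 2)) :=
          mul_le_mul_of_nonneg_left h1 (by positivity)
      _ = (2048 * n / (y * s)) * avg (fun σ => s * ∑ j, u σ j ^ 2 + (∑ j, |u σ j|) ^ 2) := by
          rw [← mul_assoc]
          congr 1
          field_simp
          norm_num
      _ ≤ 327680 * avg (fun σ => s * ∑ j, u σ j ^ 2 + (∑ j, |u σ j|) ^ 2) := by
          apply mul_le_mul_of_nonneg_right _ h0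
          rw [div_le_iff₀ (by positivity)]
          linarith

lemma good_three (g : Fin N → Fin n → ℝ) (y : ℝ) (hy : 0 < y)
    (hB : ∀ j, nsq (g j) ≤ 600 * y)
    (hK : ∀ z : Fin n → ℝ, ∃ j, (y / 16) * nsq z ≤ ip z (g j) ^ 2) : Good 1 9600 g := by
  have hc : 0 < y / 16 := by positivity
  refine ⟨fun x => (qn_sq_le_of_dual g (y / 16) hc hK x).1, 1, one_pos, fun v _ => ?_,
    fun k u => ?_⟩
  · rw [one_mul, one_mul]
    have h1 : ∑ j, v j ^ 2 ≤ (∑ j, |v j|) ^ 2 := by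
      have h2 : ∀ j, v j ^ 2 ≤ |v j| * ∑ j, |v j| := by
        intro j
        rw [← sq_abs, sq]
        apply mul_le_mul_of_nonneg_left _ (abs_nonneg _)
        exact Finset.single_le_sum (f := fun j => |v j|) (fun _ _ => abs_nonneg _)
          (Finset.mem_univ j)
      calc ∑ j, v j ^ 2 ≤ ∑ j, |v j| * ∑ j, |v j| := Finset.sum_le_sum fun j _ => h2 j
        _ = (∑ j, |v j|) ^ 2 := by rw [← Finset.sum_mul, sq]
    exact h1
  · refine (sum_qn_le g (y / 16) hc hK k u).trans ?_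
    have h1 : ∀ w : Fin N → ℝ, nsq (Gm g w) ≤ 600 * y * (∑ j, |w j|) ^ 2 := by
      intro w
      set z := Gm g w with hz
      set m := ∑ j, |w j| with hm
      have hm0 : 0 ≤ m := Finset.sum_nonneg fun _ _ => abs_nonneg _
      have e1 : nsq z = ∑ j, w j * ip z (g j) := by
        rw [← ip_self z]
        conv_lhs => rw [hz, ip_Gm]
      have e2 : |∑ j, w j * ip z (g j)| ≤ Real.sqrt (nsq z * (600 * y)) * m := by
        refine (Finset.abs_sum_le_sum_abs _ _).trans ?_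
        rw [hm, Finset.mul_sum]
        refine Finset.sum_le_sum fun j _ => ?_
        rw [abs_mul, mul_comm]
        apply mul_le_mul_of_nonneg_right _ (abs_nonneg _)
        apply Real.abs_le_sqrt
        exact (ip_sq_le z (g j)).trans (mul_le_mul_of_nonneg_left (hB j) (nsq_nonneg z))
      rw [← e1] at e2
      have e3 := pow_le_pow_left₀ (abs_nonneg _) e2 2
      rw [sq_abs, mul_pow, Real.sq_sqrt (mul_nonneg (nsq_nonneg z) (by positivity))] at e3
      rcases (nsq_nonneg z).eq_or_lt with h0 | hpos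
      · rw [← h0]; positivity
      · have e4 : nsq z * nsq z ≤ nsq z * (600 * y * m ^ 2) := by nlinarith
        exact le_of_mul_le_mul_left e4 hpos
    have h2 : avg (fun σ => nsq (Gm g (u σ))) ≤
        (600 * y) * avg (fun σ => 1 * ∑ j, u σ j ^ 2 + (∑ j, |u σ j|) ^ 2) := by
      rw [← avg_mul_left]
      apply avg_mono
      intro σ
      refine (h1 (u σ)).trans ?_
      apply mul_le_mul_of_nonneg_left _ (by positivity)
      have : 0 ≤ ∑ j, u σ j ^ 2 := Finset.sum_nonneg fun _ _ => sq_nonneg _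
      linarith
    calc (1 / (y / 16)) * avg (fun σ => nsq (Gm g (u σ)))
        ≤ (1 / (y / 16)) *
          ((600 * y) * avg (fun σ => 1 * ∑ j, u σ j ^ 2 + (∑ j, |u σ j|) ^ 2)) :=
          mul_le_mul_of_nonneg_left h2 (by positivity)
      _ = 9600 * avg (fun σ => 1 * ∑ j, u σ j ^ 2 + (∑ j, |u σ j|) ^ 2) := by
          rw [← mul_assoc]
          congr 1
          field_simp
          norm_num

/-! ### Numerical estimates -/

lemma sqrt_two_pow_le (s : ℕ) : (Real.sqrt 2) ^ s ≤ Real.exp ((s : ℝ) / 2) := by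
  have h1 : Real.sqrt 2 ≤ Real.exp (1 / 2) := by
    rw [Real.sqrt_le_left (Real.exp_pos _).le, ← Real.exp_nat_mul]
    have := Real.add_one_le_exp (((2 : ℕ) : ℝ) * (1 / 2))
    push_cast at this ⊢
    linarith
  calc (Real.sqrt 2) ^ s ≤ (Real.exp (1 / 2)) ^ s := pow_le_pow_left₀ (Real.sqrt_nonneg _) h1 s
    _ = Real.exp ((s : ℝ) / 2) := by rw [← Real.exp_nat_mul]; congr 1; ring

lemma five_pow_le (n : ℕ) : (5 : ℝ) ^ n ≤ Real.exp (2 * n) := by
  have h1 : (5 : ℝ) ≤ Real.exp 2 := by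
    have h2 : Real.exp 2 = Real.exp 1 ^ 2 := by rw [← Real.exp_nat_mul]; norm_num
    have := Real.exp_one_gt_d9
    rw [h2]; nlinarith
  calc (5 : ℝ) ^ n ≤ (Real.exp 2) ^ n := pow_le_pow_left₀ (by norm_num) h1 n
    _ = Real.exp (2 * n) := by rw [← Real.exp_nat_mul]; congr 1; ring

lemma pow281_le (s : ℕ) : (281 : ℝ) ^ s ≤ Real.exp (6 * s) := by
  have h1 : (281 : ℝ) ≤ Real.exp 6 := by
    have h2 : Real.exp 6 = Real.exp 1 ^ 6 := by rw [← Real.exp_nat_mul]; norm_num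
    have h3 := Real.exp_one_gt_d9
    have h4 : (2.7 : ℝ) ^ 6 ≤ Real.exp 1 ^ 6 := pow_le_pow_left₀ (by norm_num) (by linarith) 6
    rw [h2]
    refine le_trans ?_ h4
    norm_num
  calc (281 : ℝ) ^ s ≤ (Real.exp 6) ^ s := pow_le_pow_left₀ (by norm_num) h1 s
    _ = Real.exp (6 * s) := by rw [← Real.exp_nat_mul]; congr 1; ring

lemma quarter_pow_le (n : ℕ) : (1 / 4 : ℝ) ^ n ≤ Real.exp (-(13 / 10 * n)) := by
  have h1 : (1 / 4 : ℝ) ≤ Real.exp (-(13 / 10)) := by
    have h2 : (1 / 4 : ℝ) = Real.exp (-(2 * Real.log 2)) := by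
      have : (2 : ℝ) * Real.log 2 = Real.log (2 ^ 2) := by rw [Real.log_pow]; norm_num
      rw [this, Real.exp_neg, Real.exp_log (by norm_num)]; norm_num
    rw [h2]
    apply Real.exp_le_exp.mpr
    have := Real.log_two_gt_d9
    linarith
  calc (1 / 4 : ℝ) ^ n ≤ (Real.exp (-(13 / 10))) ^ n := pow_le_pow_left₀ (by norm_num) h1 n
    _ = Real.exp (-(13 / 10 * n)) := by rw [← Real.exp_nat_mul]; congr 1; ring

lemma choose_le (n N s : ℕ) (hn : 0 < n) (hnN : n ≤ N) (y : ℝ) (hy : y = 1 + Real.log ((N : ℝ) / n))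
    (hs : (s : ℝ) * (80 * y) ≤ n) : (N.choose s : ℝ) ≤ Real.exp ((n : ℝ) / 10) := by
  have hn0 : (0 : ℝ) < n := by exact_mod_cast hn
  have hnN' : (n : ℝ) ≤ N := by exact_mod_cast hnN
  have hN0 : (0 : ℝ) < N := by linarith
  have hy1 : 1 ≤ y := by
    rw [hy]
    have : 0 ≤ Real.log ((N : ℝ) / n) := Real.log_nonneg (by rw [le_div_iff₀ hn0]; linarith)
    linarith
  rcases Nat.lt_or_ge N s with hlt | hge
  · rw [Nat.choose_eq_zero_of_lt hlt]
    have := Real.exp_pos ((n : ℝ) / 10)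
    simpa using this.le
  set x : ℝ := n / (20 * N) with hx
  have hx0 : 0 < x := by positivity
  have h1 : (N.choose s : ℝ) * x ^ s ≤ (1 + x) ^ N := by
    rw [add_comm, add_pow]
    have h2 : x ^ s * 1 ^ (N - s) * (N.choose s : ℝ) ≤
        ∑ m ∈ Finset.range (N + 1), x ^ m * 1 ^ (N - m) * (N.choose m : ℝ) :=
      Finset.single_le_sum (f := fun m => x ^ m * 1 ^ (N - m) * (N.choose m : ℝ))
        (fun m _ => by positivity) (Finset.mem_range.mpr (by omega))
    rw [one_pow, mul_one, mul_comm] at h2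
    exact h2
  have h3 : (1 + x) ^ N ≤ Real.exp ((n : ℝ) / 20) := by
    have h4 : 1 + x ≤ Real.exp x := by have := Real.add_one_le_exp x; linarith
    calc (1 + x) ^ N ≤ (Real.exp x) ^ N := pow_le_pow_left₀ (by positivity) h4 N
      _ = Real.exp ((n : ℝ) / 20) := by
        rw [← Real.exp_nat_mul]; congr 1; rw [hx]; field_simp
  have hlog20 : Real.log 20 ≤ 3 := by
    rw [Real.log_le_iff_le_exp (by norm_num)]
    have h2 : Real.exp 3 = Real.exp 1 ^ 3 := by rw [← Real.exp_nat_mul]; norm_num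
    have h3 := Real.exp_one_gt_d9
    have h4 : (2.718 : ℝ) ^ 3 ≤ Real.exp 1 ^ 3 := pow_le_pow_left₀ (by norm_num) (by linarith) 3
    rw [h2]
    refine le_trans ?_ h4
    norm_num
  have h5 : (x ^ s)⁻¹ ≤ Real.exp (3 * n / 80) := by
    have h6 : (x ^ s)⁻¹ = Real.exp (s * (Real.log 20 + Real.log ((N : ℝ) / n))) := by
      rw [← inv_pow, Real.exp_nat_mul, ← Real.log_mul (by norm_num) (by positivity),
        Real.exp_log (by positivity)]
      congr 1
      rw [hx]; field_simp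
    rw [h6]
    apply Real.exp_le_exp.mpr
    have h7 : Real.log 20 + Real.log ((N : ℝ) / n) ≤ 3 * y := by
      have : Real.log ((N : ℝ) / n) = y - 1 := by rw [hy]; ring
      rw [this]; linarith
    have hs0 : (0 : ℝ) ≤ s := Nat.cast_nonneg _
    calc (s : ℝ) * (Real.log 20 + Real.log ((N : ℝ) / n)) ≤ s * (3 * y) :=
          mul_le_mul_of_nonneg_left h7 hs0
      _ = (3 / 80) * (s * (80 * y)) := by ring
      _ ≤ (3 / 80) * n := mul_le_mul_of_nonneg_left hs (by norm_num)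
      _ = 3 * n / 80 := by ring
  have hxs : 0 < x ^ s := by positivity
  calc (N.choose s : ℝ) = ((N.choose s : ℝ) * x ^ s) * (x ^ s)⁻¹ := by
        rw [mul_assoc, mul_inv_cancel₀ hxs.ne', mul_one]
    _ ≤ Real.exp ((n : ℝ) / 20) * Real.exp (3 * n / 80) :=
        mul_le_mul (h1.trans h3) h5 (by positivity) (Real.exp_pos _).le
    _ = Real.exp ((n : ℝ) / 20 + 3 * n / 80) := by rw [Real.exp_add]
    _ ≤ Real.exp ((n : ℝ) / 10) := by
        apply Real.exp_le_exp.mpr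
        linarith

lemma num_inradius (n : ℕ) (N y : ℝ) (hy : 12 ≤ y) (hN : N = n * Real.exp (y - 1)) :
    (1 + 200 * Real.exp (y / 8)) ^ n * Real.exp (-((1 / 32) * Real.exp (-(y / 4)) * N)) ≤
      Real.exp (-(n : ℝ)) := by
  have hn0 : (0 : ℝ) ≤ n := Nat.cast_nonneg _
  have h1 : 1 + 200 * Real.exp (y / 8) ≤ Real.exp (6 + y / 8) := by
    rw [Real.exp_add]
    have h2 : Real.exp 6 = Real.exp 1 ^ 6 := by rw [← Real.exp_nat_mul]; norm_num
    have h3 := Real.exp_one_gt_d9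
    have h4 : (2.7 : ℝ) ^ 6 ≤ Real.exp 1 ^ 6 := pow_le_pow_left₀ (by norm_num) (by linarith) 6
    have h5 : (201 : ℝ) ≤ Real.exp 6 := by
      rw [h2]; refine le_trans ?_ h4; norm_num
    have h6 : 1 ≤ Real.exp (y / 8) := Real.one_le_exp (by linarith)
    nlinarith
  have h2 : (1 + 200 * Real.exp (y / 8)) ^ n ≤ Real.exp (n * (6 + y / 8)) := by
    rw [Real.exp_nat_mul]
    exact pow_le_pow_left₀ (by positivity) h1 n
  have h3 : (1 / 32) * Real.exp (-(y / 4)) * N = n * ((1 / 32) * Real.exp (3 * y / 4 - 1)) := by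
    rw [hN]
    have : Real.exp (3 * y / 4 - 1) = Real.exp (-(y / 4)) * Real.exp (y - 1) := by
      rw [← Real.exp_add]; congr 1; ring
    rw [this]; ring
  have h4 : 7 + y / 8 ≤ (1 / 32) * Real.exp (3 * y / 4 - 1) := by
    have h5 : Real.exp (3 * y / 4 - 1) = Real.exp 8 * Real.exp (3 * (y - 12) / 4) := by
      rw [← Real.exp_add]; congr 1; ring
    have h6 : (2500 : ℝ) ≤ Real.exp 8 := by
      have h2 : Real.exp 8 = Real.exp 1 ^ 8 := by rw [← Real.exp_nat_mul]; norm_num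
      have h3 := Real.exp_one_gt_d9
      have h4 : (2.7 : ℝ) ^ 8 ≤ Real.exp 1 ^ 8 := pow_le_pow_left₀ (by norm_num) (by linarith) 8
      rw [h2]; refine le_trans ?_ h4; norm_num
    have h7 := Real.add_one_le_exp (3 * (y - 12) / 4)
    have h8 : (0 : ℝ) ≤ 3 * (y - 12) / 4 + 1 := by linarith
    have h9 : 2500 * (3 * (y - 12) / 4 + 1) ≤ Real.exp 8 * Real.exp (3 * (y - 12) / 4) :=
      mul_le_mul h6 h7 h8 (Real.exp_pos _).le
    rw [h5]
    linarith
  rw [h3]
  calc (1 + 200 * Real.exp (y / 8)) ^ n * Real.exp (-(n * ((1 / 32) * Real.exp (3 * y / 4 - 1))))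
      ≤ Real.exp (n * (6 + y / 8)) *
          Real.exp (-(n * ((1 / 32) * Real.exp (3 * y / 4 - 1)))) :=
        mul_le_mul_of_nonneg_right h2 (Real.exp_pos _).le
    _ = Real.exp (n * (6 + y / 8) - n * ((1 / 32) * Real.exp (3 * y / 4 - 1))) := by
        rw [← Real.exp_add]; congr 1
    _ ≤ Real.exp (-(n : ℝ)) := by
        apply Real.exp_le_exp.mpr
        have := mul_le_mul_of_nonneg_left h4 hn0
        nlinarith

end Pool.Agent.Helper56.Cube
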