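import Pool.Agent.Helper56.Net

set_option autoImplicit false
set_option linter.unusedSectionVars false

namespace Pool.Agent.Helper56.Cube

open Finset MeasureTheory ProbabilityTheory
open scoped ENNReal

/-- standard Gaussian on the line -/
noncomputable abbrev gam : Measure ℝ := gaussianReal 0 1

/-- standard Gaussian in coordinates -/
noncomputable abbrev gn (n : ℕ) : Measure (Fin n → ℝ) := Measure.pi (fun _ : Fin n => gam)

/-- the law of the Gaussian matrix -/
noncomputable abbrev mu (N n : ℕ) : Measure (Fin N → Fin n → ℝ) :=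
  Measure.pi (fun _ : Fin N => gn n)

lemma charFun_gn {n : ℕ} (a : Fin n → ℝ) :
    ∫ x, Complex.exp ((ip a x : ℝ) * Complex.I) ∂(gn n) = Complex.exp (-(nsq a : ℝ) / 2) := by
  have h1 : ∀ x : Fin n → ℝ, Complex.exp ((ip a x : ℝ) * Complex.I) =
      ∏ r, Complex.exp ((a r : ℂ) * (x r : ℂ) * Complex.I) := by
    intro x
    rw [← Complex.exp_sum, ip]
    congr 1
    push_cast
    rw [Finset.sum_mul]
  simp_rw [h1]
  rw [integral_fintype_prod_eq_prod (fun r (y : ℝ) => Complex.exp ((a r : ℂ) * (y : ℂ) * Complex.I))]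
  have h2 : ∀ r, ∫ y, Complex.exp ((a r : ℂ) * (y : ℂ) * Complex.I) ∂gam =
      Complex.exp (-((a r : ℂ) ^ 2) / 2) := by
    intro r
    have h3 := charFun_gaussianReal (μ := 0) (v := 1) (a r)
    rw [charFun_apply_real] at h3
    rw [h3]
    congr 1
    push_cast
    ring
  simp_rw [h2]
  rw [← Complex.exp_sum, nsq]
  congr 1
  push_cast
  rw [← Finset.sum_div, Finset.sum_neg_distrib]

lemma measurable_ip {n : ℕ} (z : Fin n → ℝ) : Measurable (fun x : Fin n → ℝ => ip z x) := by
  unfold ip; fun_prop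

lemma measurable_nsq {n : ℕ} : Measurable (fun x : Fin n → ℝ => nsq x) := by
  unfold nsq; fun_prop

/-- a linear functional of unit norm is standard Gaussian -/
lemma map_ip {n : ℕ} (z : Fin n → ℝ) (hz : nsq z = 1) : (gn n).map (fun x => ip z x) = gam := by
  have hm := measurable_ip z
  have : IsProbabilityMeasure ((gn n).map (fun x => ip z x)) :=
    Measure.isProbabilityMeasure_map hm.aemeasurable
  apply Measure.ext_of_charFun
  funext t
  rw [charFun_apply_real, integral_map hm.aemeasurable (by fun_prop)]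
  have h1 : ∀ x : Fin n → ℝ, Complex.exp ((t : ℂ) * ((ip z x : ℝ) : ℂ) * Complex.I) =
      Complex.exp ((ip (t • z) x : ℝ) * Complex.I) := by
    intro x
    have : ip (t • z) x = t * ip z x := by
      simp [ip, Finset.mul_sum, mul_assoc]
    rw [this]; push_cast; rfl
  simp_rw [h1]
  rw [charFun_gn, charFun_gaussianReal]
  have : nsq (t • z) = t ^ 2 := by
    have : nsq (t • z) = t ^ 2 * nsq z := by simp [nsq, Finset.mul_sum, mul_pow]
    rw [this, hz, mul_one]
  rw [this]
  congr 1
  push_cast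
  ring

lemma measurable_Gm {N n : ℕ} (u : Fin N → ℝ) : Measurable (fun g : Fin N → Fin n → ℝ => Gm g u) := by
  simp only [Gm_apply]
  fun_prop

/-- a unit combination of the columns is a standard Gaussian vector -/
lemma map_Gm {N n : ℕ} (u : Fin N → ℝ) (hu : nsq u = 1) :
    (mu N n).map (fun g => Gm g u) = gn n := by
  have hm := measurable_Gm (n := n) u
  have : IsProbabilityMeasure ((mu N n).map (fun g => Gm g u)) :=
    Measure.isProbabilityMeasure_map hm.aemeasurable
  apply Measure.ext_of_charFunDual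
  funext L
  rw [charFunDual_apply, charFunDual_apply, integral_map hm.aemeasurable
    (Continuous.aestronglyMeasurable (by fun_prop))]
  set l : Fin n → ℝ := fun r => L (Pi.single r 1) with hl
  have hL : ∀ y, L y = ip l y := by
    intro y
    have h1 : y = ∑ r, y r • (Pi.single r (1 : ℝ) : Fin n → ℝ) := by
      funext r
      simp [Finset.sum_apply, Pi.single_apply]
    conv_lhs => rw [h1]
    rw [map_sum]
    simp only [map_smul, smul_eq_mul, ip, hl]
    refine Finset.sum_congr rfl fun r _ => mul_comm _ _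
  simp_rw [hL]
  rw [charFun_gn]
  have h1 : ∀ g : Fin N → Fin n → ℝ, Complex.exp ((ip l (Gm g u) : ℝ) * Complex.I) =
      ∏ j, Complex.exp ((ip (u j • l) (g j) : ℝ) * Complex.I) := by
    intro g
    rw [← Complex.exp_sum, ip_Gm]
    congr 1
    rw [← Finset.sum_mul]
    congr 1
    rw [← Complex.ofReal_sum]
    congr 1
    refine Finset.sum_congr rfl fun j _ => ?_
    simp [ip, Finset.mul_sum, mul_assoc]
  simp_rw [h1]
  rw [integral_fintype_prod_eq_prod
    (fun j (x : Fin n → ℝ) => Complex.exp ((ip (u j • l) x : ℝ) * Complex.I))]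
  simp_rw [charFun_gn]
  rw [← Complex.exp_sum]
  congr 1
  have h2 : ∀ j, nsq (u j • l) = u j ^ 2 * nsq l := by
    intro j; simp [nsq, Finset.mul_sum, mul_pow]
  simp_rw [h2]
  rw [← Finset.sum_div, Finset.sum_neg_distrib, ← Complex.ofReal_sum, ← Finset.sum_mul]
  have h3 : ∑ j, u j ^ 2 = 1 := hu
  rw [h3, one_mul]

lemma integral_exp_sq (c : ℝ) (hc : c < 1 / 2) :
    ∫ x, Real.exp (c * x ^ 2) ∂gam = 1 / Real.sqrt (1 - 2 * c) := by
  rw [integral_gaussianReal_eq_integral_smul (by norm_num)]
  have h1 : ∀ x : ℝ, gaussianPDFReal 0 1 x • Real.exp (c * x ^ 2) =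
      (Real.sqrt (2 * Real.pi))⁻¹ * Real.exp (-(1 / 2 - c) * x ^ 2) := by
    intro x
    rw [gaussianPDFReal, smul_eq_mul]
    simp only [NNReal.coe_one, mul_one, sub_zero]
    rw [mul_assoc, ← Real.exp_add]
    congr 2; ring
  simp_rw [h1]
  rw [integral_const_mul, integral_gaussian]
  have h3 : (1 : ℝ) / Real.sqrt (1 - 2 * c) = Real.sqrt ((1 - 2 * c)⁻¹) := by
    rw [Real.sqrt_inv, one_div]
  rw [h3, ← Real.sqrt_inv, ← Real.sqrt_mul (by positivity)]
  congr 1
  have : (1 / 2 - c) ≠ 0 := by linarith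
  have h2 : (1 - 2 * c) ≠ 0 := by linarith
  field_simp

lemma integrable_exp_sq (c : ℝ) (hc : c < 1 / 2) :
    Integrable (fun x => Real.exp (c * x ^ 2)) gam := by
  by_contra h
  have h1 := integral_exp_sq c hc
  rw [integral_undef h] at h1
  have : 0 < 1 / Real.sqrt (1 - 2 * c) := by
    have : 0 < Real.sqrt (1 - 2 * c) := Real.sqrt_pos.mpr (by linarith)
    positivity
  linarith

lemma exp_quarter : ∫ x, Real.exp ((1 / 4) * x ^ 2) ∂gam = Real.sqrt 2 := by
  rw [integral_exp_sq _ (by norm_num)]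
  rw [one_div, ← Real.sqrt_inv]
  congr 1; norm_num

lemma exp_lower : ∫ x, Real.exp ((-(15 / 2)) * x ^ 2) ∂gam = 1 / 4 := by
  rw [integral_exp_sq _ (by norm_num)]
  have : (1 - 2 * -(15 / 2 : ℝ)) = 4 ^ 2 := by norm_num
  rw [this, Real.sqrt_sq (by norm_num)]

/-- upper tail for sums of squares over a set of columns -/
lemma upper_tail {N n : ℕ} (z : Fin n → ℝ) (hz : nsq z = 1) (J : Finset (Fin N)) (T : ℝ) :
    (mu N n).real {g | T ≤ ∑ j ∈ J, ip z (g j) ^ 2} ≤
      Real.exp (-(T / 4)) * (Real.sqrt 2) ^ J.card := by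
  classical
  set X : (Fin N → Fin n → ℝ) → ℝ := fun g => ∑ j ∈ J, ip z (g j) ^ 2 with hX
  set f : Fin N → (Fin n → ℝ) → ℝ := fun j x =>
    if j ∈ J then Real.exp ((1 / 4) * ip z x ^ 2) else 1 with hf
  have hfint : ∀ j, Integrable (f j) (gn n) := by
    intro j
    simp only [hf]
    split_ifs
    · have h1 := integrable_exp_sq (1 / 4) (by norm_num)
      rw [← map_ip z hz] at h1
      exact (integrable_map_measure (by fun_prop) (measurable_ip z).aemeasurable).mp h1
    · exact integrable_const 1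
  have hfval : ∀ j, ∫ x, f j x ∂(gn n) = if j ∈ J then Real.sqrt 2 else 1 := by
    intro j
    simp only [hf]
    split_ifs
    · rw [← exp_quarter, ← map_ip z hz,
        integral_map (measurable_ip z).aemeasurable (by fun_prop)]
    · simp
  have hexp : ∀ g, Real.exp ((1 / 4) * X g) = ∏ j, f j (g j) := by
    intro g
    simp only [hX, hf, Finset.mul_sum]
    rw [Real.exp_sum]
    rw [← Finset.prod_filter]
    congr 1
    ext j; simp
  have hint : Integrable (fun g => Real.exp ((1 / 4) * X g)) (mu N n) := by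
    simp_rw [hexp]
    exact Integrable.fintype_prod hfint
  have h1 := measure_ge_le_exp_mul_mgf (μ := mu N n) (X := X) T (by norm_num : (0:ℝ) ≤ 1 / 4) hint
  refine h1.trans (le_of_eq ?_)
  have h2 : ProbabilityTheory.mgf X (mu N n) (1 / 4) = (Real.sqrt 2) ^ J.card := by
    rw [ProbabilityTheory.mgf]
    simp_rw [hexp]
    rw [integral_fintype_prod_eq_prod f]
    simp_rw [hfval]
    rw [← Finset.prod_filter, Finset.prod_const]
    congr 2
    ext j; simp
  rw [h2]
  congr 2; ring

/-- small ball estimate for a unit combination of the columns -/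
lemma lower_tail {N n : ℕ} (u : Fin N → ℝ) (hu : nsq u = 1) (T : ℝ) :
    (mu N n).real {g | nsq (Gm g u) ≤ T} ≤ Real.exp ((15 / 2) * T) * (1 / 4) ^ n := by
  have hm := measurable_Gm (n := n) u
  have e1 : (mu N n).real {g | nsq (Gm g u) ≤ T} = (gn n).real {y | nsq y ≤ T} := by
    rw [← map_Gm u hu, map_measureReal_apply hm (measurableSet_le measurable_nsq measurable_const)]
    rfl
  rw [e1]
  have hexp : ∀ y : Fin n → ℝ, Real.exp ((-(15 / 2)) * nsq y) =
      ∏ r, Real.exp ((-(15 / 2)) * y r ^ 2) := by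
    intro y
    rw [nsq, Finset.mul_sum, Real.exp_sum]
  have hint : Integrable (fun y : Fin n → ℝ => Real.exp ((-(15 / 2)) * nsq y)) (gn n) := by
    simp_rw [hexp]
    exact Integrable.fintype_prod (fun r => integrable_exp_sq (-(15 / 2)) (by norm_num))
  have h1 := measure_le_le_exp_mul_mgf (μ := gn n) (X := nsq) T
    (by norm_num : -(15 / 2 : ℝ) ≤ 0) hint
  refine h1.trans (le_of_eq ?_)
  have h2 : ProbabilityTheory.mgf nsq (gn n) (-(15 / 2)) = (1 / 4 : ℝ) ^ n := by
    rw [ProbabilityTheory.mgf]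
    simp_rw [hexp]
    rw [integral_fintype_prod_eq_pow (fun y : ℝ => Real.exp ((-(15 / 2)) * y ^ 2)), exp_lower]
    simp
  rw [h2, neg_neg]

end Pool.Agent.Helper56.Cube
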