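import Pool.Agent.Helper56.Gauss

set_option autoImplicit false
set_option linter.unusedSectionVars false

namespace Pool.Agent.Helper56.Cube

open Finset MeasureTheory ProbabilityTheory
open scoped ENNReal

/-- lower bound for the Gaussian tail -/
lemma tail_lower (x0 : ℝ) (hx0 : 0 ≤ x0) :
    (1 / 8) * Real.exp (-x0 ^ 2) ≤ gam.real {x | x0 ≤ |x|} := by
  have hsub : Set.Icc x0 (x0 + 1) ⊆ {x : ℝ | x0 ≤ |x|} := by
    intro x hx
    exact hx.1.trans (le_abs_self x)
  have h1 : gam.real (Set.Icc x0 (x0 + 1)) ≤ gam.real {x | x0 ≤ |x|} :=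
    measureReal_mono hsub
  refine le_trans ?_ h1
  have h2 : gam.real (Set.Icc x0 (x0 + 1)) =
      ∫ x in Set.Icc x0 (x0 + 1), gaussianPDFReal 0 1 x := by
    rw [Measure.real, gaussianReal_apply_eq_integral 0 (by norm_num)]
    rw [ENNReal.toReal_ofReal]
    exact setIntegral_nonneg measurableSet_Icc (fun x _ => gaussianPDFReal_nonneg _ _ _)
  rw [h2]
  have hpt : ∀ x ∈ Set.Icc x0 (x0 + 1), (1 / 8) * Real.exp (-x0 ^ 2) ≤ gaussianPDFReal 0 1 x := by
    intro x hx
    have hxl : x0 ≤ x := hx.1
    have hxu : x ≤ x0 + 1 := hx.2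
    rw [gaussianPDFReal]
    simp only [NNReal.coe_one, mul_one, sub_zero]
    have h3 : Real.exp (-x0 ^ 2) * Real.exp (-1) ≤ Real.exp (-x ^ 2 / 2) := by
      rw [← Real.exp_add]
      apply Real.exp_le_exp.mpr
      nlinarith [sq_nonneg (x0 - 1), sq_nonneg (x - x0), mul_nonneg hx0 (sub_nonneg.mpr hxl)]
    have h4 : (1 / 8 : ℝ) ≤ (Real.sqrt (2 * Real.pi))⁻¹ * Real.exp (-1) := by
      rw [Real.exp_neg, ← mul_inv, ← one_div]
      apply one_div_le_one_div_of_le (by have := Real.exp_pos 1; positivity)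
      have h5 : Real.sqrt (2 * Real.pi) ≤ 2.6 := by
        rw [Real.sqrt_le_left (by norm_num)]
        have := Real.pi_lt_d2
        nlinarith
      have h6 : Real.exp 1 ≤ 2.72 := by
        have := Real.exp_one_lt_d9; linarith
      have h7 : 0 ≤ Real.sqrt (2 * Real.pi) := Real.sqrt_nonneg _
      have h8 := Real.exp_pos 1
      nlinarith
    calc (1 / 8) * Real.exp (-x0 ^ 2)
        ≤ ((Real.sqrt (2 * Real.pi))⁻¹ * Real.exp (-1)) * Real.exp (-x0 ^ 2) :=
          mul_le_mul_of_nonneg_right h4 (Real.exp_pos _).le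
      _ = (Real.sqrt (2 * Real.pi))⁻¹ * (Real.exp (-x0 ^ 2) * Real.exp (-1)) := by ring
      _ ≤ (Real.sqrt (2 * Real.pi))⁻¹ * Real.exp (-x ^ 2 / 2) :=
          mul_le_mul_of_nonneg_left h3 (by positivity)
  have h3 : ∫ x in Set.Icc x0 (x0 + 1), ((1 / 8) * Real.exp (-x0 ^ 2)) ≤
      ∫ x in Set.Icc x0 (x0 + 1), gaussianPDFReal 0 1 x := by
    apply setIntegral_mono_on _ _ measurableSet_Icc hpt
    · exact integrableOn_const (by simp)
    · exact (integrable_gaussianPDFReal 0 1).integrableOn
  have h4 : ∫ x in Set.Icc x0 (x0 + 1), ((1 / 8) * Real.exp (-x0 ^ 2)) =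
      (1 / 8) * Real.exp (-x0 ^ 2) := by
    rw [setIntegral_const]
    simp [Measure.real]
  rw [← h4]; exact h3

/-- number of columns with a large component in direction `z` -/
noncomputable def cnt {N n : ℕ} (x0 : ℝ) (z : Fin n → ℝ) (g : Fin N → Fin n → ℝ) : ℝ :=
  ∑ j, if x0 ≤ |ip z (g j)| then (1 : ℝ) else 0

/-- lower tail of the count -/
lemma count_tail {N n : ℕ} (z : Fin n → ℝ) (hz : nsq z = 1) (x0 : ℝ) (hx0 : 0 ≤ x0) (m : ℝ) :
    (mu N n).real {g | cnt x0 z g ≤ m} ≤
      Real.exp (m - (1 / 16) * Real.exp (-x0 ^ 2) * N) := by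
  classical
  set A : Set ℝ := {x | x0 ≤ |x|} with hA
  have hAm : MeasurableSet A := measurableSet_le measurable_const (by fun_prop)
  set p : ℝ := gam.real A with hp
  have hp1 : p ≤ 1 := measureReal_le_one
  set h : ℝ → ℝ := fun x => Real.exp (-1 * (if x0 ≤ |x| then (1 : ℝ) else 0)) with hh
  have hheq : ∀ x, h x = 1 - (1 - Real.exp (-1)) * A.indicator (fun _ => (1 : ℝ)) x := by
    intro x
    simp only [hh, Set.indicator, hA, Set.mem_ofPred_eq]
    split_ifs <;> simp
  have hhm : Measurable h := by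
    have : h = fun x => 1 - (1 - Real.exp (-1)) * A.indicator (fun _ => (1 : ℝ)) x := funext hheq
    rw [this]
    exact measurable_const.sub (measurable_const.mul (measurable_const.indicator hAm))
  have hhint : Integrable h gam := by
    apply Integrable.of_bound hhm.aestronglyMeasurable 1
    refine Filter.Eventually.of_forall fun x => ?_
    rw [Real.norm_eq_abs, abs_of_pos (Real.exp_pos _)]
    split_ifs
    · rw [mul_one]; exact Real.exp_le_one_iff.mpr (by norm_num)
    · simp
  have hhval : ∫ x, h x ∂gam = 1 - (1 - Real.exp (-1)) * p := by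
    rw [integral_congr_ae (Filter.Eventually.of_forall hheq), integral_sub (integrable_const _), integral_const_mul, integral_indicator_const _ hAm]
    · simp [hp]
    · apply Integrable.const_mul
      exact (integrable_const 1).indicator hAm
  have hle : ∫ x, h x ∂gam ≤ Real.exp (-(p / 2)) := by
    rw [hhval]
    have h1 : Real.exp (-1) ≤ 1 / 2 := by
      rw [Real.exp_neg, ← one_div]
      apply one_div_le_one_div_of_le (by norm_num)
      have := Real.add_one_le_exp (1 : ℝ)
      linarith
    have h2 := Real.add_one_le_exp (-(p / 2))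
    have hp0 : 0 ≤ p := measureReal_nonneg
    nlinarith
  set f : Fin N → (Fin n → ℝ) → ℝ := fun _ x => h (ip z x) with hf
  have hfint : ∀ j, Integrable (f j) (gn n) := by
    intro j
    have h1 := hhint
    rw [← map_ip z hz] at h1
    exact (integrable_map_measure hhm.aestronglyMeasurable (measurable_ip z).aemeasurable).mp h1
  have hfval : ∀ j, ∫ x, f j x ∂(gn n) = ∫ x, h x ∂gam := by
    intro j
    rw [← map_ip z hz, integral_map (measurable_ip z).aemeasurable hhm.aestronglyMeasurable]
  have hexp : ∀ g : Fin N → Fin n → ℝ, Real.exp (-1 * cnt x0 z g) = ∏ j, f j (g j) := by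
    intro g
    simp only [cnt, hf, hh]
    rw [Finset.mul_sum, Real.exp_sum]
  have hint : Integrable (fun g => Real.exp (-1 * cnt x0 z g)) (mu N n) := by
    simp_rw [hexp]
    exact Integrable.fintype_prod hfint
  have h1 := measure_le_le_exp_mul_mgf (μ := mu N n) (X := cnt x0 z) m
    (by norm_num : (-1 : ℝ) ≤ 0) hint
  refine h1.trans ?_
  have h2 : ProbabilityTheory.mgf (cnt x0 z) (mu N n) (-1) = (∫ x, h x ∂gam) ^ N := by
    rw [ProbabilityTheory.mgf]
    simp_rw [hexp]
    rw [integral_fintype_prod_eq_prod f]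
    simp_rw [hfval]
    simp
  rw [h2]
  have hpos : 0 ≤ ∫ x, h x ∂gam := integral_nonneg fun x => (Real.exp_pos _).le
  have htail := tail_lower x0 hx0
  calc Real.exp (- -1 * m) * (∫ x, h x ∂gam) ^ N
      ≤ Real.exp (- -1 * m) * (Real.exp (-(p / 2))) ^ N :=
        mul_le_mul_of_nonneg_left (pow_le_pow_left₀ hpos hle N) (Real.exp_pos _).le
    _ = Real.exp (m - (p / 2) * N) := by
        rw [← Real.exp_nat_mul, ← Real.exp_add]; congr 1; ring
    _ ≤ Real.exp (m - (1 / 16) * Real.exp (-x0 ^ 2) * N) := by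
        apply Real.exp_le_exp.mpr
        have hN : (0 : ℝ) ≤ N := Nat.cast_nonneg _
        have : (1 / 16) * Real.exp (-x0 ^ 2) ≤ p / 2 := by linarith
        have := mul_le_mul_of_nonneg_right this hN
        linarith

/-- upper tail of the norm of one column -/
lemma column_tail {N n : ℕ} (j : Fin N) (T : ℝ) :
    (mu N n).real {g | T ≤ nsq (g j)} ≤ Real.exp (-(T / 4)) * (Real.sqrt 2) ^ n := by
  classical
  set u : Fin N → ℝ := Pi.single j 1 with hu
  have hu1 : nsq u = 1 := by
    rw [nsq, Finset.sum_eq_single j]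
    · simp [hu]
    · intro b _ hb; simp [hu, hb]
    · simp
  have hG : ∀ g : Fin N → Fin n → ℝ, Gm g u = g j := by
    intro g
    rw [Gm_apply, Finset.sum_eq_single j]
    · simp [hu]
    · intro b _ hb; simp [hu, hb]
    · simp
  have e1 : (mu N n).real {g | T ≤ nsq (g j)} = (gn n).real {y | T ≤ nsq y} := by
    rw [← map_Gm u hu1, map_measureReal_apply (measurable_Gm u)
      (measurableSet_le measurable_const measurable_nsq)]
    congr 1
    ext g
    simp only [Set.mem_ofPred_eq, Set.mem_preimage, hG]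
  rw [e1]
  have hexp : ∀ y : Fin n → ℝ, Real.exp ((1 / 4) * nsq y) =
      ∏ r, Real.exp ((1 / 4) * y r ^ 2) := by
    intro y
    rw [nsq, Finset.mul_sum, Real.exp_sum]
  have hint : Integrable (fun y : Fin n → ℝ => Real.exp ((1 / 4) * nsq y)) (gn n) := by
    simp_rw [hexp]
    exact Integrable.fintype_prod (fun r => integrable_exp_sq (1 / 4) (by norm_num))
  have h1 := measure_ge_le_exp_mul_mgf (μ := gn n) (X := nsq) T
    (by norm_num : (0 : ℝ) ≤ 1 / 4) hint
  refine h1.trans (le_of_eq ?_)
  have h2 : ProbabilityTheory.mgf nsq (gn n) (1 / 4) = (Real.sqrt 2) ^ n := by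
    rw [ProbabilityTheory.mgf]
    simp_rw [hexp]
    rw [integral_fintype_prod_eq_pow (fun y : ℝ => Real.exp ((1 / 4) * y ^ 2)), exp_quarter]
    simp
  rw [h2]
  congr 2; ring

/-! ### Almost sure surjectivity -/

lemma gn_hyperplane {n : ℕ} (z : Fin n → ℝ) (hz : nsq z = 1) : gn n {x | ip z x = 0} = 0 := by
  have h1 : {x : Fin n → ℝ | ip z x = 0} = (fun x => ip z x) ⁻¹' {0} := by
    ext x; simp
  rw [h1, ← Measure.map_apply (measurable_ip z) (measurableSet_singleton 0), map_ip z hz]
  have := nullSingletonClass_gaussianReal (μ := 0) (v := 1) (by norm_num)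
  exact measure_singleton 0

lemma gn_subspace {n : ℕ} (V : Submodule ℝ (Fin n → ℝ)) (hV : V < ⊤) :
    gn n (V : Set (Fin n → ℝ)) = 0 := by
  obtain ⟨f, hf0, hf⟩ := Submodule.exists_le_ker_of_lt_top V hV
  set z : Fin n → ℝ := fun r => f (Pi.single r 1) with hz
  have hfz : ∀ y, f y = ip z y := by
    intro y
    have h1 : y = ∑ r, y r • (Pi.single r (1 : ℝ) : Fin n → ℝ) := by
      funext r
      simp [Finset.sum_apply, Pi.single_apply]
    conv_lhs => rw [h1]
    rw [map_sum]
    simp only [map_smul, smul_eq_mul, ip, hz]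
    refine Finset.sum_congr rfl fun r _ => mul_comm _ _
  have hz0 : 0 < nsq z := by
    rcases (nsq_nonneg z).eq_or_lt with h0 | h0
    · exfalso
      apply hf0
      ext r
      have h1 : z r ^ 2 ≤ nsq z := Finset.single_le_sum (f := fun r => z r ^ 2)
        (fun _ _ => sq_nonneg _) (Finset.mem_univ r)
      rw [← h0] at h1
      have h2 : z r = 0 := pow_eq_zero_iff (n := 2) (by norm_num) |>.mp (le_antisymm h1 (sq_nonneg _))
      simpa using h2
    · exact h0
  set c : ℝ := (Real.sqrt (nsq z))⁻¹ with hc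
  have hc0 : 0 < c := inv_pos.mpr (Real.sqrt_pos.mpr hz0)
  have hcz : nsq (c • z) = 1 := by
    have : nsq (c • z) = c ^ 2 * nsq z := by simp [nsq, Finset.mul_sum, mul_pow]
    rw [this, hc, inv_pow, Real.sq_sqrt hz0.le, inv_mul_cancel₀ hz0.ne']
  have hsub : (V : Set (Fin n → ℝ)) ⊆ {x | ip (c • z) x = 0} := by
    intro x hx
    have h1 : f x = 0 := hf hx
    rw [hfz] at h1
    show ip (c • z) x = 0
    have : ip (c • z) x = c * ip z x := by simp [ip, Finset.mul_sum, mul_assoc]
    rw [this, h1, mul_zero]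
  exact measure_mono_null hsub (gn_hyperplane _ hcz)

lemma li_null (n : ℕ) : ∀ m : ℕ, m ≤ n → mu m n {g | ¬ LinearIndependent ℝ g} = 0 := by
  intro m
  induction m with
  | zero =>
    intro _
    have : {g : Fin 0 → Fin n → ℝ | ¬ LinearIndependent ℝ g} = ∅ := by
      ext g
      simp only [Set.mem_ofPred_eq, Set.mem_empty_iff_false, iff_false, not_not]
      exact linearIndependent_empty_type
    rw [this]; simp
  | succ m ih =>
    intro hm
    have ih' := ih (by omega)
    have hmp := measurePreserving_piFinSuccAbove (fun _ : Fin (m + 1) => gn n) 0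
    set e := MeasurableEquiv.piFinSuccAbove (fun _ : Fin (m + 1) => (Fin n → ℝ)) 0 with he
    set S : Set (Fin (m + 1) → Fin n → ℝ) := {g | ¬ LinearIndependent ℝ g} with hS
    have hSm : MeasurableSet S := by
      have : IsOpen {g : Fin (m + 1) → Fin n → ℝ | LinearIndependent ℝ g} :=
        isOpen_setOfPred_linearIndependent
      exact this.measurableSet.compl
    set B : Set ((Fin n → ℝ) × (Fin m → Fin n → ℝ)) := e.symm ⁻¹' S with hB
    have hBm : MeasurableSet B := e.symm.measurable hSm
    have h1 : mu (m + 1) n S = ((gn n).prod (mu m n)) B := by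
      have h2 := hmp.measure_preimage hBm.nullMeasurableSet
      rw [← h2]
      congr 1
      rw [hB, ← Set.preimage_comp]
      simp [he]
    rw [h1, Measure.prod_apply_symm hBm, lintegral_eq_zero_iff (measurable_measure_prodMk_right hBm)]
    have h3 : ∀ᵐ t ∂(mu m n), LinearIndependent ℝ t := by
      rw [ae_iff]; exact ih'
    filter_upwards [h3] with t ht
    have h4 : (fun x => (x, t)) ⁻¹' B = (Submodule.span ℝ (Set.range t) : Set (Fin n → ℝ)) := by
      ext x
      simp only [Set.mem_preimage, hB, hS, Set.mem_ofPred_eq]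
      have h5 : e.symm (x, t) = Fin.cons x t := by
        simp [he, MeasurableEquiv.piFinSuccAbove, Fin.insertNthEquiv]
      rw [h5, linearIndependent_finCons]
      simp [ht]
    rw [h4]
    apply gn_subspace
    rw [lt_top_iff_ne_top]
    intro htop
    have h6 : Module.finrank ℝ (Submodule.span ℝ (Set.range t)) ≤ m := by
      have := finrank_range_le_card (R := ℝ) t
      simpa [Set.finrank] using this
    rw [htop, finrank_top] at h6
    simp at h6
    omega

lemma span_null (n : ℕ) : ∀ k : ℕ,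
    mu (n + k) n {g | Submodule.span ℝ (Set.range g) ≠ ⊤} = 0 := by
  intro k
  induction k with
  | zero =>
    apply measure_mono_null _ (li_null n n le_rfl)
    intro g hg hli
    apply hg
    apply Submodule.eq_top_of_finrank_eq
    rw [finrank_span_eq_card hli]
    simp
  | succ k ih =>
    have hmp := measurePreserving_piFinSuccAbove (fun _ : Fin (n + k + 1) => gn n) 0
    set e := MeasurableEquiv.piFinSuccAbove (fun _ : Fin (n + k + 1) => (Fin n → ℝ)) 0 with he
    have hmp2 : MeasurePreserving (fun g : Fin (n + k + 1) → Fin n → ℝ => (e g).2)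
        (mu (n + k + 1) n) (mu (n + k) n) := measurePreserving_snd.comp hmp
    have h2 := hmp2.quasiMeasurePreserving.preimage_null ih
    refine measure_mono_null ?_ h2
    intro g hg
    simp only [Set.mem_preimage, Set.mem_ofPred_eq, ne_eq] at hg ⊢
    intro htop
    apply hg
    rw [eq_top_iff, ← htop]
    apply Submodule.span_mono
    rintro y ⟨i, rfl⟩
    refine ⟨Fin.succ i, ?_⟩
    rfl

lemma surj_of_span {N n : ℕ} (g : Fin N → Fin n → ℝ)
    (h : Submodule.span ℝ (Set.range g) = ⊤) (y : Fin n → ℝ) :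
    ∃ t : Fin N → ℝ, ∑ j, t j • g j = y := by
  have : y ∈ Submodule.span ℝ (Set.range g) := by rw [h]; trivial
  exact (Submodule.mem_span_range_iff_exists_fun ℝ).mp this

end Pool.Agent.Helper56.Cube
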