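import Pool.Agent.Helper56.Bridge

set_option autoImplicit false
set_option linter.unusedSectionVars false

namespace Pool.Agent.Helper56.Cube

open Finset MeasureTheory Module Metric
open scoped ENNReal

section
variable {E : Type*} [NormedAddCommGroup E] [NormedSpace ℝ E] [FiniteDimensional ℝ E]

theorem card_le_sep (δ : ℝ) (hδ : 0 < δ) (s : Finset E) (hs : ∀ c ∈ s, ‖c‖ = 1)
    (h : ∀ c ∈ s, ∀ d ∈ s, c ≠ d → δ ≤ ‖c - d‖) : (s.card : ℝ) ≤ (1 + 2 / δ) ^ finrank ℝ E := by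
  borelize E
  let μ : Measure E := Measure.addHaar
  let η : ℝ := δ / 2
  let ρ : ℝ := 1 + δ / 2
  have ηpos : 0 < η := by positivity
  have ρpos : 0 < ρ := by positivity
  set A := ⋃ c ∈ s, ball (c : E) η with hA
  have D : Set.Pairwise (s : Set E) (Function.onFun Disjoint fun c => ball (c : E) η) := by
    rintro c hc d hd hcd
    apply ball_disjoint_ball
    rw [dist_eq_norm]
    have := h c hc d hd hcd
    show δ / 2 + δ / 2 ≤ _
    linarith
  have A_subset : A ⊆ ball (0 : E) ρ := by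
    refine Set.iUnion₂_subset fun x hx => ?_
    apply ball_subset_ball'
    rw [dist_zero_right, hs x hx]
    show δ / 2 + 1 ≤ 1 + δ / 2
    linarith
  have I :
    (s.card : ℝ≥0∞) * ENNReal.ofReal (η ^ finrank ℝ E) * μ (ball 0 1) ≤
      ENNReal.ofReal (ρ ^ finrank ℝ E) * μ (ball 0 1) :=
    calc
      (s.card : ℝ≥0∞) * ENNReal.ofReal (η ^ finrank ℝ E) * μ (ball 0 1) = μ A := by
        rw [hA, measure_biUnion_finset D fun c _ => measurableSet_ball]
        simp only [μ.addHaar_ball_of_pos _ ηpos]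
        simp only [Finset.sum_const, nsmul_eq_mul, mul_assoc]
      _ ≤ μ (ball (0 : E) ρ) := measure_mono A_subset
      _ = ENNReal.ofReal (ρ ^ finrank ℝ E) * μ (ball 0 1) := by
        simp only [μ.addHaar_ball_of_pos _ ρpos]
  have J : (s.card : ℝ≥0∞) * ENNReal.ofReal (η ^ finrank ℝ E) ≤ ENNReal.ofReal (ρ ^ finrank ℝ E) :=
    (ENNReal.mul_le_mul_iff_left (measure_ball_pos _ _ zero_lt_one).ne' measure_ball_lt_top.ne).1 I
  have K : (s.card : ℝ) * η ^ finrank ℝ E ≤ ρ ^ finrank ℝ E := by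
    have h1 := ENNReal.toReal_le_of_le_ofReal (pow_nonneg ρpos.le _) J
    rw [ENNReal.toReal_mul, ENNReal.toReal_natCast,
      ENNReal.toReal_ofReal (pow_nonneg ηpos.le _)] at h1
    exact h1
  have h2 : (1 + 2 / δ) ^ finrank ℝ E = ρ ^ finrank ℝ E / η ^ finrank ℝ E := by
    rw [← div_pow]
    congr 1
    show 1 + 2 / δ = (1 + δ / 2) / (δ / 2)
    field_simp
    ring
  rw [h2, le_div_iff₀ (by positivity)]
  exact K

theorem net_exists (δ : ℝ) (hδ : 0 < δ) :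
    ∃ T : Finset E, (T.card : ℝ) ≤ (1 + 2 / δ) ^ finrank ℝ E ∧ (∀ c ∈ T, ‖c‖ = 1) ∧
      ∀ x : E, ‖x‖ = 1 → ∃ c ∈ T, ‖x - c‖ ≤ δ := by
  classical
  set S : Set ℕ := {k | ∃ T : Finset E, (∀ c ∈ T, ‖c‖ = 1) ∧
    (∀ c ∈ T, ∀ d ∈ T, c ≠ d → δ ≤ ‖c - d‖) ∧ T.card = k} with hS
  have hbdd : BddAbove S := by
    refine ⟨⌊(1 + 2 / δ) ^ finrank ℝ E⌋₊, ?_⟩
    rintro k ⟨T, h1, h2, rfl⟩
    exact Nat.le_floor (card_le_sep δ hδ T h1 h2)
  have hne : S.Nonempty := ⟨0, ∅, by simp, by simp, by simp⟩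
  obtain ⟨T, h1, h2, h3⟩ := Nat.sSup_mem hne hbdd
  refine ⟨T, card_le_sep δ hδ T h1 h2, h1, ?_⟩
  intro x hx
  by_contra hcon
  push Not at hcon
  have hxT : x ∉ T := by
    intro hxT
    have := hcon x hxT
    simp at this
    linarith
  have h4 : (insert x T).card ∈ S := by
    refine ⟨insert x T, ?_, ?_, rfl⟩
    · intro c hc
      rcases Finset.mem_insert.mp hc with rfl | hc
      · exact hx
      · exact h1 c hc
    · intro c hc d hd hcd
      rcases Finset.mem_insert.mp hc with hc1 | hc1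
      · rcases Finset.mem_insert.mp hd with hd1 | hd1
        · exact absurd (hc1.trans hd1.symm) hcd
        · rw [hc1]; exact (hcon d hd1).le
      · rcases Finset.mem_insert.mp hd with hd1 | hd1
        · rw [hd1, norm_sub_rev]; exact (hcon c hc1).le
        · exact h2 c hc1 d hd1 hcd
  have h5 := le_csSup hbdd h4
  rw [Finset.card_insert_of_notMem hxT, ← h3] at h5
  omega

end

lemma nsq_eq_norm {d : ℕ} (x : EuclideanSpace ℝ (Fin d)) : ‖x‖ ^ 2 = nsq (fun i => x i) := by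
  rw [EuclideanSpace.real_norm_sq_eq]; rfl

/-- nets of the Euclidean sphere, in coordinates -/
theorem net_fun (d : ℕ) (δ : ℝ) (hδ : 0 < δ) :
    ∃ T : Finset (Fin d → ℝ), (T.card : ℝ) ≤ (1 + 2 / δ) ^ d ∧ (∀ c ∈ T, nsq c = 1) ∧
      ∀ x : Fin d → ℝ, nsq x = 1 → ∃ c ∈ T, nsq (x - c) ≤ δ ^ 2 := by
  classical
  obtain ⟨T, h1, h2, h3⟩ := net_exists (E := EuclideanSpace ℝ (Fin d)) δ hδ
  rw [finrank_euclideanSpace_fin] at h1
  refine ⟨T.image (fun x => (fun i => x i)), ?_, ?_, ?_⟩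
  · refine le_trans ?_ h1
    exact_mod_cast Finset.card_image_le
  · intro c hc
    rw [Finset.mem_image] at hc
    obtain ⟨x, hx, rfl⟩ := hc
    rw [← nsq_eq_norm, h2 x hx]; norm_num
  · intro x hx
    have hx1 : ‖(WithLp.toLp 2 x : EuclideanSpace ℝ (Fin d))‖ = 1 := by
      have h4 : ‖(WithLp.toLp 2 x : EuclideanSpace ℝ (Fin d))‖ ^ 2 = 1 := by
        rw [nsq_eq_norm]; exact hx
      have h5 : 0 ≤ ‖(WithLp.toLp 2 x : EuclideanSpace ℝ (Fin d))‖ := norm_nonneg _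
      nlinarith
    obtain ⟨c, hc, hcx⟩ := h3 _ hx1
    refine ⟨fun i => c i, Finset.mem_image.mpr ⟨c, hc, rfl⟩, ?_⟩
    have h6 : nsq (x - fun i => c i) = ‖(WithLp.toLp 2 x : EuclideanSpace ℝ (Fin d)) - c‖ ^ 2 := by
      rw [nsq_eq_norm]; rfl
    rw [h6]
    exact pow_le_pow_left₀ (norm_nonneg _) hcx 2

end Pool.Agent.Helper56.Cube
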